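import Pool.Agent.Nm65.Ops

/-!
MP_50671f: the operations and the dense sets used in the separation theorem are Borel; Cohen ladders.
-/

namespace Pool.Agent.Nm65

open MeasureTheory Set Cardinal TopologicalSpace

section gen
variable {X : Type} [MeasurableSpace X]

lemma mb_nat {β : Type} [MeasurableSpace β] {φ : ℕ → X → β} (hφ : ∀ n, Measurable (φ n)) {k : X → ℕ}
    (hk : Measurable k) : Measurable fun x => φ (k x) x := by
  intro s hs
  have : (fun x => φ (k x) x) ⁻¹' s = ⋃ n : ℕ, (k ⁻¹' {n} ∩ (φ n) ⁻¹' s) := by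
    ext x
    simp
  rw [this]
  exact MeasurableSet.iUnion fun n => (hk (measurableSet_singleton n)).inter (hφ n hs)

lemma mb_p1 (p : ℕ → Prop) {k : X → ℕ} (hk : Measurable k) : Measurable fun x => p (k x) :=
  (Measurable.of_discrete (f := p)).comp hk

lemma mb_p2 (p : ℕ → ℕ → Prop) {k l : X → ℕ} (hk : Measurable k) (hl : Measurable l) :
    Measurable fun x => p (k x) (l x) :=
  mb_nat (φ := fun n x => p n (l x)) (fun n => mb_p1 (p n) hl) hk

lemma mb_p3 (p : ℕ → ℕ → ℕ → Prop) {k l m : X → ℕ} (hk : Measurable k) (hl : Measurable l)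
    (hm : Measurable m) : Measurable fun x => p (k x) (l x) (m x) :=
  mb_nat (φ := fun n x => p n (l x) (m x)) (fun n => mb_p2 (p n) hl hm) hk

lemma mb_f1 (f : ℕ → ℕ) {k : X → ℕ} (hk : Measurable k) : Measurable fun x => f (k x) :=
  (Measurable.of_discrete (f := f)).comp hk

lemma mb_ev {f : X → R} (hf : Measurable f) {k : X → ℕ} (hk : Measurable k) : Measurable fun x => f x (k x) :=
  mb_nat (φ := fun n x => f x n) (fun n => (measurable_pi_apply n).comp hf) hk

lemma mb_ev' {f : X → R} (hf : Measurable f) (n : ℕ) : Measurable fun x => f x n :=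
  (measurable_pi_apply n).comp hf

lemma mb_len {f : X → R} (hf : Measurable f) (i : ℕ) : Measurable fun x => len (f x) i :=
  mb_f1 (fun v => v.unpair.1 + 1) (mb_ev' hf i)

lemma mb_st' {f : X → R} (hf : Measurable f) (i : ℕ) : Measurable fun x => st (f x) i := by
  unfold st
  exact Finset.measurable_fun_sum _ fun j _ => mb_len hf j

lemma mb_st {f : X → R} (hf : Measurable f) {k : X → ℕ} (hk : Measurable k) : Measurable fun x => st (f x) (k x) :=
  mb_nat (φ := fun n x => st (f x) n) (fun n => mb_st' hf n) hk

lemma mb_idx' {f : X → R} (hf : Measurable f) (n : ℕ) : Measurable fun x => idx (f x) n := by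
  unfold idx
  apply measurable_findGreatest
  intro k _
  exact (mb_p1 (fun v => v ≤ n) (mb_st' hf k)).setOf

lemma mb_idx {f : X → R} (hf : Measurable f) {k : X → ℕ} (hk : Measurable k) : Measurable fun x => idx (f x) (k x) :=
  mb_nat (φ := fun n x => idx (f x) n) (fun n => mb_idx' hf n) hk

open Classical in
lemma mb_find {p : X → ℕ → Prop} [∀ x, DecidablePred (p x)] (hp : ∀ n, Measurable fun x => p x n) :
    Measurable fun x => if h : ∃ m, p x m then Nat.find h else 0 := by
  apply measurable_to_countable'
  intro v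
  have : (fun x => if h : ∃ m, p x m then Nat.find h else 0) ⁻¹' {v} =
      {x | (p x v ∧ ∀ m, m < v → ¬ p x m) ∨ ((∀ m, ¬ p x m) ∧ v = 0)} := by
    ext x
    simp only [mem_preimage, mem_singleton_iff, mem_ofPred_eq]
    by_cases h : ∃ m, p x m
    · rw [dif_pos h, Nat.find_eq_iff]
      constructor
      · rintro ⟨h1, h2⟩
        exact Or.inl ⟨h1, h2⟩
      · rintro (⟨h1, h2⟩ | ⟨h1, _⟩)
        · exact ⟨h1, h2⟩
        · exact absurd h (not_exists.2 h1)
    · rw [dif_neg h]
      push Not at h
      constructor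
      · intro h0
        exact Or.inr ⟨h, h0.symm⟩
      · rintro (⟨h1, _⟩ | ⟨_, h2⟩)
        · exact absurd h1 (h v)
        · exact h2.symm
  rw [this]
  apply Measurable.setOf
  exact ((hp v).and (Measurable.forall fun m => measurable_const.imp (hp m).not)).or
    ((Measurable.forall fun m => (hp m).not).and measurable_const)

open Classical in
lemma mb_findC {p : X → ℕ → Prop} (hp : ∀ n, Measurable fun x => p x n) :
    Measurable fun x => if h : ∃ m, p x m then Nat.find h else 0 := mb_find hp

open Classical in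
lemma mb_ch {S : X → Set ℕ} (hS : ∀ n, Measurable fun x => n ∈ S x) : Measurable fun x => ch (S x) := by
  rw [measurable_pi_iff]
  intro n
  unfold ch
  exact Measurable.ite (hS n).setOf measurable_const measurable_const

/-- the predicate `cl v ⊆ Dset g i` in terms of `v` and `g i` -/
lemma cl_sub_iff (v : ℕ) (g : R) (i : ℕ) : ((cl v : Set Cantor) ⊆ Dset g i) ↔ (cl v : Set Cantor) ⊆ Dset (fun _ => g i) i := by
  unfold Dset
  rfl

lemma mb_sub {g : X → R} (hg : Measurable g) {v k : X → ℕ} (hv : Measurable v) (hk : Measurable k) :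
    Measurable fun x => (cl (v x) : Set Cantor) ⊆ Dset (g x) (k x) := by
  have : (fun x => (cl (v x) : Set Cantor) ⊆ Dset (g x) (k x)) =
      fun x => (fun a b c : ℕ => (cl a : Set Cantor) ⊆ Dset (fun _ => b) c) (v x) (g x (k x)) (k x) := by
    funext x
    exact propext (cl_sub_iff _ _ _)
  rw [this]
  exact mb_p3 (fun a b c : ℕ => (cl a : Set Cantor) ⊆ Dset (fun _ => b) c) hv (mb_ev hg hk) hk

lemma mb_Good {g h c a : X → R} (hg : Measurable g) (hh : Measurable h) (hc : Measurable c) (ha : Measurable a)
    {k : X → ℕ} (hk : Measurable k) : Measurable fun x => Good (g x) (h x) (c x) (St (a x)) (k x) := by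
  unfold Good
  refine Measurable.exists fun n => ?_
  refine Measurable.and (mb_p1 (fun v => v ≠ 0) (mb_ev' ha n)) (Measurable.and ?_ (mb_sub hg (mb_ev' hc n) hk))
  refine Measurable.forall fun m => ?_
  exact (mb_p1 (fun v => m ≤ v) (mb_ev' hh n)).imp ((mb_p1 (fun v => n ≤ v) (mb_ev' hh m)).imp
    (mb_p2 (fun u v => u = v) (mb_idx' hg m) hk))

lemma mb_BB {g h c a : X → R} (hg : Measurable g) (hh : Measurable h) (hc : Measurable c) (ha : Measurable a)
    (n : ℕ) : Measurable fun x => n ∈ BB (g x) (h x) (c x) (St (a x)) := by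
  unfold BB
  refine Measurable.forall fun m => ?_
  exact (mb_p1 (fun v => m ≤ v) (mb_ev' hh n)).imp ((mb_p1 (fun v => n ≤ v) (mb_ev' hh m)).imp
    (mb_Good hg hh hc ha (mb_idx' hg m)))

open Classical in
lemma mb_opB {g h c a : X → R} (hg : Measurable g) (hh : Measurable h) (hc : Measurable c) (ha : Measurable a) :
    Measurable fun x => opB (g x) (h x) (c x) (a x) := by
  rw [measurable_pi_iff]
  intro n
  unfold opB
  exact Measurable.ite ((mb_p1 (fun v => v ≠ 0) (mb_ev' ha n)).and (mb_BB hg hh hc ha n)).setOf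
    measurable_const measurable_const

lemma mb_Sz {z : X → R} (hz : Measurable z) (l : ℕ) {v : X → ℕ} (hv : Measurable v) :
    Measurable fun x => (l, v x) ∈ Sz (z x) := by
  have : (fun x => (l, v x) ∈ Sz (z x)) = fun x => ∃ t : List ℕ, Encodable.encode t ∈ St (z x) ∧
      l < t.length ∧ (ext t l).unpair.2 ≠ 0 ∧ (ext t l).unpair.1 % 2 ^ l = v x := rfl
  rw [this]
  refine Measurable.exists fun t => ?_
  refine Measurable.and (mb_p1 (fun v => v ≠ 0) (mb_ev' hz _)) (Measurable.and measurable_const
    (Measurable.and measurable_const ?_))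
  exact mb_p1 (fun u => (ext t l).unpair.1 % 2 ^ l = u) hv

end gen

lemma mb_id : Measurable fun x : R => x := measurable_id

lemma mb_map (f : ℕ → ℕ) : Measurable fun (x : R) (n : ℕ) => f (x n) := by
  rw [measurable_pi_iff]
  exact fun n => mb_f1 f (mb_ev' mb_id n)

/-- the closure operations are Borel -/
theorem measurable_opF (k : ℕ) : Measurable (opF k) := by
  match k with
  | 0 => exact mb_map fun v => v.unpair.1
  | 1 => exact mb_map fun v => v.unpair.2
  | 2 => exact mb_opB (mb_map c0) (mb_map c1) (mb_map c2) (mb_map fun v => v.unpair.2.unpair.2.unpair.2)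
  | 3 => exact mb_map fun v => (cl_surj (cl v.unpair.1 ⊔ cl v.unpair.2)).choose
  | 4 => exact mb_map fun v => max v.unpair.1 v.unpair.2
  | 5 =>
    show Measurable fun (x : R) (n : ℕ) => (x ((x n).unpair.2)).unpair.1
    rw [measurable_pi_iff]
    exact fun n => mb_f1 (fun v => v.unpair.1) (mb_ev mb_id (mb_f1 (fun v => v.unpair.2) (mb_ev' mb_id n)))
  | 6 =>
    show Measurable fun (x : R) (n : ℕ) => st x (idx x n + 1)
    rw [measurable_pi_iff]
    exact fun n => mb_st mb_id (mb_f1 (fun v => v + 1) (mb_idx' mb_id n))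
  | 7 =>
    show Measurable modu
    rw [measurable_pi_iff]
    intro k
    unfold modu
    apply mb_findC
    intro m
    refine Measurable.forall fun n => measurable_const.imp ?_
    exact mb_p1 (fun v => mu (cl v : Set Cantor) ≤ (1 / 2) ^ k) (mb_ev' mb_id n)
  | 8 =>
    show Measurable nxt
    rw [measurable_pi_iff]
    intro k
    unfold nxt
    apply mb_find
    intro m
    exact measurable_const.and (mb_p1 (fun v => v ≠ 0) (mb_ev' mb_id m))
  | 9 =>
    show Measurable fun x : R => ch {l | (x l).unpair.2.unpair.2 ≠ 0 ∧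
      (l, (x l).unpair.2.unpair.1 % 2 ^ l) ∉ Sz (fun n => (x n).unpair.1)}
    apply mb_ch
    intro l
    exact (mb_p1 (fun v => v.unpair.2.unpair.2 ≠ 0) (mb_ev' mb_id l)).and
      (mb_Sz (mb_map fun v => v.unpair.1) l (mb_f1 (fun v => v.unpair.2.unpair.1 % 2 ^ l) (mb_ev' mb_id l))).not
  | 10 => exact measurable_const
  | 11 => exact measurable_const
  | _ + 12 => exact measurable_id

/-- the schemes of dense sets are Borel -/
theorem measurable_opD (k : ℕ) (s : List ℕ) : Measurable fun x : R => s ∈ opD k x := by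
  unfold opD
  split
  · refine Measurable.exists fun i => Measurable.and measurable_const ?_
    refine Measurable.exists fun n => Measurable.and measurable_const ?_
    refine Measurable.and (mb_p1 (fun v => c2 v ≠ 0) (mb_ev' mb_id n)) ?_
    refine Measurable.and (mb_p1 (fun v => v.unpair.2.unpair.2.unpair.2 ≠ 0) (mb_ev' mb_id n)) ?_
    refine Measurable.and ?_ (mb_p1 (fun v => (cl (c1 v) : Set Cantor) ⊆ Dset (ext s) i) (mb_ev' mb_id n))
    refine Measurable.forall fun m => ?_
    exact (mb_p1 (fun v => m ≤ c0 v) (mb_ev' mb_id n)).imp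
      ((mb_p1 (fun v => n ≤ c0 v) (mb_ev' mb_id m)).imp measurable_const)
  · refine Measurable.exists fun i => Measurable.and measurable_const ?_
    refine Measurable.exists fun n => Measurable.and measurable_const (Measurable.and measurable_const ?_)
    exact (mb_p1 (fun v => v < st (ext s) (i + 1)) (mb_ev' mb_id n)).and measurable_const
  · refine Measurable.exists fun i => Measurable.and measurable_const ?_
    refine Measurable.exists fun l => Measurable.and measurable_const ?_
    refine Measurable.forall fun u => measurable_const.imp ?_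
    refine Measurable.exists fun t => ?_
    exact (mb_p1 (fun v => v ≠ 0) (mb_ev' mb_id _)).and measurable_const

end Pool.Agent.Nm65
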