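import Pool.Agent.Nm65.L83
import Mathlib.SetTheory.Cardinal.Regular

/-!
Index facts for the Cohen ladders (MP_50671f).
-/

namespace Pool.Agent.Nm65

open Set Cardinal

namespace Idx83

/-- In the initial ordinal of a regular cardinal, small sets are bounded. -/
lemma bounded_of_lt {c : Cardinal.{0}} (hc : c.IsRegular) (S : Set c.ord.ToType) (hS : #S < c) :
    ∃ j, ∀ x ∈ S, x ≤ j := by
  by_contra hcon
  push Not at hcon
  have hcov : (⋃ x ∈ S, Iio x) = (Set.univ : Set c.ord.ToType) := by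
    refine eq_univ_of_forall fun j => ?_
    obtain ⟨x, hx, hjx⟩ := hcon j
    simp only [mem_iUnion, exists_prop]
    exact ⟨x, hx, hjx⟩
  have h1 : #(⋃ x ∈ S, Iio x : Set c.ord.ToType) < c :=
    (card_biUnion_lt_iff_forall_of_isRegular hc hS).2 fun x _ => mk_Iio_toType_ord_lt x
  rw [hcov, mk_univ, mk_ord_toType] at h1
  exact lt_irrefl _ h1

/-- Ladders of regular length: small sets of reals are covered. -/
lemma cover_of_lt {c : Cardinal.{0}} (hc : c.IsRegular) {M : c.ord.ToType → Set R}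
    (hmono : ∀ i j, i ≤ j → M i ⊆ M j) (hcov : ∀ x, ∃ i, x ∈ M i) (X : Set R) (hX : #X < c) :
    ∃ i, X ⊆ M i := by
  choose f hf using hcov
  obtain ⟨j, hj⟩ := bounded_of_lt hc (f '' X) (mk_image_le.trans_lt hX)
  exact ⟨j, fun x hx => hmono _ _ (hj _ ⟨x, hx, rfl⟩) (hf x)⟩

lemma nomax_ord {c : Cardinal.{0}} (hc : ℵ₀ ≤ c) (i : c.ord.ToType) : ∃ j, i < j :=
  (Cardinal.noMaxOrder hc).exists_gt i

/-- No maximum in a limit ordinal. -/
lemma nomax_of_limit {o : Ordinal.{0}} (ho : Order.IsSuccLimit o) (i : o.ToType) : ∃ j, i < j := by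
  have h1 : Ordinal.typein (α := o.ToType) (· < ·) i < o := by
    have := Ordinal.typein_lt_type (α := o.ToType) (· < ·) i
    rwa [Ordinal.type_toType] at this
  have h2 : Order.succ (Ordinal.typein (α := o.ToType) (· < ·) i) < o := ho.succ_lt h1
  obtain ⟨j, hj⟩ := Ordinal.typein_surj (α := o.ToType) (· < ·)
    (o := Order.succ (Ordinal.typein (α := o.ToType) (· < ·) i)) (by
      rw [Ordinal.type_toType]; exact h2)
  refine ⟨j, ?_⟩
  rw [← Ordinal.typein_lt_typein (α := o.ToType) (· < ·)]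
  have hj' : Ordinal.typein (α := o.ToType) (· < ·) j =
    Order.succ (Ordinal.typein (α := o.ToType) (· < ·) i) := hj
  rw [hj']
  exact Order.lt_succ _

/-- The point of index `(succ κ).ord` in the ordinal `(succ κ).ord + κ.ord`. -/
theorem point_add {κ : Cardinal.{0}} (hκ : ℵ₀ ≤ κ) :
    ∃ i0 : ((Order.succ κ).ord + κ.ord).ToType, (∃ j, j < i0) ∧
      (∀ j, j < i0 → ∃ k, j < k ∧ k < i0) ∧
      (∀ S : Set ((Order.succ κ).ord + κ.ord).ToType, #S ≤ κ → (∀ x ∈ S, x < i0) →
        ∃ j, j < i0 ∧ ∀ x ∈ S, x ≤ j) ∧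
      #{i // i0 ≤ i} ≤ κ := by
  set o : Ordinal.{0} := (Order.succ κ).ord + κ.ord with ho
  have hpos : 0 < κ.ord := by
    rw [Cardinal.lt_ord, Ordinal.card_zero]
    exact aleph0_pos.trans_le hκ
  have hlt : (Order.succ κ).ord < Ordinal.type (α := o.ToType) (· < ·) := by
    rw [Ordinal.type_toType, ho]
    exact (lt_add_iff_pos_right _).2 hpos
  obtain ⟨i0, hi0⟩ := Ordinal.typein_surj (α := o.ToType) (· < ·) hlt
  have hi0' : Ordinal.typein (α := o.ToType) (· < ·) i0 = (Order.succ κ).ord := hi0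
  obtain ⟨h1, h2, h3⟩ := L83.point_facts hκ hi0'
  refine ⟨i0, h1, h2, h3, ?_⟩
  -- the tail
  have hb : ∀ i : {i // i0 ≤ i}, ∃ k : κ.ord.ToType, Ordinal.typein (α := o.ToType) (· < ·) i.1 =
      (Order.succ κ).ord + Ordinal.typein (α := κ.ord.ToType) (· < ·) k := by
    rintro ⟨i, hi⟩
    have h4 : (Order.succ κ).ord ≤ Ordinal.typein (α := o.ToType) (· < ·) i := by
      rw [← hi0']
      exact (Ordinal.typein_le_typein (α := o.ToType) (· < ·)).2 (not_lt.2 hi)
    have h5 := Ordinal.add_sub_cancel_of_le h4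
    have h6 : Ordinal.typein (α := o.ToType) (· < ·) i < o := by
      have := Ordinal.typein_lt_type (α := o.ToType) (· < ·) i
      rwa [Ordinal.type_toType] at this
    have h7 : Ordinal.typein (α := o.ToType) (· < ·) i - (Order.succ κ).ord < κ.ord := by
      have h9 : (Order.succ κ).ord + (Ordinal.typein (α := o.ToType) (· < ·) i - (Order.succ κ).ord)
        < (Order.succ κ).ord + κ.ord := h5.le.trans_lt h6
      exact (add_lt_add_iff_left _).1 h9
    obtain ⟨k, hk⟩ := Ordinal.typein_surj (α := κ.ord.ToType) (· < ·)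
      (o := Ordinal.typein (α := o.ToType) (· < ·) i - (Order.succ κ).ord) (by
        rw [Ordinal.type_toType]; exact h7)
    refine ⟨k, ?_⟩
    have hk' : Ordinal.typein (α := κ.ord.ToType) (· < ·) k =
      Ordinal.typein (α := o.ToType) (· < ·) i - (Order.succ κ).ord := hk
    rw [hk', h5]
  choose f hf using hb
  have hinj : Function.Injective f := by
    intro a b hab
    have := hf a
    rw [hab, ← hf b] at this
    exact Subtype.ext ((Ordinal.typein_injective (α := o.ToType) (· < ·)) this)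
  have h8 := Cardinal.mk_le_of_injective hinj
  rwa [mk_ord_toType] at h8

lemma nomax_add {κ : Cardinal.{0}} (hκ : ℵ₀ ≤ κ) (i : ((Order.succ κ).ord + κ.ord).ToType) :
    ∃ j, i < j :=
  nomax_of_limit (Ordinal.isSuccLimit_add _ (Cardinal.isSuccLimit_ord hκ)) i

lemma omega_two : (Ordinal.omega 2 : Ordinal.{0}) = (Order.succ (Order.succ ℵ₀)).ord := by
  have h1 : Order.succ (ℵ_ (0 : Ordinal.{0})) = ℵ_ 1 := by
    rw [Cardinal.succ_aleph, zero_add]
  have h2 : Order.succ (ℵ_ (1 : Ordinal.{0})) = ℵ_ 2 := by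
    rw [Cardinal.succ_aleph, one_add_one_eq_two]
  rw [← Cardinal.ord_aleph, ← h2, ← h1, Cardinal.aleph_zero]

lemma omega_one : (Ordinal.omega 1 : Ordinal.{0}) = (Order.succ ℵ₀).ord := by
  have h1 : Order.succ (ℵ_ (0 : Ordinal.{0})) = ℵ_ 1 := by
    rw [Cardinal.succ_aleph, zero_add]
  rw [← Cardinal.ord_aleph, ← h1, Cardinal.aleph_zero]

end Idx83

end Pool.Agent.Nm65
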