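import Pool.Agent.Nm65.OB

/-!
Basic facts on `N_J`, `N*_J` and their cardinal characteristics.
-/

namespace Pool.Agent.Nm65

open MeasureTheory Set Cardinal TopologicalSpace Filter

variable {J : Set (Set ℕ)}

lemma NJ_subset_inf (hJ : IsIdeal J) (c : ℕ → Set Cantor) :
    NJ J c ⊆ {x | {n | x ∈ c n}.Infinite} := by
  intro x hx hfin
  exact hx (hJ.2.2.1 _ (Set.not_infinite.1 (fun h => h hfin)))

lemma NsJ_subset_NJ (hJ : IsIdeal J) (c : ℕ → Set Cantor) : NsJ J c ⊆ NJ J c := by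
  intro x hx hx'
  refine hJ.2.2.2 ?_
  have := hJ.2.1 _ hx _ hx'
  refine hJ.1 _ this _ ?_
  intro n _
  by_cases h : x ∈ c n
  · exact Or.inr h
  · exact Or.inl h

lemma calNs_subset_calN (hJ : IsIdeal J) : calNs J ⊆ calN J := by
  rintro X ⟨c, hc, hX⟩
  exact ⟨c, hc, hX.trans (NsJ_subset_NJ hJ c)⟩

lemma mu_of_mem_calN (hJ : IsIdeal J) {X : Set Cantor} (hX : X ∈ calN J) : mu X = 0 := by
  obtain ⟨c, hc, hX⟩ := hX
  exact measure_mono_null (hX.trans (NJ_subset_inf hJ c)) hc.2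

lemma univ_not_mem_calN (hJ : IsIdeal J) : (Set.univ : Set Cantor) ∉ calN J := by
  intro h
  have := mu_of_mem_calN hJ h
  rw [measure_univ] at this
  exact one_ne_zero this

lemma univ_not_mem_calNs (hJ : IsIdeal J) : (Set.univ : Set Cantor) ∉ calNs J :=
  fun h => univ_not_mem_calN hJ (calNs_subset_calN hJ h)

lemma singleton_mem_calNs (hJ : IsIdeal J) (x : Cantor) : ({x} : Set Cantor) ∈ calNs J := by
  refine ⟨fun n => cylF (Finset.range n) x, ?_, ?_⟩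
  · refine omegaBar_of_blocks (D := fun n => cylF (Finset.range n) x) (k := id)
      (fun n => isClopen_cylF _ _) (fun n => ?_) (fun b => ⟨b, fun n hn => hn⟩)
      (fun n => subset_rfl)
    rw [mu_cylF, Finset.card_range]
  · rintro y rfl
    have : {n | y ∉ cylF (Finset.range n) y} = ∅ := by
      ext n
      simp [cylF]
    show {n | y ∉ cylF (Finset.range n) y} ∈ J
    rw [this]
    exact hJ.2.2.1 _ Set.finite_empty

lemma singleton_mem_calN (hJ : IsIdeal J) (x : Cantor) : ({x} : Set Cantor) ∈ calN J :=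
  calNs_subset_calN hJ (singleton_mem_calNs hJ x)

/-! ### Cardinals -/

lemma add_le_of {X : Type} {I : Set (Set X)} {F : Set (Set X)} (hF : F ⊆ I) (h : ⋃₀ F ∉ I) :
    add I ≤ #F := csInf_le' ⟨F, hF, rfl, h⟩

lemma le_add_of {X : Type} {I : Set (Set X)} {κ : Cardinal}
    (hne : ∃ F : Set (Set X), F ⊆ I ∧ ⋃₀ F ∉ I)
    (h : ∀ F : Set (Set X), F ⊆ I → #F < κ → ⋃₀ F ∈ I) : κ ≤ add I := by
  obtain ⟨F, hF, hF'⟩ := hne
  refine le_csInf ⟨_, F, hF, rfl, hF'⟩ ?_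
  rintro _ ⟨G, hG, rfl, hG'⟩
  by_contra hcon
  exact hG' (h G hG (not_le.1 hcon))

lemma exists_add {X : Type} {I : Set (Set X)} (hne : ∃ F : Set (Set X), F ⊆ I ∧ ⋃₀ F ∉ I) :
    ∃ F : Set (Set X), F ⊆ I ∧ #F = add I ∧ ⋃₀ F ∉ I := by
  obtain ⟨F, hF, hF'⟩ := hne
  exact csInf_mem (s := {κ : Cardinal | ∃ F : Set (Set X), F ⊆ I ∧ #F = κ ∧ ⋃₀ F ∉ I})
    ⟨_, F, hF, rfl, hF'⟩

lemma cof_le_of {X : Type} {I : Set (Set X)} {B : Set (Set X)} (hB : B ⊆ I)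
    (h : ∀ A ∈ I, ∃ C ∈ B, A ⊆ C) : cof I ≤ #B := csInf_le' ⟨B, hB, rfl, h⟩

lemma exists_cof {X : Type} (I : Set (Set X)) :
    ∃ B : Set (Set X), B ⊆ I ∧ #B = cof I ∧ ∀ A ∈ I, ∃ C ∈ B, A ⊆ C :=
  csInf_mem (s := {κ : Cardinal | ∃ B : Set (Set X), B ⊆ I ∧ #B = κ ∧ ∀ A ∈ I, ∃ C ∈ B, A ⊆ C})
    ⟨_, I, subset_rfl, rfl, fun A hA => ⟨A, hA, subset_rfl⟩⟩

lemma add_le_cof {X : Type} {I : Set (Set X)} (h1 : ∀ x, ({x} : Set X) ∈ I)
    (h2 : (Set.univ : Set X) ∉ I) : add I ≤ cof I := by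
  obtain ⟨B, hB, hc, hB'⟩ := exists_cof I
  rw [← hc]
  refine add_le_of hB ?_
  have : ⋃₀ B = Set.univ := by
    refine Set.eq_univ_of_forall fun x => ?_
    obtain ⟨C, hC, hxC⟩ := hB' _ (h1 x)
    exact ⟨C, hC, hxC rfl⟩
  rwa [this]

lemma cov_le_of {X : Type} {I : Set (Set X)} {F : Set (Set X)} (hF : F ⊆ I)
    (h : ⋃₀ F = Set.univ) : cov I ≤ #F := csInf_le' ⟨F, hF, rfl, h⟩

lemma exists_cov {X : Type} {I : Set (Set X)} (h1 : ∀ x, ({x} : Set X) ∈ I) :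
    ∃ F : Set (Set X), F ⊆ I ∧ #F = cov I ∧ ⋃₀ F = Set.univ := by
  have hne : {κ : Cardinal | ∃ F : Set (Set X), F ⊆ I ∧ #F = κ ∧ ⋃₀ F = Set.univ}.Nonempty := by
    refine ⟨_, Set.range (fun x : X => ({x} : Set X)), ?_, rfl, ?_⟩
    · rintro _ ⟨x, rfl⟩; exact h1 x
    · exact Set.eq_univ_of_forall fun x => ⟨{x}, ⟨x, rfl⟩, rfl⟩
  exact csInf_mem hne

lemma add_le_cov {X : Type} {I : Set (Set X)} (h1 : ∀ x, ({x} : Set X) ∈ I)
    (h2 : (Set.univ : Set X) ∉ I) : add I ≤ cov I := by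
  obtain ⟨F, hF, hc, hF'⟩ := exists_cov h1
  rw [← hc]
  refine add_le_of hF ?_
  rwa [hF']

lemma non_le_cof {X : Type} {I : Set (Set X)} (hd : ∀ A ∈ I, ∀ B, B ⊆ A → B ∈ I)
    (h2 : (Set.univ : Set X) ∉ I) : non I ≤ cof I := by
  obtain ⟨B, hB, hc, hB'⟩ := exists_cof I
  rw [← hc]
  have hx : ∀ A : B, ∃ x, x ∉ (A : Set X) := by
    intro A
    by_contra hcon
    push Not at hcon
    have : (A : Set X) = Set.univ := Set.eq_univ_of_forall hcon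
    exact h2 (this ▸ hB A.2)
  choose f hf using hx
  have hT : Set.range f ∉ I := by
    intro h
    obtain ⟨C, hC, hsub⟩ := hB' _ h
    exact hf ⟨C, hC⟩ (hsub ⟨⟨C, hC⟩, rfl⟩)
  exact (csInf_le' ⟨_, hT, rfl⟩ : non I ≤ _).trans mk_range_le

end Pool.Agent.Nm65
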