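import Pool.Agent.Nm65.Ops

/-!
Core combinatorics for the separation theorem (MP_50671f).
-/

namespace Pool.Agent.Nm65

open MeasureTheory Set Cardinal TopologicalSpace

/-! ### Blocks -/

lemma st_zero (g : R) : st g 0 = 0 := by simp [st]

lemma st_succ (g : R) (i : ℕ) : st g (i + 1) = st g i + len g i := by
  simp [st, Finset.sum_range_succ]

lemma len_pos (g : R) (i : ℕ) : 0 < len g i := by simp [len]

lemma st_strictMono (g : R) : StrictMono (st g) :=
  strictMono_nat_of_lt_succ fun i => by rw [st_succ]; have := len_pos g i; omega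

lemma le_st (g : R) (i : ℕ) : i ≤ st g i := (st_strictMono g).le_apply

lemma idx_spec (g : R) (n : ℕ) : st g (idx g n) ≤ n ∧ n < st g (idx g n + 1) := by
  have h0 : st g 0 ≤ n := by rw [st_zero]; exact Nat.zero_le _
  refine ⟨Nat.findGreatest_spec (P := fun i => st g i ≤ n) (Nat.zero_le n) h0, ?_⟩
  by_contra hcon
  push Not at hcon
  have hle : idx g n + 1 ≤ n := (le_st g _).trans hcon
  have := Nat.le_findGreatest (P := fun i => st g i ≤ n) hle hcon
  unfold idx at hle hcon this
  omega

lemma idx_eq {g : R} {n i : ℕ} (h1 : st g i ≤ n) (h2 : n < st g (i + 1)) : idx g n = i := by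
  obtain ⟨h3, h4⟩ := idx_spec g n
  have hm := st_strictMono g
  have a1 : i < idx g n + 1 := hm.lt_iff_lt.1 (lt_of_le_of_lt h1 h4)
  have a2 : idx g n < i + 1 := hm.lt_iff_lt.1 (lt_of_le_of_lt h3 h2)
  omega

lemma idx_mono (g : R) : Monotone (idx g) := by
  intro a b hab
  by_contra hcon
  push Not at hcon
  have h1 := (idx_spec g b).2
  have h2 := (idx_spec g a).1
  have h3 : st g (idx g b + 1) ≤ st g (idx g a) := (st_strictMono g).monotone hcon
  omega

lemma st_congr {g g' : R} {i : ℕ} (h : ∀ j < i, g j = g' j) : st g i = st g' i := by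
  unfold st
  refine Finset.sum_congr rfl fun j hj => ?_
  unfold len
  rw [h j (Finset.mem_range.1 hj)]

lemma Dset_congr {g g' : R} {i : ℕ} (h : g i = g' i) : Dset g i = Dset g' i := by
  unfold Dset
  rw [h]

lemma ext_pre {x : R} {k n : ℕ} (h : n < k) : ext (pre x k) n = x n := by
  unfold ext pre
  simp [List.getD, h]

lemma ext_append_left {s t : List ℕ} {n : ℕ} (h : n < s.length) : ext (s ++ t) n = ext s n := by
  unfold ext
  simp [List.getD, List.getElem?_append_left h]

lemma ext_append_single {s : List ℕ} {v : ℕ} : ext (s ++ [v]) s.length = v := by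
  unfold ext
  simp [List.getD]

lemma length_pre (x : R) (k : ℕ) : (pre x k).length = k := by simp [pre]

lemma st_ext_pre {x : R} {k i : ℕ} (h : i ≤ k) : st (ext (pre x k)) i = st x i :=
  st_congr fun j hj => ext_pre (lt_of_lt_of_le hj h)

lemma Dset_ext_pre {x : R} {k i : ℕ} (h : i < k) : Dset (ext (pre x k)) i = Dset x i :=
  Dset_congr (ext_pre h)

lemma st_append_single (s : List ℕ) (v : ℕ) :
    st (ext (s ++ [v])) s.length = st (ext s) s.length :=
  st_congr fun j hj => ext_append_left hj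

lemma st_append_single_succ (s : List ℕ) (v : ℕ) :
    st (ext (s ++ [v])) (s.length + 1) = st (ext s) s.length + (v.unpair.1 + 1) := by
  rw [st_succ, st_append_single]
  unfold len
  rw [ext_append_single]

lemma Dset_append_single (s : List ℕ) (v : ℕ)
    (h : mu (cl v.unpair.2 : Set Cantor) ≤ (1 / 2) ^ s.length) :
    Dset (ext (s ++ [v])) s.length = (cl v.unpair.2 : Set Cantor) := by
  unfold Dset
  rw [ext_append_single, if_pos h]

lemma mu_Dset (g : R) (i : ℕ) : mu (Dset g i) ≤ (1 / 2) ^ i := by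
  unfold Dset
  split_ifs with h
  · exact h
  · simp

lemma isClopen_Dset (g : R) (i : ℕ) : IsClopen (Dset g i) := by
  unfold Dset
  split_ifs with h
  · exact (cl _).isClopen
  · exact isClopen_empty

/-! ### Membership -/

variable {I : Type} [LinearOrder I] {M : I → Set R} {g : I → R}

lemma c0_pr (x y : R) (n : ℕ) : c0 (pr x y n) = x n := by simp [c0, pr]

lemma snd_pr (x y : R) (n : ℕ) : (pr x y n).unpair.2 = y n := by simp [pr]

lemma fst_pr (x y : R) (n : ℕ) : (pr x y n).unpair.1 = x n := by simp [pr]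

lemma Chain.opB_mem (hC : Chain opF opD M g) {i : I} {γ h c a : R} (hg : γ ∈ M i)
    (hh : h ∈ M i) (hc : c ∈ M i) (ha : a ∈ M i) : opB γ h c a ∈ M i := by
  have h1 := hC.closed i 2 _ (hC.pair i _ _ hg (hC.pair i _ _ hh (hC.pair i _ _ hc ha)))
  have h2 : opF 2 (pr γ (pr h (pr c a))) = opB γ h c a := by
    simp only [opF]
    congr 1
    · funext n; simp [c0, pr]
    · funext n; simp [c1, pr]
    · funext n; simp [c2, pr]
    · funext n; simp [pr]
  rwa [h2] at h1

lemma Chain.one_mem (hC : Chain opF opD M g) (i : I) : (fun _ => 1 : R) ∈ M i := by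
  obtain ⟨x, hx⟩ := hC.ne i
  exact hC.closed i 10 x hx

lemma Chain.cNE_mem (hC : Chain opF opD M g) (i : I) : cNE ∈ M i := by
  obtain ⟨x, hx⟩ := hC.ne i
  exact hC.closed i 11 x hx

lemma Chain.Bs_mem (hC : Chain opF opD M g) {i : I} {a : R} (ha : Bs M g i a) : a ∈ M i := by
  induction ha with
  | one i => exact hC.one_mem i
  | @step j i a h c hji _ hh hc _ _ ih =>
    exact hC.opB_mem (hC.gmem _ _ hji) (hC.mono _ _ hji.le hh) (hC.mono _ _ hji.le hc)
      (hC.mono _ _ hji.le ih)

lemma Bs.mono {i k : I} {a : R} (ha : Bs M g i a) (hik : i ≤ k) : Bs M g k a := by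
  cases ha with
  | one => exact Bs.one k
  | step hji ha hh hc hn hl => exact Bs.step (lt_of_lt_of_le hji hik) ha hh hc hn hl

lemma mem_St_opB {γ h c a : R} {n : ℕ} :
    n ∈ St (opB γ h c a) ↔ n ∈ St a ∧ n ∈ BB γ h c (St a) := by
  unfold opB St
  simp only [mem_setOf_eq]
  split_ifs with h
  · simp [h]
  · simp only [ne_eq, not_true_eq_false, false_iff]; exact h

/-! ### Genericity: the hit lemma -/

lemma Chain.hit (hC : Chain opF opD M g) {j : I} {h c a X : R} (hh : h ∈ M j) (hc : c ∈ M j)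
    (ha : a ∈ M j) (hX : X ∈ M j) (hN : Nice h) (hl : Null c) (hi : (St X).Infinite)
    (hXa : St X ⊆ St a) (m : ℕ) : ∃ n, m ≤ n ∧ n ∈ St X ∧ n ∈ St (opB (g j) h c a) := by
  have hx := hC.pair j _ _ hh (hC.pair j _ _ hc (hC.pair j _ _ ha hX))
  have hgen := hC.generic j (Nat.pair 0 m) _ hx
  have key : ∃ n, pre (g j) n ∈ opD (Nat.pair 0 m) (pr h (pr c (pr a X))) := by
    apply hgen
    intro s
    obtain ⟨N, hN'⟩ := hl s.length
    obtain ⟨n, hn, hlt⟩ := hi.exists_gt (max m (max N (h (st (ext s) s.length))))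
    simp only [max_lt_iff] at hlt
    obtain ⟨h1, h2, h3⟩ := hlt
    refine ⟨s ++ [Nat.pair (h n) (c n)], List.prefix_append _ _, ?_⟩
    simp only [opD, Nat.unpair_pair, mem_setOf_eq]
    refine ⟨s.length, by simp, n, h1.le, ?_, ?_, ?_, ?_⟩
    · have := hXa hn
      simpa [c2, pr, St] using this
    · have := hn
      simpa [pr, St] using this
    · intro m' h4 h5
      rw [c0_pr] at h4 h5
      rw [st_append_single, st_append_single_succ]
      simp only [Nat.unpair_pair]
      constructor
      · by_contra hcon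
        push Not at hcon
        have := hN.1 hcon.le
        omega
      · omega
    · rw [Dset_append_single]
      · simp [c1, pr]
      · simp only [Nat.unpair_pair]
        exact hN' n h2.le
  obtain ⟨k, hk⟩ := key
  simp only [opD, Nat.unpair_pair, mem_setOf_eq, length_pre] at hk
  obtain ⟨i, hik, n, hmn, h1, h2, h3, h4⟩ := hk
  rw [st_ext_pre hik.le, st_ext_pre (Nat.succ_le_of_lt hik)] at h3
  rw [Dset_ext_pre hik] at h4
  have hna : n ∈ St a := by simpa [c2, pr, St] using h1
  have hnX : n ∈ St X := by simpa [pr, St] using h2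
  simp only [c0_pr] at h3
  have h4' : (cl (c n) : Set Cantor) ⊆ Dset (g j) i := by simpa [c1, pr] using h4
  have hidx : ∀ m', m' ≤ h n → n ≤ h m' → idx (g j) m' = i := fun m' a1 a2 =>
    idx_eq (h3 m' a1 a2).1 (h3 m' a1 a2).2
  have hgood : Good (g j) h c (St a) i := ⟨n, hna, hidx, h4'⟩
  refine ⟨n, hmn, hnX, mem_St_opB.2 ⟨hna, fun m' a1 a2 => ?_⟩⟩
  rw [hidx m' a1 a2]
  exact hgood

lemma Chain.Bs_infinite (hC : Chain opF opD M g) {i : I} {a : R} (ha : Bs M g i a) :
    (St a).Infinite := by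
  induction ha with
  | one i => simpa [St] using Set.infinite_univ
  | @step j i a h c hji ha hh hc hn hl ih =>
    refine Set.infinite_of_not_bddAbove ?_
    rintro ⟨b, hb⟩
    obtain ⟨n, hn1, _, hn3⟩ := hC.hit hh hc (hC.Bs_mem ha) (hC.Bs_mem ha) hn hl ih subset_rfl (b + 1)
    have := hb hn3
    omega

end Pool.Agent.Nm65
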