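import Pool.Agent.Nm65.Core

/-!
The ideal of the separation theorem (MP_50671f): directedness, the star property.
-/

namespace Pool.Agent.Nm65

open MeasureTheory Set Cardinal TopologicalSpace

variable {I : Type} [LinearOrder I] {M : I → Set R} {g : I → R}

lemma Good.mono {γ h h' c c' : R} {A A' : Set ℕ} {i : ℕ} (hg : Good γ h' c' A' i)
    (hh : ∀ n, h n ≤ h' n) (hc : ∀ n, (cl (c n) : Set Cantor) ⊆ cl (c' n)) (hA : A' ⊆ A) :
    Good γ h c A i := by
  obtain ⟨n, hn, h1, h2⟩ := hg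
  exact ⟨n, hA hn, fun m a1 a2 => h1 m (a1.trans (hh _)) (a2.trans (hh _)), (hc n).trans h2⟩

lemma opB_mono {γ h h' c c' a a' : R}
    (hh : ∀ n, h n ≤ h' n) (hc : ∀ n, (cl (c n) : Set Cantor) ⊆ cl (c' n)) (hA : St a' ⊆ St a) :
    St (opB γ h' c' a') ⊆ St (opB γ h c a) := by
  intro n hn
  rw [mem_St_opB] at hn ⊢
  refine ⟨hA hn.1, fun m a1 a2 => ?_⟩
  exact (hn.2 m (a1.trans (hh _)) (a2.trans (hh _))).mono hh hc hA

lemma opB_subset {γ h c a : R} : St (opB γ h c a) ⊆ St a := fun _ hn => (mem_St_opB.1 hn).1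

lemma Null.uc {c c' : R} (hc : Null c) (hc' : Null c') : Null (uc (pr c c')) := by
  intro k
  obtain ⟨m, hm⟩ := hc (k + 1)
  obtain ⟨m', hm'⟩ := hc' (k + 1)
  refine ⟨max m m', fun n hn => ?_⟩
  rw [cl_uc]
  have h1 := hm n (le_trans (le_max_left _ _) hn)
  have h2 := hm' n (le_trans (le_max_right _ _) hn)
  calc mu ((cl (c n) ⊔ cl (c' n) : Clopens Cantor) : Set Cantor)
      ≤ mu (cl (c n) : Set Cantor) + mu (cl (c' n) : Set Cantor) := measure_union_le _ _
    _ ≤ (1 / 2) ^ (k + 1) + (1 / 2) ^ (k + 1) := add_le_add h1 h2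
    _ = (1 / 2) ^ k := by
        rw [pow_succ, ← mul_add, ENNReal.add_halves, mul_one]

lemma Nice.max {h h' : R} (H : Nice h) (H' : Nice h') : Nice (fun n => Max.max (h n) (h' n)) :=
  ⟨fun a b hab => max_le_max (H.1 hab) (H'.1 hab), fun n => (H.2 n).trans (le_max_left _ _)⟩

lemma Nice.comp {h h' : R} (H : Nice h) (H' : Nice h') : Nice (fun n => h (h' n)) :=
  ⟨fun a b hab => H.1 (H'.1 hab), fun n => (H'.2 n).trans (H.2 _)⟩

/-- The block end function. -/
def bend (x : R) : R := fun n => st x (idx x n + 1)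

lemma nice_bend (x : R) : Nice (bend x) :=
  ⟨fun a b hab => (st_strictMono x).monotone (Nat.succ_le_succ (idx_mono x hab)),
    fun n => (idx_spec x n).2.le⟩

lemma Chain.bend_mem (hC : Chain opF opD M g) {i : I} {x : R} (hx : x ∈ M i) : bend x ∈ M i :=
  hC.closed i 6 x hx

lemma Chain.max_mem (hC : Chain opF opD M g) {i : I} {x y : R} (hx : x ∈ M i) (hy : y ∈ M i) :
    (fun n => Max.max (x n) (y n) : R) ∈ M i := by
  have := hC.closed i 4 _ (hC.pair i _ _ hx hy)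
  simpa [opF, pr] using this

lemma Chain.comp_mem (hC : Chain opF opD M g) {i : I} {x y : R} (hx : x ∈ M i) (hy : y ∈ M i) :
    (fun n => x (y n) : R) ∈ M i := by
  have := hC.closed i 5 _ (hC.pair i _ _ hx hy)
  simpa [opF, pr] using this

lemma Chain.uc_mem (hC : Chain opF opD M g) {i : I} {x y : R} (hx : x ∈ M i) (hy : y ∈ M i) :
    uc (pr x y) ∈ M i := hC.closed i 3 _ (hC.pair i _ _ hx hy)

theorem Chain.directed [WellFoundedLT I] (hC : Chain opF opD M g) (i : I) :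
    ∀ a b, Bs M g i a → Bs M g i b → ∃ c, Bs M g i c ∧ St c ⊆ St a ∧ St c ⊆ St b := by
  induction i using WellFoundedLT.induction with
  | ind i ih =>
  intro a b ha hb
  cases ha with
  | one =>
    refine ⟨b, hb, ?_, subset_rfl⟩
    intro n _; simp [St]
  | @step j1 _ a1 h1 c1 hj1 ha1 hh1 hc1 hn1 hl1 =>
  cases hb with
  | one =>
    refine ⟨_, Bs.step hj1 ha1 hh1 hc1 hn1 hl1, subset_rfl, ?_⟩
    intro n _; simp [St]
  | @step j2 _ b1 h2 c2 hj2 hb1 hh2 hc2 hn2 hl2 =>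
  rcases lt_trichotomy j1 j2 with hlt | heq | hgt
  · obtain ⟨d, hd, hd1, hd2⟩ := ih j2 hj2 _ _ (Bs.step hlt ha1 hh1 hc1 hn1 hl1) hb1
    refine ⟨opB (g j2) h2 c2 d, Bs.step hj2 hd hh2 hc2 hn2 hl2, opB_subset.trans hd1, ?_⟩
    exact opB_mono (fun _ => le_rfl) (fun _ => subset_rfl) hd2
  · subst heq
    obtain ⟨d, hd, hd1, hd2⟩ := ih j1 hj1 _ _ ha1 hb1
    refine ⟨opB (g j1) (fun n => Max.max (h1 n) (h2 n)) (uc (pr c1 c2)) d,
      Bs.step hj1 hd (hC.max_mem hh1 hh2) (hC.uc_mem hc1 hc2) (hn1.max hn2) (hl1.uc hl2), ?_, ?_⟩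
    · refine opB_mono (fun _ => le_max_left _ _) (fun n => ?_) hd1
      rw [cl_uc]; exact subset_union_left
    · refine opB_mono (fun _ => le_max_right _ _) (fun n => ?_) hd2
      rw [cl_uc]; exact subset_union_right
  · obtain ⟨d, hd, hd1, hd2⟩ := ih j1 hj1 _ _ ha1 (Bs.step hgt hb1 hh2 hc2 hn2 hl2)
    refine ⟨opB (g j1) h1 c1 d, Bs.step hj1 hd hh1 hc1 hn1 hl1, ?_, opB_subset.trans hd2⟩
    exact opB_mono (fun _ => le_rfl) (fun _ => subset_rfl) hd1

/-- The star property. -/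
theorem Chain.star (hC : Chain opF opD M g) {i : I} {a : R} (ha : Bs M g i a) :
    ∀ (α : I) (c : R), c ∈ M α → Null c → ∀ k, i ≤ k → α < k → ∃ a', Bs M g k a' ∧ St a' ⊆ St a ∧
      ∀ n ∈ St a', ∃ n' ∈ St a, idx (g α) n' = idx (g α) n ∧
        (cl (c n') : Set Cantor) ⊆ Dset (g α) (idx (g α) n) := by
  -- the basic step: the level of a is at most α
  have basic : ∀ {a : R} (α : I) (c : R), Bs M g α a → c ∈ M α → Null c → ∀ k, α < k →
      ∃ a', Bs M g k a' ∧ St a' ⊆ St a ∧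
      ∀ n ∈ St a', ∃ n' ∈ St a, idx (g α) n' = idx (g α) n ∧
        (cl (c n') : Set Cantor) ⊆ Dset (g α) (idx (g α) n) := by
    intro a α c ha hc hl k hk
    obtain ⟨x, hx⟩ := hC.ne α
    refine ⟨opB (g α) (bend x) c a, Bs.step hk ha (hC.bend_mem hx) hc (nice_bend x) hl,
      opB_subset, ?_⟩
    intro n hn
    have h1 := (mem_St_opB.1 hn).2 n ((nice_bend x).2 n) ((nice_bend x).2 n)
    obtain ⟨n', hn', h2, h3⟩ := h1
    exact ⟨n', hn', h2 n' ((nice_bend x).2 _) ((nice_bend x).2 _), h3⟩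
  induction ha with
  | one i =>
    intro α c hc hl k _ hk
    exact basic α c (Bs.one α) hc hl k hk
  | @step j i a1 h1 c1 hji ha1 hh1 hc1 hn1 hl1 ih =>
    intro α c hc hl k hik hk
    have hjk : j < k := lt_of_lt_of_le hji hik
    rcases lt_trichotomy j α with hlt | heq | hgt
    · exact basic α c (Bs.step hlt ha1 hh1 hc1 hn1 hl1) hc hl k hk
    · subst heq
      refine ⟨opB (g j) h1 (uc (pr c1 c)) a1, Bs.step hjk ha1 hh1 (hC.uc_mem hc1 hc) hn1
        (hl1.uc hl), ?_, ?_⟩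
      · refine opB_mono (fun _ => le_rfl) (fun n => ?_) subset_rfl
        rw [cl_uc]; exact subset_union_left
      · intro n hn
        obtain ⟨n', hn', h2, h3⟩ := (mem_St_opB.1 hn).2 n (hn1.2 n) (hn1.2 n)
        rw [cl_uc] at h3
        have h4 : (cl (c1 n') : Set Cantor) ⊆ Dset (g j) (idx (g j) n) :=
          subset_union_left.trans h3
        have h5 : (cl (c n') : Set Cantor) ⊆ Dset (g j) (idx (g j) n) :=
          subset_union_right.trans h3
        refine ⟨n', mem_St_opB.2 ⟨hn', fun m a1' a2' => ?_⟩, h2 n' (hn1.2 _) (hn1.2 _), h5⟩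
        rw [h2 m a1' a2']
        exact ⟨n', hn', h2, h4⟩
    · obtain ⟨d, hd, hd1, hd2⟩ := ih α c hc hl j le_rfl hgt
      have hb : bend (g α) ∈ M j := hC.bend_mem (hC.gmem _ _ hgt)
      set H : R := fun n => Max.max (h1 n) (bend (g α) n) with hH
      have hHM : H ∈ M j := hC.max_mem hh1 hb
      have hHn : Nice H := hn1.max (nice_bend _)
      have hle : ∀ n, h1 n ≤ H (H n) := fun n => (le_max_left _ _).trans (hHn.2 _)
      refine ⟨opB (g j) (fun n => H (H n)) c1 d, Bs.step hjk hd (hC.comp_mem hHM hHM) hc1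
        (hHn.comp hHn) hl1, opB_mono hle (fun _ => subset_rfl) hd1, ?_⟩
      intro n hn
      rw [mem_St_opB] at hn
      obtain ⟨n', hn', h2, h3⟩ := hd2 n hn.1
      refine ⟨n', mem_St_opB.2 ⟨hn', fun m a1' a2' => ?_⟩, h2, h3⟩
      have e1 : n' ≤ H n := by
        have := (idx_spec (g α) n').2
        rw [h2] at this
        exact this.le.trans (le_max_right _ _)
      have e2 : n ≤ H n' := by
        have := (idx_spec (g α) n).2
        rw [← h2] at this
        exact this.le.trans (le_max_right _ _)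
      have e3 : m ≤ H (H n) := a1'.trans ((le_max_left _ _).trans (hHn.1 e1))
      have e4 : n ≤ H (H m) := e2.trans (hHn.1 (a2'.trans (le_max_left _ _)))
      exact (hn.2 m e3 e4).mono hle (fun _ => subset_rfl) hd1

theorem Chain.isIdeal [WellFoundedLT I] [Nonempty I] (hC : Chain opF opD M g) :
    IsIdeal (JJ M g) := by
  refine ⟨?_, ?_, ?_, ?_⟩
  · rintro A ⟨i, a, ha, N, hN⟩ B hB
    exact ⟨i, a, ha, N, fun n h1 h2 h3 => hN n h1 h2 (hB h3)⟩
  · rintro A ⟨i, a, ha, N, hN⟩ B ⟨i', a', ha', N', hN'⟩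
    obtain ⟨d, hd, hd1, hd2⟩ := hC.directed (max i i') a a' (ha.mono (le_max_left _ _))
      (ha'.mono (le_max_right _ _))
    refine ⟨_, d, hd, max N N', fun n h1 h2 h3 => ?_⟩
    rcases h3 with h3 | h3
    · exact hN n ((le_max_left _ _).trans h1) (hd1 h2) h3
    · exact hN' n ((le_max_right _ _).trans h1) (hd2 h2) h3
  · intro A hA
    obtain ⟨b, hb⟩ := hA.bddAbove
    obtain ⟨i⟩ := ‹Nonempty I›
    refine ⟨i, _, Bs.one i, b + 1, fun n h1 _ h3 => ?_⟩
    have := hb h3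
    omega
  · rintro ⟨i, a, ha, N, hN⟩
    obtain ⟨n, hn, hlt⟩ := (hC.Bs_infinite ha).exists_gt N
    exact hN n hlt.le hn (mem_univ _)

/-- The interval property behind non-meagerness. -/
theorem Chain.intervals (hC : Chain opF opD M g) (h : R) :
    ∃ X ∈ JJ M g, ∀ m, ∃ n, m ≤ n ∧ ∀ k, n ≤ k → k ≤ h n → k ∈ X := by
  obtain ⟨i, hi⟩ := hC.cover h
  obtain ⟨j, hj⟩ := hC.nomax i
  obtain ⟨x, hx⟩ := hC.ne i
  refine ⟨(St (opB (g i) (bend x) cNE (fun _ => 1)))ᶜ, ⟨j, _, Bs.step hj (Bs.one i)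
    (hC.bend_mem hx) (hC.cNE_mem i) (nice_bend x) null_cNE, 0, fun n _ h1 h2 => h2 h1⟩, ?_⟩
  intro m
  have hgen := hC.generic i (Nat.pair 1 m) h hi
  have key : ∃ n, pre (g i) n ∈ opD (Nat.pair 1 m) h := by
    apply hgen
    intro s
    obtain ⟨e, he⟩ := cl_surj ⊥
    refine ⟨s ++ [Nat.pair (h (max m (st (ext s) s.length))) e], List.prefix_append _ _, ?_⟩
    simp only [opD, Nat.unpair_pair]
    refine ⟨s.length, by simp, max m (st (ext s) s.length), le_max_left _ _, ?_, ?_, ?_⟩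
    · rw [st_append_single]; exact le_max_right _ _
    · rw [st_append_single_succ]; simp only [Nat.unpair_pair]; omega
    · rw [Dset_append_single]
      · simp [he]
      · simp [he]
  obtain ⟨k, hk⟩ := key
  simp only [opD, Nat.unpair_pair] at hk
  obtain ⟨b, hbk, n, hmn, h1, h2, h3⟩ := hk
  rw [length_pre] at hbk
  rw [st_ext_pre hbk.le] at h1
  rw [st_ext_pre (Nat.succ_le_of_lt hbk)] at h2
  rw [Dset_ext_pre hbk] at h3
  refine ⟨n, hmn, fun k' a1 a2 => ?_⟩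
  intro hk'
  obtain ⟨n', _, h5, h6⟩ := (mem_St_opB.1 hk').2 k' ((nice_bend x).2 _) ((nice_bend x).2 _)
  rw [idx_eq (h1.trans a1) (lt_of_le_of_lt a2 h2), h3] at h6
  obtain ⟨y, hy⟩ := cNE_nonempty n'
  exact h6 hy

end Pool.Agent.Nm65
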