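import Pool.Agent.Nm65.Defs

/-!
Core combinatorial definitions for the separation theorem (MP_50671f).
-/

namespace Pool.Agent.Nm65

open MeasureTheory Set Cardinal TopologicalSpace

/-- Reals. -/
abbrev R : Type := ℕ → ℕ

instance : Countable (Clopens Cantor) :=
  (TopologicalSpace.Clopens.countable_iff_secondCountable (X := Cantor)).2 inferInstance

lemma exists_cl : ∃ f : ℕ → Clopens Cantor, Function.Surjective f := exists_surjective_nat _

/-- An enumeration of all clopen sets. -/
noncomputable def cl : ℕ → Clopens Cantor := exists_cl.choose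

lemma cl_surj : Function.Surjective cl := exists_cl.choose_spec

/-- Pairing of reals. -/
def pr (x y : R) : R := fun n => Nat.pair (x n) (y n)

/-- The set coded by a real. -/
def St (a : R) : Set ℕ := {n | a n ≠ 0}

/-- Length of the i-th block of g. -/
def len (g : R) (i : ℕ) : ℕ := (g i).unpair.1 + 1

/-- Start of the i-th block. -/
def st (g : R) (i : ℕ) : ℕ := ∑ j ∈ Finset.range i, len g j

open Classical in
/-- The clopen set attached to the i-th block (empty if too large). -/
noncomputable def Dset (g : R) (i : ℕ) : Set Cantor :=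
  if mu (cl (g i).unpair.2 : Set Cantor) ≤ (1 / 2) ^ i then (cl (g i).unpair.2 : Set Cantor) else ∅

/-- The index of the block containing n. -/
def idx (g : R) (n : ℕ) : ℕ := Nat.findGreatest (fun i => st g i ≤ n) n

/-- Admissible neighbourhood functions. -/
def Nice (h : R) : Prop := Monotone h ∧ ∀ n, n ≤ h n

/-- The measures of the coded clopen sets tend to zero. -/
def Null (c : R) : Prop := ∀ k : ℕ, ∃ m, ∀ n, m ≤ n → mu (cl (c n) : Set Cantor) ≤ (1 / 2) ^ k

/-- The block i of g captures a point of A. -/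
def Good (g h c : R) (A : Set ℕ) (i : ℕ) : Prop :=
  ∃ n ∈ A, (∀ m, m ≤ h n → n ≤ h m → idx g m = i) ∧ (cl (c n) : Set Cantor) ⊆ Dset g i

/-- `n` all of whose neighbours lie in good blocks. -/
def BB (g h c : R) (A : Set ℕ) : Set ℕ :=
  {n | ∀ m, m ≤ h n → n ≤ h m → Good g h c A (idx g m)}

open Classical in
/-- The basic operation: intersect the set coded by a with BB. -/
noncomputable def opB (g h c a : R) : R := fun n => if a n ≠ 0 ∧ n ∈ BB g h c (St a) then 1 else 0

variable {I : Type} [LinearOrder I]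

/-- Base sets of the dual filter: those of levels below i. -/
inductive Bs (M : I → Set R) (g : I → R) : I → R → Prop
  | one (i : I) : Bs M g i (fun _ => 1)
  | step {j i : I} {a h c : R} : j < i → Bs M g j a → h ∈ M j → c ∈ M j → Nice h → Null c →
      Bs M g i (opB (g j) h c a)

/-- The ideal. -/
def JJ (M : I → Set R) (g : I → R) : Set (Set ℕ) :=
  {X | ∃ i a, Bs M g i a ∧ ∃ N, ∀ n, N ≤ n → n ∈ St a → n ∉ X}

/-- Small slaloms. -/
def Small (S : Set (ℕ × ℕ)) : Prop := ∃ m, ∀ l, m ≤ l → ∃ u, u < 2 ^ l ∧ (l, u) ∉ S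

/-- e is captured by S on the set coded by a. -/
def Capt (S : Set (ℕ × ℕ)) (e a : R) : Prop := ∃ N, ∀ l, N ≤ l → l ∈ St a → (l, e l % 2 ^ l) ∈ S

/-- Prefix of a real, as a list. -/
def pre (x : R) (k : ℕ) : List ℕ := (List.range k).map x

/-- Extension of a list by zeros. -/
def ext (s : List ℕ) : R := fun n => s.getD n 0

/-- g meets the dense set D (of finite sequences) if D is dense. -/
def Meets (g : R) (D : Set (List ℕ)) : Prop :=
  (∀ s : List ℕ, ∃ t : List ℕ, s <+: t ∧ t ∈ D) → ∃ n, pre g n ∈ D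

/-- The set of codes of prefixes of x. -/
def Pre (x : R) : Set ℕ := {n | ∃ k, n = Encodable.encode (pre x k)}

open Classical in
/-- Characteristic function. -/
noncomputable def ch (z : Set ℕ) : R := fun n => if n ∈ z then 1 else 0

/-- A chain of families of reals with Cohen reals over them. `F` are the closure
operations, `D` the schemes of dense sets. -/
structure Chain (F : ℕ → R → R) (D : ℕ → R → Set (List ℕ)) (M : I → Set R) (g : I → R) :
    Prop where
  ne : ∀ i, (M i).Nonempty
  nomax : ∀ i : I, ∃ j, i < j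
  mono : ∀ i j, i ≤ j → M i ⊆ M j
  pair : ∀ i x y, x ∈ M i → y ∈ M i → pr x y ∈ M i
  closed : ∀ i k x, x ∈ M i → F k x ∈ M i
  cover : ∀ x, ∃ i, x ∈ M i
  gmem : ∀ i j, i < j → g i ∈ M j
  generic : ∀ i k x, x ∈ M i → Meets (g i) (D k x)
  limit : ∀ i, (∃ j, j < i) → (∀ j, j < i → ∃ k, j < k ∧ k < i) → ∀ x ∈ M i, ∃ j, j < i ∧ x ∈ M j
  embed : ∀ i, ∀ T : Set ℕ, ∃ Z : Set (Set ℕ), Z.Countable ∧
    (∀ z ∈ Z, z ⊆ T ∧ ch z ∈ M i) ∧ ∀ x ∈ M i, Pre x ⊆ T → ∃ z ∈ Z, Pre x ⊆ z

end Pool.Agent.Nm65
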