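import Pool.Agent.Nm65.CoreDefs

/-!
The cover half of the separation theorem (MP_50671f): the null sets `NJ J (cE e)`, `e ∈ E`,
cover the Cantor space.
-/

namespace Pool.Agent.Nm65

open MeasureTheory Set Cardinal Filter

/-! ### General facts on ideals -/

lemma NJ_subset_infinite {J : Set (Set ℕ)} (hJ : IsIdeal J) (c : ℕ → Set Cantor) :
    NJ J c ⊆ {x | {n | x ∈ c n}.Infinite} := fun _ hx hfin =>
  hx (hJ.2.2.1 _ hfin)

lemma univ_notMem_calN {J : Set (Set ℕ)} (hJ : IsIdeal J) : (Set.univ : Set Cantor) ∉ calN J := by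
  rintro ⟨c, hc, hsub⟩
  have h1 : mu (Set.univ : Set Cantor) ≤ 0 := by
    rw [← hc.2]
    exact measure_mono (hsub.trans (NJ_subset_infinite hJ c))
  rw [measure_univ] at h1
  exact absurd h1 (by simp)

lemma cov_le_of_cover {X : Type} {I F : Set (Set X)} (hF : F ⊆ I) (hU : ⋃₀ F = Set.univ) :
    cov I ≤ #F := csInf_le' ⟨F, hF, rfl, hU⟩

lemma add_le_of_cover {X : Type} {I F : Set (Set X)} (hF : F ⊆ I) (hU : ⋃₀ F = Set.univ)
    (hI : Set.univ ∉ I) : add I ≤ #F := csInf_le' ⟨F, hF, rfl, by rwa [hU]⟩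

/-! ### Omega-bar from summable measures -/

lemma omegaBar_of_le {c : ℕ → Set Cantor} (h1 : ∀ n, IsClopen (c n))
    (h2 : ∀ n, mu (c n) ≤ (1 / 2) ^ n) : OmegaBar c := by
  refine ⟨h1, ?_⟩
  have h3 : ∑' i, mu {x | x ∈ c i} ≠ ⊤ := by
    refine ne_top_of_le_ne_top ?_ (ENNReal.tsum_le_tsum fun i => h2 i)
    have : (∑' n : ℕ, ((1 : ENNReal) / 2) ^ n) = 2 := by
      rw [ENNReal.tsum_geometric]; norm_num
    rw [this]
    exact ENNReal.ofNat_ne_top
  have h4 := measure_setOfPred_frequently_eq_zero h3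
  have h5 : {x : Cantor | {n | x ∈ c n}.Infinite} = {x | ∃ᶠ n in atTop, x ∈ c n} := by
    ext x
    exact Nat.frequently_atTop_iff_infinite.symm
  rw [h5]
  exact h4

/-! ### The sets -/

/-- Start of the l-th block of length l. -/
def tri (l : ℕ) : ℕ := ∑ j ∈ Finset.range l, j

/-- The l-th block of x is given by the low bits of e l. -/
def cE (e : R) (l : ℕ) : Set Cantor := {x | ∀ i < l, x (tri l + i) = (e l).testBit i}

lemma cE_eq_cylF (e : R) (l : ℕ) : cE e l =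
    cylF ((Finset.range l).map (addLeftEmbedding (tri l))) (fun n => (e l).testBit (n - tri l)) := by
  ext x
  simp only [cE, cylF, mem_ofPred_eq, Finset.mem_map, Finset.mem_range, addLeftEmbedding_apply,
    forall_exists_index, and_imp, forall_apply_eq_imp_iff₂, add_tsub_cancel_left]

lemma isClopen_cE (e : R) (l : ℕ) : IsClopen (cE e l) := by
  rw [cE_eq_cylF]; exact isClopen_cylF _ _

lemma mu_cE (e : R) (l : ℕ) : mu (cE e l) = (1 / 2) ^ l := by
  rw [cE_eq_cylF, mu_cylF, Finset.card_map, Finset.card_range]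

lemma omegaBar_cE (e : R) : OmegaBar (cE e) :=
  omegaBar_of_le (isClopen_cE e) fun l => (mu_cE e l).le

/-- The slalom of all values different from the block of x. -/
def SX (x : Cantor) : Set (ℕ × ℕ) := {p | ∃ i < p.1, x (tri p.1 + i) ≠ p.2.testBit i}

lemma small_SX (x : Cantor) : Small (SX x) := by
  refine ⟨0, fun l _ => ⟨Nat.ofBits fun i : Fin l => x (tri l + i), Nat.ofBits_lt_two_pow _, ?_⟩⟩
  rintro ⟨i, hi, hne⟩
  apply hne
  dsimp only at hi ⊢
  rw [Nat.testBit_ofBits_lt _ _ hi]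

lemma mem_SX_iff (x : Cantor) (e : R) (l : ℕ) : (l, e l % 2 ^ l) ∈ SX x ↔ x ∉ cE e l := by
  simp only [SX, cE, mem_ofPred_eq, not_forall, exists_prop]
  refine exists_congr fun i => and_congr_right fun hi => ?_
  rw [Nat.testBit_mod_two_pow]
  simp [hi]

variable {I : Type} [LinearOrder I] {M : I → Set R} {g : I → R}

/-- If x is not in the null set of e then e is captured by the slalom of x. -/
lemma capt_of_notMem {x : Cantor} {e : R} (h : x ∉ NJ (JJ M g) (cE e)) :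
    ∃ i a, Bs M g i a ∧ Capt (SX x) e a := by
  have h1 : {n | x ∈ cE e n} ∈ JJ M g := by
    by_contra h2
    exact h h2
  obtain ⟨i, a, ha, N, hN⟩ := h1
  exact ⟨i, a, ha, N, fun l h2 h3 => (mem_SX_iff x e l).2 (hN l h2 h3)⟩

/-- The covering family. -/
theorem cover_of_claim (E : Set R) (hE : ¬ IsMeagre E)
    (hclaim : ∀ S, Small S → IsMeagre {e | e ∈ E ∧ ∃ i a, Bs M g i a ∧ Capt S e a}) :
    ⋃₀ ((fun e => NJ (JJ M g) (cE e)) '' E) = Set.univ := by
  refine Set.eq_univ_of_forall fun x => ?_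
  by_contra hx
  apply hE
  have hsub : E ⊆ {e | e ∈ E ∧ ∃ i a, Bs M g i a ∧ Capt (SX x) e a} := fun e he =>
    ⟨he, capt_of_notMem fun h => hx ⟨_, ⟨e, he, rfl⟩, h⟩⟩
  exact (hclaim (SX x) (small_SX x)).mono hsub

lemma family_subset (J : Set (Set ℕ)) (E : Set R) : ((fun e => NJ J (cE e)) '' E) ⊆ calN J := by
  rintro _ ⟨e, _, rfl⟩
  exact ⟨cE e, omegaBar_cE e, subset_rfl⟩

/-- `cov(N_J) ≤ #E`. -/
theorem cov_le (E : Set R) (hE : ¬ IsMeagre E)
    (hclaim : ∀ S, Small S → IsMeagre {e | e ∈ E ∧ ∃ i a, Bs M g i a ∧ Capt S e a}) :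
    cov (calN (JJ M g)) ≤ #E :=
  (cov_le_of_cover (family_subset _ E) (cover_of_claim E hE hclaim)).trans mk_image_le

/-- `add(N_J) ≤ #E`. -/
theorem add_le (hJ : IsIdeal (JJ M g)) (E : Set R) (hE : ¬ IsMeagre E)
    (hclaim : ∀ S, Small S → IsMeagre {e | e ∈ E ∧ ∃ i a, Bs M g i a ∧ Capt S e a}) :
    add (calN (JJ M g)) ≤ #E :=
  (add_le_of_cover (family_subset _ E) (cover_of_claim E hE hclaim)
    (univ_notMem_calN hJ)).trans mk_image_le

/-- The uniformity of the meager ideal is attained. -/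
lemma exists_nonmeager : ∃ E : Set R, ¬ IsMeagre E ∧ #E = non Mgr := by
  have hne : {κ : Cardinal | ∃ A : Set R, A ∉ Mgr ∧ #A = κ}.Nonempty := by
    refine ⟨_, Set.univ, ?_, rfl⟩
    intro h
    exact not_isMeagre_of_isOpen isOpen_univ univ_nonempty h
  obtain ⟨A, hA, hA2⟩ := csInf_mem hne
  exact ⟨A, hA, hA2⟩

/-- `add(N_J) ≤ cov(N_J)`. -/
lemma add_le_cov {X : Type} {I : Set (Set X)} (hI : Set.univ ∉ I)
    (hc : ∃ F : Set (Set X), F ⊆ I ∧ ⋃₀ F = Set.univ) : add I ≤ cov I := by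
  obtain ⟨F0, hF0, hU0⟩ := hc
  refine le_csInf ⟨#F0, F0, hF0, rfl, hU0⟩ ?_
  rintro κ ⟨F, hF, rfl, hU⟩
  exact add_le_of_cover hF hU hI

end Pool.Agent.Nm65
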