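import Mathlib

/-!
Definitions for MP_50671f: null modulo an ideal.
-/

namespace Pool.Agent.Nm65

open MeasureTheory Set Cardinal

/-- The Cantor space. -/
abbrev Cantor : Type := ℕ → Bool

/-- The product (Lebesgue) measure on the Cantor space. -/
noncomputable def mu : Measure Cantor :=
  Measure.infinitePi (fun _ : ℕ => (PMF.uniformOfFintype Bool).toMeasure)

instance : IsProbabilityMeasure mu := by unfold mu; infer_instance

/-- Ideals on the set of natural numbers, containing all finite sets. -/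
def IsIdeal (J : Set (Set ℕ)) : Prop :=
  (∀ A ∈ J, ∀ B, B ⊆ A → B ∈ J) ∧ (∀ A ∈ J, ∀ B ∈ J, A ∪ B ∈ J) ∧
    (∀ A : Set ℕ, A.Finite → A ∈ J) ∧ Set.univ ∉ J

/-- The ideal is not meager as a subset of the Cantor space. -/
def NonMeager (J : Set (Set ℕ)) : Prop :=
  ¬ IsMeagre {x : Cantor | {n | x n = true} ∈ J}

/-- Sequences of clopen sets whose limsup is null. -/
def OmegaBar (c : ℕ → Set Cantor) : Prop :=
  (∀ n, IsClopen (c n)) ∧ mu {x | {n | x ∈ c n}.Infinite} = 0

/-- `N_J(c)`. -/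
def NJ (J : Set (Set ℕ)) (c : ℕ → Set Cantor) : Set Cantor := {x | {n | x ∈ c n} ∉ J}

/-- `N*_J(c)`. -/
def NsJ (J : Set (Set ℕ)) (c : ℕ → Set Cantor) : Set Cantor := {x | {n | x ∉ c n} ∈ J}

/-- The ideal `N_J`. -/
def calN (J : Set (Set ℕ)) : Set (Set Cantor) := {X | ∃ c, OmegaBar c ∧ X ⊆ NJ J c}

/-- The ideal `N*_J`. -/
def calNs (J : Set (Set ℕ)) : Set (Set Cantor) := {X | ∃ c, OmegaBar c ∧ X ⊆ NsJ J c}

/-- The additivity of a family of sets. -/
noncomputable def add {X : Type} (I : Set (Set X)) : Cardinal :=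
  sInf {κ : Cardinal | ∃ F : Set (Set X), F ⊆ I ∧ #F = κ ∧ ⋃₀ F ∉ I}

/-- The cofinality of a family of sets. -/
noncomputable def cof {X : Type} (I : Set (Set X)) : Cardinal :=
  sInf {κ : Cardinal | ∃ B : Set (Set X), B ⊆ I ∧ #B = κ ∧ ∀ A ∈ I, ∃ C ∈ B, A ⊆ C}

/-- The covering number. -/
noncomputable def cov {X : Type} (I : Set (Set X)) : Cardinal :=
  sInf {κ : Cardinal | ∃ F : Set (Set X), F ⊆ I ∧ #F = κ ∧ ⋃₀ F = Set.univ}

/-- The uniformity. -/
noncomputable def non {X : Type} (I : Set (Set X)) : Cardinal :=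
  sInf {κ : Cardinal | ∃ A : Set X, A ∉ I ∧ #A = κ}

/-- The ideal of meager subsets of the Baire space. -/
def Mgr : Set (Set (ℕ → ℕ)) := {X | IsMeagre X}

/-- The weak Freese-Nation property of `P(ω)`. -/
def WFN : Prop :=
  ∃ f : Set ℕ → Set (Set ℕ), (∀ a, (f a).Countable) ∧
    ∀ a b, a ⊆ b → ∃ c, c ∈ f a ∧ c ∈ f b ∧ a ⊆ c ∧ c ⊆ b

/-! ### Measure facts -/

/-- Cylinder. -/
def cylF (F : Finset ℕ) (s : ℕ → Bool) : Set Cantor := {x | ∀ n ∈ F, x n = s n}

lemma isClopen_cylF (F : Finset ℕ) (s : ℕ → Bool) : IsClopen (cylF F s) := by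
  have : cylF F s = ⋂ n ∈ F, {x : Cantor | x n = s n} := by
    ext x; simp [cylF]
  rw [this]
  refine isClopen_biInter_finset fun n _ => ?_
  exact (isClopen_discrete {s n}).preimage (continuous_apply n)

lemma mu_cylF (F : Finset ℕ) (s : ℕ → Bool) : mu (cylF F s) = (1 / 2) ^ F.card := by
  have h : cylF F s = Set.pi (F : Set ℕ) (fun n => {s n}) := by
    ext x; simp [cylF, Set.pi]
  rw [h, mu, Measure.infinitePi_pi _ (fun i _ => MeasurableSet.singleton _)]
  simp

lemma measurableSet_of_isClopen {s : Set Cantor} (h : IsClopen s) : MeasurableSet s :=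
  h.isOpen.measurableSet

end Pool.Agent.Nm65
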