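import Pool.Agent.Nm65.Ops

/-!
The successor lemma of the separation theorem (MP_50671f).
-/

namespace Pool.Agent.Nm65.X1

open MeasureTheory Set Cardinal TopologicalSpace

/-! ### Lists -/

lemma ext_pfx {t t' : List ℕ} (h : t <+: t') {n : ℕ} (hn : n < t.length) :
    ext t' n = ext t n := by
  obtain ⟨r, rfl⟩ := h
  simp only [ext, List.getD_eq_getElem?_getD]
  rw [List.getElem?_append_left hn]

lemma length_pre' (x : R) (k : ℕ) : (pre x k).length = k := by simp [pre]

lemma ext_pre' (x : R) {k n : ℕ} (h : n < k) : ext (pre x k) n = x n := by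
  simp only [ext, pre, List.getD_eq_getElem?_getD, List.getElem?_map]
  rw [List.getElem?_range h]
  rfl

lemma pre_pfx' (x : R) {k k' : ℕ} (h : k ≤ k') : pre x k <+: pre x k' := by
  obtain ⟨d, rfl⟩ := Nat.exists_eq_add_of_le h
  refine ⟨(List.range d).map fun i => x (k + i), ?_⟩
  simp only [pre]
  rw [List.range_add, List.map_append, List.map_map]
  rfl

lemma st_congr' {g g' : R} {i : ℕ} (h : ∀ j < i, g j = g' j) : st g i = st g' i := by
  unfold st len
  refine Finset.sum_congr rfl fun j hj => ?_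
  rw [h j (Finset.mem_range.1 hj)]

lemma Dset_congr' {g g' : R} {i : ℕ} (h : g i = g' i) : Dset g i = Dset g' i := by
  unfold Dset
  rw [h]

lemma st_succ' (g : R) (i : ℕ) : st g (i + 1) = st g i + len g i := by
  unfold st
  rw [Finset.sum_range_succ]

lemma st_lt_succ' (g : R) (i : ℕ) : st g i < st g (i + 1) := by
  rw [st_succ']; unfold len; omega

lemma st_strictMono' (g : R) : StrictMono (st g) := strictMono_nat_of_lt_succ (st_lt_succ' g)

lemma idx_eq' {g : R} {i m : ℕ} (h1 : st g i ≤ m) (h2 : m < st g (i + 1)) : idx g m = i := by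
  have hi : i ≤ m := le_trans ((st_strictMono' g).id_le i) h1
  have hle : i ≤ idx g m := Nat.le_findGreatest hi h1
  have hs : st g (idx g m) ≤ m := by
    unfold idx
    exact Nat.findGreatest_spec (P := fun i => st g i ≤ m) hi h1
  by_contra hne
  have hlt : i + 1 ≤ idx g m := by omega
  have := (st_strictMono' g).monotone hlt
  omega

/-! ### Soundness of certificates -/

/-- The tuple real. -/
def tup (e a h c w v : R) : R := pr e (pr a (pr h (pr c (pr w v))))

lemma c0_tup (e a h c w v : R) (n : ℕ) : Nm65.c0 (tup e a h c w v n) = e n := by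
  simp [Nm65.c0, tup, pr]
lemma c1_tup (e a h c w v : R) (n : ℕ) : Nm65.c1 (tup e a h c w v n) = a n := by
  simp [Nm65.c1, tup, pr]
lemma c2_tup (e a h c w v : R) (n : ℕ) : Nm65.c2 (tup e a h c w v n) = h n := by
  simp [Nm65.c2, tup, pr]
lemma c3_tup (e a h c w v : R) (n : ℕ) : Nm65.c3 (tup e a h c w v n) = c n := by
  simp [Nm65.c3, tup, pr]
lemma c4_tup (e a h c w v : R) (n : ℕ) : Nm65.c4 (tup e a h c w v n) = w n := by
  simp [Nm65.c4, tup, pr]
lemma c5_tup (e a h c w v : R) (n : ℕ) : Nm65.c5 (tup e a h c w v n) = v n := by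
  simp [Nm65.c5, tup, pr]

lemma cert_sound {g e a h c w v : R} {i k l : ℕ}
    (hc : Cert g i (pre (tup e a h c w v) k) l) : l ∈ St (opB g h c a) := by
  obtain ⟨hl, h1, h2, h3, h4, n, hn, h5, h6, h7, h8⟩ := hc
  rw [length_pre'] at hl hn
  rw [ext_pre' _ hl, c2_tup] at h2
  rw [ext_pre' _ hl, c1_tup] at h4
  rw [ext_pre' _ hn, c1_tup] at h5
  rw [ext_pre' _ hn, c2_tup] at h6
  rw [ext_pre' _ hn, c3_tup] at h8
  have h3' : ∀ m < st g i, h m < l := by
    intro m hm
    have := h3 m hm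
    rwa [ext_pre' _ (by omega), c2_tup] at this
  have h7' : ∀ m < st g i, h m < n := by
    intro m hm
    have := h7 m hm
    rwa [ext_pre' _ (by omega), c2_tup] at this
  have hB : l ∈ BB g h c (St a) := by
    intro m hm1 hm2
    have hmi : st g i ≤ m := by
      by_contra hlt
      have := h3' m (by omega)
      omega
    rw [idx_eq' hmi (by omega)]
    refine ⟨n, h5, fun m' hm1' hm2' => ?_, h8⟩
    have hmi' : st g i ≤ m' := by
      by_contra hlt
      have := h7' m' (by omega)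
      omega
    exact idx_eq' hmi' (by omega)
  show opB g h c a l ≠ 0
  unfold opB
  rw [if_pos ⟨h4, hB⟩]
  exact one_ne_zero

/-! ### Legitimate approximations and pruning -/

/-- Legitimate finite approximations. -/
def Legit (t : List ℕ) : Prop :=
  (∀ k n, k < t.length → n < t.length → Nm65.c4 (ext t k) ≤ n →
    mu (cl (Nm65.c3 (ext t n)) : Set Cantor) ≤ (1 / 2) ^ k) ∧
  (∀ m, m < t.length → m ≤ Nm65.c5 (ext t m) ∧
    (Nm65.c5 (ext t m) < t.length → Nm65.c1 (ext t (Nm65.c5 (ext t m))) ≠ 0))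

/-- The approximations without a violation. -/
def TT (G : R) (S : Set (ℕ × ℕ)) (N : ℕ) : Set ℕ :=
  {p | ∃ t : List ℕ, p = Encodable.encode t ∧ Legit t ∧
    ∀ i l, N ≤ l → Cert G i t l → (l, Nm65.c0 (ext t l) % 2 ^ l) ∈ S}

/-- The nodes with arbitrarily long extensions. -/
def prune (z : Set (List ℕ)) : Set (List ℕ) :=
  {t | t ∈ z ∧ ∀ L, ∃ t' ∈ z, t <+: t' ∧ L ≤ t'.length}

/-- The slalom of a node. -/
def Snode (z : Set (List ℕ)) (t0 : List ℕ) : Set (ℕ × ℕ) :=
  {p | ∃ t ∈ z, t0 <+: t ∧ p.1 < t.length ∧ Nm65.c1 (ext t p.1) ≠ 0 ∧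
    Nm65.c0 (ext t p.1) % 2 ^ p.1 = p.2}

/-- Decoding a set of codes. -/
def dec (z : Set ℕ) : Set (List ℕ) := {t | Encodable.encode t ∈ z}

lemma pre_mem_prune {x : R} {z : Set (List ℕ)} (h : ∀ k, pre x k ∈ z) :
    ∀ k, pre x k ∈ prune z := fun k =>
  ⟨h k, fun L => ⟨pre x (max k L), h _, pre_pfx' x (le_max_left _ _), by
    rw [length_pre']; exact le_max_right _ _⟩⟩

lemma legit_tup {e a h c : R} (hc : Null c) (ha : (St a).Infinite) (k : ℕ) :
    Legit (pre (tup e a h c (modu c) (nxt a)) k) := by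
  refine ⟨fun k' n hk hn hle => ?_, fun m hm => ?_⟩
  · rw [length_pre'] at hk hn
    rw [ext_pre' _ hk, c4_tup] at hle
    rw [ext_pre' _ hn, c3_tup]
    exact modu_spec hc _ _ hle
  · rw [length_pre'] at hm
    rw [ext_pre' _ hm, c5_tup]
    refine ⟨(nxt_spec ha m).1, fun hlt => ?_⟩
    rw [length_pre'] at hlt
    rw [ext_pre' _ hlt, c1_tup]
    exact (nxt_spec ha m).2

/-- One branch of the density argument: extension of a node to a certificate. -/
lemma extend_node {z : Set (List ℕ)} (hz : ∀ t ∈ z, Legit t) {t : List ℕ}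
    (ht : t ∈ prune (prune (prune z))) (l i : ℕ) :
    ∃ t' ∈ z, t <+: t' ∧ ∃ n, n < t'.length ∧ l ≤ n ∧ Nm65.c1 (ext t' n) ≠ 0 ∧
      mu (cl (Nm65.c3 (ext t' n)) : Set Cantor) ≤ (1 / 2) ^ (l + i) := by
  obtain ⟨t1, ht1, hp1, hL1⟩ := ht.2 (l + i + 1)
  obtain ⟨t2, ht2, hp2, hL2⟩ := ht1.2 (max (Nm65.c4 (ext t1 (l + i))) l + 1)
  obtain ⟨t3, ht3, hp3, hL3⟩ := ht2.2
    (Nm65.c5 (ext t2 (max (Nm65.c4 (ext t1 (l + i))) l)) + 1)
  set q := max (Nm65.c4 (ext t1 (l + i))) l with hq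
  have hle12 : t1.length ≤ t2.length := hp2.length_le
  have hle23 : t2.length ≤ t3.length := hp3.length_le
  have hLeg := hz t3 ht3
  have e1 : ext t3 (l + i) = ext t1 (l + i) :=
    ext_pfx (hp2.trans hp3) (by omega)
  have e2 : ext t3 q = ext t2 q := ext_pfx hp3 (by omega)
  have hq3 : q < t3.length := by omega
  have h5 := hLeg.2 q hq3
  rw [e2] at h5
  have hn : Nm65.c5 (ext t2 q) < t3.length := by omega
  have hqw : Nm65.c4 (ext t1 (l + i)) ≤ q := le_max_left _ _
  have hql : l ≤ q := le_max_right _ _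
  refine ⟨t3, ht3, hp1.trans (hp2.trans hp3), Nm65.c5 (ext t2 q), hn, ?_, h5.2 hn, ?_⟩
  · exact le_trans hql h5.1
  · refine hLeg.1 (l + i) _ (by omega) hn ?_
    rw [e1]
    exact le_trans hqw h5.1


lemma opD_two (m : ℕ) (x : R) (s : List ℕ) :
    s ∈ opD (Nat.pair 2 m) x ↔ ∃ i < s.length, ∃ l, m ≤ l ∧ ∀ u < 2 ^ l, ∃ t : List ℕ,
      Encodable.encode t ∈ St x ∧ Cert (ext s) i t l ∧ Nm65.c0 (ext t l) % 2 ^ l = u := by
  unfold opD
  rw [Nat.unpair_pair]
  rfl

lemma mem_St_ch {z : Set ℕ} {n : ℕ} : n ∈ St (ch z) ↔ n ∈ z := by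
  unfold St ch
  by_cases h : n ∈ z <;> simp [h]

lemma not_small {S : Set (ℕ × ℕ)} (h : ¬ Small S) (m : ℕ) :
    ∃ l, m ≤ l ∧ ∀ u < 2 ^ l, (l, u) ∈ S := by
  unfold Small at h
  push Not at h
  obtain ⟨l, hl, hu⟩ := h m
  exact ⟨l, hl, hu⟩

lemma exists_union_code (f : ℕ → ℕ) (b i l : ℕ) (hb : b = 2 ^ l)
    (hf : ∀ u < b, mu (cl (f u) : Set Cantor) ≤ (1 / 2) ^ (l + i)) :
    ∃ d, mu (cl d : Set Cantor) ≤ (1 / 2) ^ i ∧
      ∀ u < b, (cl (f u) : Set Cantor) ⊆ (cl d : Set Cantor) := by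
  obtain ⟨d, hd⟩ := cl_surj ((Finset.range b).sup fun u => cl (f u))
  refine ⟨d, ?_, fun u hu => ?_⟩
  · have hset : ∀ F : Finset ℕ, ((F.sup fun u => cl (f u) : Clopens Cantor) : Set Cantor) ⊆
        ⋃ u ∈ F, (cl (f u) : Set Cantor) := by
      classical
      intro F
      induction F using Finset.induction_on with
      | empty => simp
      | insert a F ha ih =>
        rw [Finset.sup_insert, Finset.set_biUnion_insert]
        intro y hy
        rcases hy with hy | hy
        · exact Or.inl hy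
        · exact Or.inr (ih hy)
    rw [hd]
    calc mu ((Finset.range b).sup fun u => cl (f u) : Clopens Cantor)
        ≤ mu (⋃ u ∈ Finset.range b, (cl (f u) : Set Cantor)) := measure_mono (hset _)
      _ ≤ ∑ u ∈ Finset.range b, mu (cl (f u) : Set Cantor) :=
          measure_biUnion_finset_le _ _
      _ ≤ ∑ _u ∈ Finset.range b, (1 / 2 : ENNReal) ^ (l + i) :=
          Finset.sum_le_sum fun u hu => hf u (Finset.mem_range.1 hu)
      _ = (1 / 2) ^ i := by
          rw [Finset.sum_const, Finset.card_range, hb, nsmul_eq_mul, pow_add, ← mul_assoc]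
          push_cast
          rw [← mul_pow]
          have : (2 : ENNReal) * (1 / 2) = 1 := by
            rw [one_div]; exact ENNReal.mul_inv_cancel (by norm_num) (by norm_num)
          rw [this, one_pow, one_mul]
  · rw [hd]
    have : cl (f u) ≤ (Finset.range b).sup fun u => cl (f u) :=
      Finset.le_sup (f := fun u => cl (f u)) (Finset.mem_range.2 hu)
    exact this

/-- If no node on the branch `x` has a small slalom, the dense set of kind 2 is dense. -/
lemma dense_two {z : Set ℕ} (hz : ∀ t ∈ dec z, Legit t) {x : R}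
    (hx : ∀ k, ¬ Small (Snode (prune (prune (prune (dec z)))) (pre x k))) (m : ℕ) :
    ∀ s : List ℕ, ∃ s', s <+: s' ∧ s' ∈ opD (Nat.pair 2 m) (ch z) := by
  intro s
  set k0 := st (ext s) s.length with hk0
  obtain ⟨l, hl, hu⟩ := not_small (hx k0) (m + k0 + ∑ m' ∈ Finset.range k0, Nm65.c2 (x m') + 1)
  have hlm : ∀ m' < k0, Nm65.c2 (x m') < l := by
    intro m' hm'
    have := Finset.single_le_sum (f := fun m' => Nm65.c2 (x m')) (fun _ _ => Nat.zero_le _)
      (Finset.mem_range.2 hm')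
    omega
  have key : ∀ u, ∃ t n, u < 2 ^ l → (t ∈ dec z ∧ pre x k0 <+: t ∧ l < t.length ∧
      Nm65.c1 (ext t l) ≠ 0 ∧ Nm65.c0 (ext t l) % 2 ^ l = u ∧ n < t.length ∧ l ≤ n ∧
      Nm65.c1 (ext t n) ≠ 0 ∧
      mu (cl (Nm65.c3 (ext t n)) : Set Cantor) ≤ (1 / 2) ^ (l + s.length)) := by
    intro u
    by_cases hul : u < 2 ^ l
    · obtain ⟨t, ht, hp, hlt, h1, h0⟩ := hu u hul
      obtain ⟨t', ht', hp', n, hn, hln, hn1, hn2⟩ := extend_node hz ht l s.length
      refine ⟨t', n, fun _ => ⟨ht', hp.trans hp', ?_, ?_, ?_, hn, hln, hn1, hn2⟩⟩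
      · exact lt_of_lt_of_le hlt hp'.length_le
      · rw [ext_pfx hp' hlt]; exact h1
      · rw [ext_pfx hp' hlt]; exact h0
    · exact ⟨[], 0, fun h => absurd h hul⟩
  choose t n htn using key
  obtain ⟨d, hd, hdu⟩ := exists_union_code (fun u => Nm65.c3 (ext (t u) (n u))) (2 ^ l)
    s.length l rfl fun u hu => (htn u hu).2.2.2.2.2.2.2.2
  set L := ∑ u ∈ Finset.range (2 ^ l), (Nm65.c2 (ext (t u) l) + Nm65.c2 (ext (t u) (n u)))
    with hL
  have hLu : ∀ u < 2 ^ l, Nm65.c2 (ext (t u) l) ≤ L ∧ Nm65.c2 (ext (t u) (n u)) ≤ L := by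
    intro u hu
    have := Finset.single_le_sum
      (f := fun u => Nm65.c2 (ext (t u) l) + Nm65.c2 (ext (t u) (n u)))
      (fun _ _ => Nat.zero_le _) (Finset.mem_range.2 hu)
    omega
  have hpre : s <+: s ++ [Nat.pair L d] := ⟨_, rfl⟩
  have hval : ext (s ++ [Nat.pair L d]) s.length = Nat.pair L d := by
    simp [ext, List.getD_eq_getElem?_getD]
  have hst : st (ext (s ++ [Nat.pair L d])) s.length = k0 :=
    st_congr' fun j hj => ext_pfx hpre hj
  have hst1 : st (ext (s ++ [Nat.pair L d])) (s.length + 1) = k0 + (L + 1) := by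
    rw [st_succ', hst]
    unfold len
    rw [hval, Nat.unpair_pair]
  have hDs : Dset (ext (s ++ [Nat.pair L d])) s.length = (cl d : Set Cantor) := by
    unfold Dset
    rw [hval, Nat.unpair_pair, if_pos hd]
  refine ⟨_, hpre, (opD_two _ _ _).2 ⟨s.length, by simp, l, by omega, fun u hu => ?_⟩⟩
  obtain ⟨h1, h2, h3, h4, h5, h6, h7, h8, h9⟩ := htn u hu
  have hpm : ∀ m' < k0, Nm65.c2 (ext (t u) m') < l := by
    intro m' hm'
    rw [ext_pfx h2 (by rw [length_pre']; exact hm'), ext_pre' _ hm']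
    exact hlm m' hm'
  refine ⟨t u, mem_St_ch.2 h1, ⟨h3, ?_, ?_, ?_, h4, n u, h6, h8, ?_, ?_, ?_⟩, h5⟩
  · rw [hst]; omega
  · rw [hst1]; have := (hLu u hu).1; omega
  · rw [hst]; exact hpm
  · rw [hst1]; have := (hLu u hu).2; omega
  · rw [hst]; intro m' hm'; have := hpm m' hm'; omega
  · rw [hDs]; exact hdu u hu

lemma cert_pre {G : R} {i n : ℕ} (hi : i < n) {t : List ℕ} {l : ℕ}
    (h : Cert (ext (pre G n)) i t l) : Cert G i t l := by
  have e1 : st (ext (pre G n)) i = st G i :=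
    st_congr' fun j hj => ext_pre' _ (by omega)
  have e2 : st (ext (pre G n)) (i + 1) = st G (i + 1) :=
    st_congr' fun j hj => ext_pre' _ (by omega)
  have e3 : Dset (ext (pre G n)) i = Dset G i := Dset_congr' (ext_pre' _ hi)
  unfold Cert at h ⊢
  rw [e1, e2, e3] at h
  exact h

/-- The successor lemma. -/
theorem successor {I : Type} [LinearOrder I] {M : I → Set R} {g : I → R}
    (hC : Chain opF opD M g) (j : I) {S : Set (ℕ × ℕ)} (hS : Small S) :
    ∃ SS : Set (Set (ℕ × ℕ)), SS.Countable ∧ (∀ S' ∈ SS, Small S') ∧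
      ∀ e a h c, e ∈ M j → a ∈ M j → h ∈ M j → c ∈ M j → Null c → (St a).Infinite →
        Capt S e (opB (g j) h c a) → ∃ S' ∈ SS, Capt S' e a := by
  choose Z hZc hZ hZx using fun N => hC.embed j (TT (g j) S N)
  refine ⟨{S' | Small S' ∧ ∃ N, ∃ z ∈ Z N, ∃ t0,
    S' = Snode (prune (prune (prune (dec z)))) t0}, ?_, fun S' h => h.1, ?_⟩
  · have : {S' | Small S' ∧ ∃ N, ∃ z ∈ Z N, ∃ t0,
        S' = Snode (prune (prune (prune (dec z)))) t0} ⊆
        ⋃ N, ⋃ z ∈ Z N, Set.range fun t0 => Snode (prune (prune (prune (dec z)))) t0 := by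
      rintro S' ⟨-, N, z, hz, t0, rfl⟩
      exact Set.mem_iUnion.2 ⟨N, Set.mem_iUnion₂.2 ⟨z, hz, t0, rfl⟩⟩
    refine Set.Countable.mono this (Set.countable_iUnion fun N => (hZc N).biUnion fun z _ =>
      Set.countable_range _)
  · intro e a h c he ha hh hc hNull hInf hCapt
    obtain ⟨N, hN⟩ := hCapt
    set x := tup e a h c (modu c) (nxt a) with hxdef
    have hxM : x ∈ M j :=
      hC.pair j _ _ he (hC.pair j _ _ ha (hC.pair j _ _ hh (hC.pair j _ _ hc
        (hC.pair j _ _ (hC.closed j 7 c hc) (hC.closed j 8 a ha)))))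
    have hsub : Pre x ⊆ TT (g j) S N := by
      rintro p ⟨k, rfl⟩
      refine ⟨pre x k, rfl, legit_tup hNull hInf k, fun i l hl hcert => ?_⟩
      have hl' : l < k := by have := hcert.1; rwa [length_pre'] at this
      rw [ext_pre' _ hl', c0_tup]
      exact hN l hl (cert_sound hcert)
    obtain ⟨z, hz, hxz⟩ := hZx N x hxM hsub
    obtain ⟨hzT, hzM⟩ := hZ N z hz
    have hzL : ∀ t ∈ dec z, Legit t := by
      intro t ht
      obtain ⟨t', ht', hL, -⟩ := hzT ht
      rw [Encodable.encode_injective ht']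
      exact hL
    have hb0 : ∀ k, pre x k ∈ dec z := fun k => hxz ⟨k, rfl⟩
    have hb3 := pre_mem_prune (pre_mem_prune (pre_mem_prune hb0))
    by_cases hsm : ∃ k, Small (Snode (prune (prune (prune (dec z)))) (pre x k))
    · obtain ⟨k, hk⟩ := hsm
      refine ⟨_, ⟨hk, N, z, hz, pre x k, rfl⟩, 0, fun l _ hla => ?_⟩
      refine ⟨pre x (max k (l + 1)), hb3 _, pre_pfx' x (le_max_left _ _), ?_, ?_, ?_⟩
      · rw [length_pre']; exact lt_of_lt_of_le (Nat.lt_succ_self l) (le_max_right _ _)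
      · have : l < max k (l + 1) := lt_of_lt_of_le (Nat.lt_succ_self l) (le_max_right _ _)
        simp only
        rw [ext_pre' _ this, c1_tup]
        exact hla
      · have : l < max k (l + 1) := lt_of_lt_of_le (Nat.lt_succ_self l) (le_max_right _ _)
        simp only
        rw [ext_pre' _ this, c0_tup]
    · exfalso
      push Not at hsm
      obtain ⟨m0, hm0⟩ := hS
      obtain ⟨n, hn⟩ := hC.generic j (Nat.pair 2 (max m0 N)) (ch z) hzM
        (dense_two hzL hsm (max m0 N))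
      obtain ⟨i, hi, l, hl, hu⟩ := (opD_two _ _ _).1 hn
      rw [length_pre'] at hi
      obtain ⟨u, hu1, hu2⟩ := hm0 l (le_trans (le_max_left _ _) hl)
      obtain ⟨t, ht1, ht2, ht3⟩ := hu u hu1
      obtain ⟨t', ht', -, hviol⟩ := hzT (mem_St_ch.1 ht1)
      have htt : t = t' := Encodable.encode_injective ht'
      subst htt
      have := hviol i l (le_trans (le_max_right _ _) hl) (cert_pre hi ht2)
      rw [ht3] at this
      exact hu2 this

end Pool.Agent.Nm65.X1
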