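import Pool.Agent.Nm65.Core
import Pool.Agent.Nm65.X172

/-!
MP_50671f, separation theorem: descent of captures along the chain, the limit step and the assembly
of the statement that the captured members of a family of reals form a meager set.
-/

namespace Pool.Agent.Nm65

open Set Filter Topology

variable {I : Type} [LinearOrder I] {M : I → Set R} {g : I → R}

/-! ### lists and prefixes -/

lemma St_ch (z : Set ℕ) : St (ch z) = z := by
  ext n
  by_cases h : n ∈ z <;> simp [St, ch, h]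

lemma small_mono {S S' : Set (ℕ × ℕ)} (hS : Small S) {N : ℕ} (h : ∀ p ∈ S', N ≤ p.1 → p ∈ S) : Small S' := by
  obtain ⟨m, hm⟩ := hS
  refine ⟨max m N, fun l hl => ?_⟩
  obtain ⟨u, hu, hS⟩ := hm l ((le_max_left _ _).trans hl)
  exact ⟨u, hu, fun hc => hS (h _ hc ((le_max_right _ _).trans hl))⟩

/-! ### descent -/

lemma descent (hC : Chain opF opD M g) {d i : I} {z e a : R}
    (hz : z ∈ M d) (he : e ∈ M d) (hB : Bs M g i a) (hcap : Capt (Sz z) e a) :
    ∃ a', Bs M g d a' ∧ Capt (Sz z) e a' := by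
  induction hB with
  | one i => exact ⟨_, Bs.one d, hcap⟩
  | @step j i a h c hji hBa hh hc hn hc0 ih =>
    rcases lt_or_ge j d with hjd | hdj
    · exact ⟨_, Bs.step hjd hBa hh hc hn hc0, hcap⟩
    · apply ih
      by_contra hno
      have ha : a ∈ M j := hC.Bs_mem hBa
      have hX : opF 9 (pr z (pr e a)) ∈ M j := hC.closed _ _ _ (hC.pair _ _ _ (hC.mono _ _ hdj hz)
        (hC.pair _ _ _ (hC.mono _ _ hdj he) ha))
      have hXe : St (opF 9 (pr z (pr e a))) = {l | a l ≠ 0 ∧ (l, e l % 2 ^ l) ∉ Sz z} := by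
        show St (ch _) = _
        rw [St_ch]
        simp [pr]
      have hsub : St (opF 9 (pr z (pr e a))) ⊆ St a := by
        rw [hXe]
        exact fun l hl => hl.1
      have hinf : (St (opF 9 (pr z (pr e a)))).Infinite := by
        rw [hXe]
        apply Set.infinite_of_forall_exists_gt
        intro N
        by_contra hcon
        apply hno
        refine ⟨N + 1, fun l hl hla => ?_⟩
        by_contra h2
        exact hcon ⟨l, ⟨hla, h2⟩, hl⟩
      obtain ⟨N, hN⟩ := hcap
      obtain ⟨l, hlN, h4, h5⟩ := hC.hit hh hc ha hX hn hc0 hinf hsub N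
      rw [hXe] at h4
      exact h4.2 (hN l hlN h5)

/-! ### the base step -/

lemma isMeagre_base {S : Set (ℕ × ℕ)} (hS : Small S) : IsMeagre {e : R | Capt S e (fun _ => 1)} := by
  obtain ⟨m, hm⟩ := hS
  choose! u hu hSu using hm
  have h1 : {e : R | Capt S e (fun _ => 1)} ⊆ ⋃ N : ℕ, {e : R | ∀ l, N ≤ l → (l, e l % 2 ^ l) ∈ S} := by
    rintro e ⟨N, hN⟩
    exact mem_iUnion.2 ⟨N, fun l hl => hN l hl (by simp [St])⟩
  refine IsMeagre.mono h1 (isMeagre_iUnion fun N => ?_)
  have hcl : IsClosed {e : R | ∀ l, N ≤ l → (l, e l % 2 ^ l) ∈ S} := by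
    have : {e : R | ∀ l, N ≤ l → (l, e l % 2 ^ l) ∈ S} = ⋂ l : ℕ, ⋂ _ : N ≤ l, (fun e : R => e l) ⁻¹' {v | (l, v % 2 ^ l) ∈ S} := by
      ext e
      simp
    rw [this]
    exact isClosed_iInter fun l => isClosed_iInter fun _ => (isClosed_discrete _).preimage (continuous_apply l)
  apply IsNowhereDense.isMeagre
  rw [hcl.isNowhereDense_iff, eq_empty_iff_forall_notMem]
  intro e he
  have ht : Tendsto (fun l => Function.update e l (u l)) atTop (𝓝 e) := by
    rw [tendsto_pi_nhds]
    intro k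
    apply tendsto_const_nhds.congr'
    filter_upwards [eventually_gt_atTop k] with l hl
    rw [Function.update_of_ne hl.ne]
  have hev := ht.eventually (isOpen_interior.mem_nhds he)
  obtain ⟨l, hl, hl1⟩ := (hev.and (eventually_ge_atTop (max m N))).exists
  have h2 := interior_subset hl l ((le_max_right _ _).trans hl1)
  rw [Function.update_self, Nat.mod_eq_of_lt (hu l ((le_max_left _ _).trans hl1))] at h2
  exact hSu l ((le_max_left _ _).trans hl1) h2

/-! ### the limit step -/

/-- the codes of the finite sequences of pairs (e, a) all of whose entries beyond `N` lie in `S` -/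
def TT (S : Set (ℕ × ℕ)) (N : ℕ) : Set ℕ :=
  {n | ∃ t : List ℕ, n = Encodable.encode t ∧ ∀ l, N ≤ l → l < t.length → (ext t l).unpair.2 ≠ 0 →
    (l, (ext t l).unpair.1 % 2 ^ l) ∈ S}

lemma Sz_sub {S : Set (ℕ × ℕ)} {N : ℕ} {z : Set ℕ} (hz : z ⊆ TT S N) : ∀ p ∈ Sz (ch z), N ≤ p.1 → p ∈ S := by
  rintro ⟨l, v⟩ ⟨t, ht, hl, h2, h1⟩ hN
  rw [St_ch] at ht
  obtain ⟨t', ht', hS⟩ := hz ht
  have : t = t' := Encodable.encode_injective ht'
  subst this
  have := hS l hN hl h2
  simp only at h1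
  rwa [h1] at this

lemma capt_Sz {e a : R} {z : Set ℕ} (hz : Pre (pr e a) ⊆ z) : Capt (Sz (ch z)) e a := by
  refine ⟨0, fun l _ hl => ?_⟩
  refine ⟨pre (pr e a) (l + 1), ?_, ?_, ?_, ?_⟩
  · rw [St_ch]
    exact hz ⟨l + 1, rfl⟩
  · simp [length_pre]
  · simp only [ext_pre (Nat.lt_succ_self l), pr, Nat.unpair_pair]
    exact hl
  · simp only [ext_pre (Nat.lt_succ_self l), pr, Nat.unpair_pair]

lemma Pre_sub {e a : R} {S : Set (ℕ × ℕ)} {N : ℕ} (h : ∀ l, N ≤ l → l ∈ St a → (l, e l % 2 ^ l) ∈ S) :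
    Pre (pr e a) ⊆ TT S N := by
  rintro n ⟨k, rfl⟩
  refine ⟨_, rfl, fun l hN hl h2 => ?_⟩
  rw [length_pre] at hl
  rw [ext_pre hl] at h2 ⊢
  simp only [pr, Nat.unpair_pair] at h2 ⊢
  exact h l hN h2

/-! ### assembly -/

lemma claim_level [WellFoundedLT I] (hC : Chain opF opD M g) {E : Set R} (hE : ∀ i, E ⊆ M i) :
    ∀ (i : I) (S : Set (ℕ × ℕ)), Small S → IsMeagre {e | e ∈ E ∧ ∃ a, Bs M g i a ∧ Capt S e a} := by
  intro i
  induction i using WellFoundedLT.induction with
  | ind i ih =>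
    intro S hS
    by_cases h0 : ∃ j, j < i
    swap
    · -- least element
      refine IsMeagre.mono ?_ (isMeagre_base hS)
      rintro e ⟨_, a, hB, hcap⟩
      cases hB with
      | one => exact hcap
      | step hji => exact absurd ⟨_, hji⟩ h0
    by_cases hl : ∀ j, j < i → ∃ k, j < k ∧ k < i
    · -- limit
      have hemb := fun N : ℕ => hC.embed i (TT S N)
      choose Z hZc hZ hZx using hemb
      have hd : ∀ N, ∀ z ∈ Z N, ∃ d, d < i ∧ ch z ∈ M d := fun N z hz =>
        hC.limit i h0 hl _ (hZ N z hz).2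
      haveI : Nonempty I := ⟨i⟩
      choose! d hdi hdM using hd
      have hsub : {e | e ∈ E ∧ ∃ a, Bs M g i a ∧ Capt S e a} ⊆
          ⋃ N : ℕ, ⋃ z ∈ Z N, {e | e ∈ E ∧ ∃ a, Bs M g (d N z) a ∧ Capt (Sz (ch z)) e a} := by
        rintro e ⟨heE, a, hB, N, hN⟩
        have hx : pr e a ∈ M i := hC.pair _ _ _ (hE i heE) (hC.Bs_mem hB)
        obtain ⟨z, hz, hPz⟩ := hZx N _ hx (Pre_sub hN)
        obtain ⟨a', ha', hcap'⟩ := descent hC (hdM N z hz) (hE _ heE) hB (capt_Sz hPz)
        exact mem_iUnion.2 ⟨N, mem_iUnion₂.2 ⟨z, hz, heE, a', ha', hcap'⟩⟩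
      refine IsMeagre.mono hsub (isMeagre_iUnion fun N => ?_)
      have : ⋃ z ∈ Z N, {e | e ∈ E ∧ ∃ a, Bs M g (d N z) a ∧ Capt (Sz (ch z)) e a} =
          ⋃ z : Z N, {e | e ∈ E ∧ ∃ a, Bs M g (d N z) a ∧ Capt (Sz (ch (z : Set ℕ))) e a} := by
        rw [biUnion_eq_iUnion]
      rw [this]
      haveI : Countable (Z N) := (hZc N).to_subtype
      refine isMeagre_iUnion fun z => ?_
      exact ih _ (hdi N z z.2) _ (small_mono hS (Sz_sub (hZ N z z.2).1))
    · -- successor
      push Not at hl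
      obtain ⟨j, hji, hj⟩ := hl
      obtain ⟨SS, hSSc, hSSs, hSS⟩ := X1.successor hC j hS
      have hsub : {e | e ∈ E ∧ ∃ a, Bs M g i a ∧ Capt S e a} ⊆
          {e : R | Capt S e (fun _ => 1)} ∪ {e | e ∈ E ∧ ∃ a, Bs M g j a ∧ Capt S e a} ∪
            ⋃ S' ∈ SS, {e | e ∈ E ∧ ∃ a, Bs M g j a ∧ Capt S' e a} := by
        rintro e ⟨heE, a, hB, hcap⟩
        cases hB with
        | one => exact Or.inl (Or.inl hcap)
        | @step j' _ a' h c hj'i hBa hh hc hn hc0 =>
          rcases lt_or_ge j' j with hlt | hge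
          · exact Or.inl (Or.inr ⟨heE, _, Bs.step hlt hBa hh hc hn hc0, hcap⟩)
          · have : j' = j := by
              rcases eq_or_lt_of_le hge with h | h
              · exact h.symm
              · exact absurd hj'i (not_lt.2 (hj j' h))
            subst this
            obtain ⟨S', hS', hcap'⟩ := hSS e a' h c (hE _ heE) (hC.Bs_mem hBa) hh hc hc0
              (hC.Bs_infinite hBa) hcap
            exact Or.inr (mem_iUnion₂.2 ⟨S', hS', heE, a', hBa, hcap'⟩)
      refine IsMeagre.mono hsub (IsMeagre.union (IsMeagre.union (isMeagre_base hS) (ih j hji S hS)) ?_)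
      rw [biUnion_eq_iUnion]
      haveI : Countable SS := hSSc.to_subtype
      exact isMeagre_iUnion fun S' => ih j hji _ (hSSs _ S'.2)

/-- the members of `E` captured by a small set form a meager set -/
theorem claim_meagre [WellFoundedLT I] (hC : Chain opF opD M g) {E : Set R} (hE : ∀ i, E ⊆ M i)
    {S : Set (ℕ × ℕ)} (hS : Small S) : IsMeagre {e | e ∈ E ∧ ∃ i a, Bs M g i a ∧ Capt S e a} := by
  obtain ⟨d, hd⟩ := hC.cover (ch (TT S 0))
  have hsm : Small (Sz (ch (TT S 0))) := small_mono hS (Sz_sub Subset.rfl)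
  refine IsMeagre.mono ?_ (claim_level hC hE d _ hsm)
  rintro e ⟨heE, i, a, hB, N, hN⟩
  have hcap : Capt (Sz (ch (TT S 0))) e a := by
    refine ⟨N, fun l hl hla => ?_⟩
    have h1 := hN l hl hla
    refine ⟨List.replicate l 0 ++ [Nat.pair (e l % 2 ^ l) 1], ?_, ?_, ?_, ?_⟩
    · rw [St_ch]
      refine ⟨_, rfl, fun l' _ hl' h2 => ?_⟩
      rw [List.length_append, List.length_replicate, List.length_singleton] at hl'
      rcases Nat.lt_or_ge l' l with h | h
      · exfalso
        apply h2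
        have : ext (List.replicate l 0 ++ [Nat.pair (e l % 2 ^ l) 1]) l' = 0 := by
          simp [ext, List.getD_eq_getElem?_getD, List.getElem?_append, h]
        rw [this]
        simp
      · have hl'' : l' = l := by omega
        subst hl''
        have : ext (List.replicate l' 0 ++ [Nat.pair (e l' % 2 ^ l') 1]) l' = Nat.pair (e l' % 2 ^ l') 1 := by
          simp [ext, List.getD_eq_getElem?_getD]
        rw [this, Nat.unpair_pair]
        simpa using h1
    · simp
    · have : ext (List.replicate l 0 ++ [Nat.pair (e l % 2 ^ l) 1]) l = Nat.pair (e l % 2 ^ l) 1 := by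
        simp [ext, List.getD_eq_getElem?_getD]
      simp only [this, Nat.unpair_pair]
      exact one_ne_zero
    · have : ext (List.replicate l 0 ++ [Nat.pair (e l % 2 ^ l) 1]) l = Nat.pair (e l % 2 ^ l) 1 := by
        simp [ext, List.getD_eq_getElem?_getD]
      simp only [this, Nat.unpair_pair, Nat.mod_mod]
  obtain ⟨a', ha', hcap'⟩ := descent hC hd (hE d heE) hB hcap
  exact ⟨heE, a', ha', hcap'⟩

end Pool.Agent.Nm65
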