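import Pool.Agent.Nm65.CoreDefs
import Mathlib.Topology.GDelta.Basic
import Mathlib.Topology.Baire.Lemmas

/-!
The Cohen reals of a chain below a point of uncountable cofinality form a Luzin set (MP_50671f).
-/

namespace Pool.Agent.Nm65

open Set Cardinal Topology

namespace L83

/-- The finite sequences leaving the tree coded by x. -/
def outD (x : R) : Set (List ℕ) := {s | ∃ k, k ≤ s.length ∧ Encodable.encode (s.take k) ∉ St x}

/-- A scheme of dense sets together with the sets `outD`. -/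
def withOut (D : ℕ → R → Set (List ℕ)) : ℕ → R → Set (List ℕ)
  | 0 => outD
  | k + 1 => D k

lemma length_pre (x : R) (k : ℕ) : (pre x k).length = k := by simp [pre]

lemma pre_prefix (x : R) {k k' : ℕ} (h : k ≤ k') : pre x k <+: pre x k' := by
  obtain ⟨d, rfl⟩ := Nat.exists_eq_add_of_le h
  unfold pre
  rw [List.range_add, List.map_append]
  exact List.prefix_append _ _

lemma pre_take (x : R) {k k' : ℕ} (h : k ≤ k') : (pre x k').take k = pre x k := by
  obtain ⟨r, hr⟩ := pre_prefix x h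
  rw [← hr]
  have := List.take_left (l₁ := pre x k) (l₂ := r)
  rwa [length_pre] at this

lemma St_ch (z : Set ℕ) : St (ch z) = z := by
  ext n
  simp [St, ch]

lemma pre_ext (s : List ℕ) : pre (ext s) s.length = s := by
  unfold pre ext
  refine List.ext_getElem (by simp) fun i h1 h2 => ?_
  simp only [List.getElem_map, List.getElem_range]
  rw [List.getD_eq_getElem?_getD, List.getElem?_eq_getElem h2]
  rfl

lemma pre_eq_iff (x y : R) (k : ℕ) : pre x k = pre y k ↔ x ∈ PiNat.cylinder y k := by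
  unfold pre
  rw [PiNat.mem_cylinder_iff]
  constructor
  · intro h i hi
    exact List.map_inj_left.1 h i (List.mem_range.2 hi)
  · intro h
    exact List.map_congr_left fun i hi => h i (List.mem_range.1 hi)

/-- The tree of a set of reals. -/
def tree (t : Set R) : Set ℕ := {n | ∃ y ∈ t, ∃ k, n = Encodable.encode (pre y k)}

lemma Pre_subset_tree {t : Set R} {y : R} (hy : y ∈ t) : Pre y ⊆ tree (closure t) := by
  rintro n ⟨k, rfl⟩
  exact ⟨y, subset_closure hy, k, rfl⟩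

lemma outD_dense {t : Set R} (ht : IsNowhereDense t) {z : Set ℕ} (hz : z ⊆ tree (closure t))
    (s : List ℕ) : ∃ s' : List ℕ, s <+: s' ∧ s' ∈ outD (ch z) := by
  have hne : ¬ (PiNat.cylinder (ext s) s.length ⊆ closure t) := by
    intro hsub
    have h1 := interior_maximal hsub (PiNat.isOpen_cylinder _ (ext s) s.length)
    have h2 : interior (closure t) = ∅ := ht
    rw [h2] at h1
    exact h1 (PiNat.self_mem_cylinder (ext s) s.length)
  rw [not_subset] at hne
  obtain ⟨y, hy, hyt⟩ := hne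
  have hy' : pre y s.length = s := by
    rw [(pre_eq_iff y (ext s) s.length).2 hy, pre_ext]
  obtain ⟨v, ⟨x, k, rfl⟩, hyv, hv⟩ := (PiNat.isTopologicalBasis_cylinders (fun _ => ℕ)).exists_subset_of_mem_open
    (show y ∈ (closure t)ᶜ from hyt) isClosed_closure.isOpen_compl
  refine ⟨pre y (max k s.length), ?_, k, ?_, ?_⟩
  · conv_lhs => rw [← hy']
    exact pre_prefix y (le_max_right _ _)
  · rw [length_pre]; exact le_max_left _ _
  · rw [pre_take y (le_max_left _ _), St_ch]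
    intro hmem
    obtain ⟨y', hy'c, k', hk'⟩ := hz hmem
    have h1 : pre y k = pre y' k' := Encodable.encode_injective hk'
    have h2 : k = k' := by
      have := congrArg List.length h1
      rwa [length_pre, length_pre] at this
    subst h2
    have h3 : pre y' k = pre x k := by
      rw [← h1]; exact (pre_eq_iff y x k).2 hyv
    exact hv ((pre_eq_iff y' x k).1 h3) hy'c

variable {I : Type} [LinearOrder I] {M : I → Set R} {g : I → R} {F : ℕ → R → R}
  {D : ℕ → R → Set (List ℕ)}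

lemma _root_.Pool.Agent.Nm65.Chain.ofOut (hC : Chain F (withOut D) M g) : Chain F D M g :=
  ⟨hC.ne, hC.nomax, hC.mono, hC.pair, hC.closed, hC.cover, hC.gmem,
    fun i k x hx => hC.generic i (k + 1) x hx, hC.limit, hC.embed⟩

/-- The chain above i0. -/
lemma _root_.Pool.Agent.Nm65.Chain.restrict (hC : Chain F D M g) (i0 : I) :
    Chain F D (fun i : {i // i0 ≤ i} => M i.1) (fun i : {i // i0 ≤ i} => g i.1) where
  ne i := hC.ne i.1
  nomax i := by
    obtain ⟨j, hj⟩ := hC.nomax i.1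
    exact ⟨⟨j, i.2.trans hj.le⟩, hj⟩
  mono i j hij := hC.mono i.1 j.1 hij
  pair i := hC.pair i.1
  closed i := hC.closed i.1
  cover x := by
    obtain ⟨i, hi⟩ := hC.cover x
    exact ⟨⟨max i i0, le_max_right _ _⟩, hC.mono _ _ (le_max_left _ _) hi⟩
  gmem i j hij := hC.gmem i.1 j.1 hij
  generic i := hC.generic i.1
  limit := by
    rintro i ⟨j0, hj0⟩ hlim x hx
    have h1 : ∀ j, j < i.1 → ∃ k, j < k ∧ k < i.1 := by
      intro j hj
      rcases le_or_gt i0 j with h | h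
      · obtain ⟨k, hk1, hk2⟩ := hlim ⟨j, h⟩ hj
        exact ⟨k.1, hk1, hk2⟩
      · exact ⟨j0.1, h.trans_le j0.2, hj0⟩
    obtain ⟨j, hj, hxj⟩ := hC.limit i.1 ⟨j0.1, hj0⟩ h1 x hx
    rcases le_or_gt i0 j with h | h
    · exact ⟨⟨j, h⟩, hj, hxj⟩
    · exact ⟨j0, hj0, hC.mono _ _ (h.le.trans j0.2) hxj⟩
  embed i := hC.embed i.1

lemma mk_biUnion_le_max {α β : Type} {κ : Cardinal} (hκ : ℵ₀ ≤ κ) (s : Set α) (hs : #s ≤ κ)
    (A : α → Set β) (hA : ∀ x, (A x).Countable) : #(⋃ x ∈ s, A x : Set β) ≤ κ := by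
  rw [biUnion_eq_iUnion]
  refine (mk_iUnion_le_sum_mk (f := fun x : s => A x.1)).trans ?_
  calc Cardinal.sum (fun x : s => #(A x.1)) ≤ Cardinal.sum (fun _ : s => ℵ₀) :=
        Cardinal.sum_le_sum _ _ fun x => (hA x.1).le_aleph0
    _ = #s * ℵ₀ := by rw [Cardinal.sum_const']
    _ ≤ κ * κ := mul_le_mul' hs hκ
    _ = κ := Cardinal.mul_eq_self hκ

/-- The Cohen reals below i0 avoid any κ meager sets eventually, if κ many points below i0
are bounded below i0. -/
theorem _root_.Pool.Agent.Nm65.Chain.avoid (hC : Chain F (withOut D) M g) {i0 : I} {κ : Cardinal}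
    (hκ : ℵ₀ ≤ κ) (hne : ∃ j, j < i0)
    (hlim : ∀ j, j < i0 → ∃ k, j < k ∧ k < i0)
    (hb : ∀ (S : Set I), #S ≤ κ → (∀ x ∈ S, x < i0) → ∃ j, j < i0 ∧ ∀ x ∈ S, x ≤ j)
    (G : Set (Set R)) (hG : #G ≤ κ) (hm : ∀ m ∈ G, IsMeagre m) :
    ∃ j, j < i0 ∧ ∀ a, j ≤ a → a < i0 → ∀ m ∈ G, g a ∉ m := by
  classical
  have : Nonempty I := ⟨i0⟩
  -- nowhere dense covers
  have h1 : ∀ m : Set R, ∃ S : Set (Set R), S.Countable ∧ (∀ t ∈ S, IsNowhereDense t) ∧
      (IsMeagre m → m ⊆ ⋃₀ S) := by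
    intro m
    by_cases h : IsMeagre m
    · obtain ⟨S, h1, h2, h3⟩ := isMeagre_iff_countable_union_isNowhereDense.1 h
      exact ⟨S, h2, h1, fun _ => h3⟩
    · exact ⟨∅, countable_empty, by simp, fun h' => absurd h' h⟩
  choose S hS1 hS2 hS3 using h1
  have h2 := fun t : Set R => hC.embed i0 (tree (closure t))
  choose Z hZ1 hZ2 hZ3 using h2
  set G1 : Set (Set R) := ⋃ m ∈ G, S m with hG1
  have hG1c : #G1 ≤ κ := mk_biUnion_le_max hκ G hG S hS1
  set ZZ : Set (Set ℕ) := ⋃ t ∈ G1, Z t with hZZ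
  have hZZc : #ZZ ≤ κ := mk_biUnion_le_max hκ G1 hG1c Z hZ1
  have hZM : ∀ z ∈ ZZ, ∃ j, j < i0 ∧ ch z ∈ M j := by
    intro z hz
    simp only [hZZ, mem_iUnion, exists_prop] at hz
    obtain ⟨t, _, hz⟩ := hz
    exact hC.limit i0 hne hlim _ (hZ2 t z hz).2
  choose! jj hjj1 hjj2 using hZM
  obtain ⟨j, hj, hjb⟩ := hb (jj '' ZZ) (mk_image_le.trans hZZc) (by
    rintro _ ⟨z, hz, rfl⟩; exact hjj1 z hz)
  refine ⟨j, hj, fun a hja hai m hmG hgm => ?_⟩
  have h3 := hS3 m (hm m hmG) hgm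
  obtain ⟨t, ht, hgt⟩ := h3
  obtain ⟨z, hz, hPz⟩ := hZ3 t (g a) (hC.gmem a i0 hai) (Pre_subset_tree hgt)
  have hzZ : z ∈ ZZ := by
    simp only [hZZ, hG1, mem_iUnion, exists_prop]
    exact ⟨t, ⟨m, hmG, ht⟩, hz⟩
  have hzM : ch z ∈ M a := hC.mono _ _ ((hjb _ ⟨z, hzZ, rfl⟩).trans hja) (hjj2 z hzZ)
  obtain ⟨n, hn⟩ := hC.generic a 0 (ch z) hzM (outD_dense (hS2 m t ht) (hZ2 t z hz).1)
  obtain ⟨k, hk, hnot⟩ := hn
  rw [length_pre] at hk
  rw [pre_take (g a) hk, St_ch] at hnot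
  exact hnot (hPz ⟨k, rfl⟩)

lemma mk_biUnion_le_max' {α β : Type} {κ : Cardinal} (hκ : ℵ₀ ≤ κ) (s : Set α) (hs : #s ≤ κ)
    (A : α → Set β) (hA : ∀ x ∈ s, #(A x) ≤ κ) : #(⋃ x ∈ s, A x : Set β) ≤ κ := by
  rw [biUnion_eq_iUnion]
  refine (mk_iUnion_le_sum_mk (f := fun x : s => A x.1)).trans ?_
  calc Cardinal.sum (fun x : s => #(A x.1)) ≤ Cardinal.sum (fun _ : s => κ) :=
        Cardinal.sum_le_sum _ _ fun x => hA x.1 x.2
    _ = #s * κ := by rw [Cardinal.sum_const']
    _ ≤ κ * κ := mul_le_mul' hs le_rfl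
    _ = κ := Cardinal.mul_eq_self hκ

/-- Facts on a point of index `(succ κ).ord`. -/
lemma point_facts {I : Type} [LinearOrder I] [WellFoundedLT I] {κ : Cardinal} (hκ : ℵ₀ ≤ κ)
    {i0 : I} (hi0 : Ordinal.typein (α := I) (· < ·) i0 = (Order.succ κ).ord) :
    (∃ j, j < i0) ∧ (∀ j, j < i0 → ∃ k, j < k ∧ k < i0) ∧
      (∀ S : Set I, #S ≤ κ → (∀ x ∈ S, x < i0) → ∃ j, j < i0 ∧ ∀ x ∈ S, x ≤ j) := by
  have hcard : ∀ j : I, #(Iio j) = (Ordinal.typein (α := I) (· < ·) j).card := fun j =>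
    (Ordinal.card_typein (α := I) (r := (· < ·)) j).symm
  have h0 : #(Iio i0) = Order.succ κ := by
    rw [hcard, hi0, Cardinal.card_ord]
  have hlow : ∀ j, j < i0 → #(Iio j) ≤ κ := by
    intro j hj
    have h1 : Ordinal.typein (α := I) (· < ·) j < Ordinal.typein (α := I) (· < ·) i0 :=
      (Ordinal.typein_lt_typein (α := I) (· < ·)).2 hj
    rw [hi0, Cardinal.lt_ord, Order.lt_succ_iff] at h1
    rw [hcard]
    exact h1
  have hnot : ¬ #(Iio i0) ≤ κ := by
    rw [h0]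
    exact not_le.2 (Order.lt_succ κ)
  refine ⟨?_, ?_, ?_⟩
  · by_contra hcon
    push Not at hcon
    apply hnot
    have : Iio i0 = (∅ : Set I) := by
      ext x
      simp only [mem_Iio, mem_empty_iff_false, iff_false, not_lt]
      exact hcon x
    rw [this, mk_eq_zero]
    exact zero_le
  · intro j hj
    by_contra hcon
    push Not at hcon
    apply hnot
    have hsub : Iio i0 ⊆ insert j (Iio j) := by
      intro x hx
      rcases lt_trichotomy x j with h1 | h1 | h1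
      · exact Or.inr h1
      · exact Or.inl h1
      · exact absurd hx (not_lt.2 (hcon x h1))
    refine (mk_le_mk_of_subset hsub).trans (mk_insert_le.trans ?_)
    exact add_le_of_le hκ (hlow j hj) (one_le_aleph0.trans hκ)
  · intro S hS hSi
    by_contra hcon
    push Not at hcon
    apply hnot
    have hsub : Iio i0 ⊆ ⋃ x ∈ S, Iio x := by
      intro j hj
      obtain ⟨x, hx, hjx⟩ := hcon j hj
      simp only [mem_iUnion, exists_prop]
      exact ⟨x, hx, hjx⟩
    exact (mk_le_mk_of_subset hsub).trans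
      (mk_biUnion_le_max' hκ S hS _ fun x hx => hlow x (hSi x hx))

/-- Points of prescribed cofinality in a well-order. -/
lemma exists_point (I : Type) [LinearOrder I] [WellFoundedLT I] {κ : Cardinal} (hκ : ℵ₀ ≤ κ)
    (h : Order.succ κ < #I) : ∃ i0 : I, #(Iio i0) = Order.succ κ ∧ (∃ j, j < i0) ∧
      (∀ j, j < i0 → ∃ k, j < k ∧ k < i0) ∧
      (∀ S : Set I, #S ≤ κ → (∀ x ∈ S, x < i0) → ∃ j, j < i0 ∧ ∀ x ∈ S, x ≤ j) := by
  have hlt : (Order.succ κ).ord < Ordinal.type (α := I) (· < ·) := by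
    by_contra hcon
    push Not at hcon
    have h1 := Ordinal.card_le_card hcon
    rw [Cardinal.card_ord, Ordinal.card_type] at h1
    exact absurd h1 (not_le.2 h)
  obtain ⟨i0, hi0⟩ := Ordinal.typein_surj (α := I) (· < ·) hlt
  have hi0' : Ordinal.typein (α := I) (· < ·) i0 = (Order.succ κ).ord := hi0
  refine ⟨i0, ?_, point_facts hκ hi0'⟩
  have := (Ordinal.card_typein (α := I) (r := (· < ·)) i0).symm
  rw [hi0', Cardinal.card_ord] at this
  exact this

end L83

end Pool.Agent.Nm65
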