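import Pool.Agent.Nm65.W1
import Pool.Agent.Nm65.CoreDefs

/-!
The chain of the separation theorem from the weak Freese–Nation property and
`cov(meager) = continuum`, the continuum being regular (MP_50671f).
-/

namespace Pool.Agent.Nm65

open Set Cardinal

/-- The set of reals with no prefix in a dense set is meager. -/
lemma isMeagre_avoid (D : Set (List ℕ)) (hD : ∀ s : List ℕ, ∃ t : List ℕ, s <+: t ∧ t ∈ D) :
    IsMeagre {g : R | ∀ n, pre g n ∉ D} := by
  have hc : {g : R | ∀ n, pre g n ∉ D}ᶜ = {g : R | ∃ n, pre g n ∈ D} := by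
    ext g; simp
  unfold IsMeagre
  rw [hc]
  refine residual_of_dense_open ?_ ?_
  · refine isOpen_iff_forall_mem_open.2 fun g hg => ?_
    obtain ⟨n, hn⟩ := hg
    refine ⟨PiNat.cylinder g n, fun y hy => ⟨n, ?_⟩, PiNat.isOpen_cylinder _ g n,
      PiNat.self_mem_cylinder g n⟩
    have : pre y n = pre g n := by
      unfold pre
      refine List.map_congr_left fun a ha => ?_
      exact hy a (List.mem_range.1 ha)
    rw [this]
    exact hn
  · refine (PiNat.isTopologicalBasis_cylinders (fun _ => ℕ)).dense_iff.2 ?_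
    rintro o ⟨x, n, rfl⟩ _
    obtain ⟨t, ht, htD⟩ := hD (pre x n)
    obtain ⟨u, rfl⟩ := ht
    refine ⟨ext (pre x n ++ u), fun i hi => ?_, (pre x n ++ u).length, ?_⟩
    · unfold ext pre
      have h1 : i < ((List.range n).map x).length := by simpa using hi
      rw [List.getD_eq_getElem?_getD, List.getElem?_append_left h1]
      simp [hi]
    · have : pre (ext (pre x n ++ u)) (pre x n ++ u).length = pre x n ++ u := by
        unfold pre ext
        refine List.ext_getElem (by simp) fun i h1 h2 => ?_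
        simp only [List.getElem_map, List.getElem_range]
        rw [List.getD_eq_getElem?_getD, List.getElem?_eq_getElem h2]
        rfl
      rw [this]
      exact htD

/-- Fewer than continuum many dense sets are met by a single real. -/
theorem coh_exists (hcov : cov Mgr = continuum) (D : ℕ → R → Set (List ℕ)) (M : Set R)
    (hM : #M < continuum) : ∃ g : R, ∀ k, ∀ x ∈ M, Meets g (D k x) := by
  by_contra hcon
  push Not at hcon
  let F : Set (Set R) := {B | ∃ k, ∃ x ∈ M,
    (∀ s : List ℕ, ∃ t : List ℕ, s <+: t ∧ t ∈ D k x) ∧ B = {g : R | ∀ n, pre g n ∉ D k x}}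
  have hFM : F ⊆ Mgr := by
    rintro B ⟨k, x, _, hD, rfl⟩
    exact isMeagre_avoid _ hD
  have hFU : ⋃₀ F = Set.univ := by
    refine Set.eq_univ_of_forall fun g => ?_
    obtain ⟨k, x, hx, hm⟩ := hcon g
    unfold Meets at hm
    push Not at hm
    exact ⟨_, ⟨k, x, hx, hm.1, rfl⟩, hm.2⟩
  have hFc : #F < continuum := by
    have h1 : F ⊆ Set.range fun p : ℕ × M => {g : R | ∀ n, pre g n ∉ D p.1 p.2} := by
      rintro B ⟨k, x, hx, _, rfl⟩
      exact ⟨(k, ⟨x, hx⟩), rfl⟩
    refine (mk_le_mk_of_subset h1).trans_lt (mk_range_le.trans_lt ?_)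
    rw [mk_prod, lift_id, lift_id]
    refine mul_lt_of_lt aleph0_le_continuum ?_ hM
    rw [mk_nat]
    exact aleph0_lt_continuum
  have hle : cov Mgr ≤ #F := csInf_le' ⟨F, hFM, rfl, hFU⟩
  rw [hcov] at hle
  exact absurd hle (not_le.2 hFc)

lemma mk_R : #R = continuum := by
  simp [R]

/-- The chain exists. -/
theorem chain_exists' (hW : WFN) (hreg : Cardinal.IsRegular Cardinal.continuum.{0})
    (hcov : cov Mgr = Cardinal.continuum) (F : ℕ → R → R) (D : ℕ → R → Set (List ℕ))
    (E : Set R) (hE : #E < Cardinal.continuum) :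
    ∃ (I : Type) (_ : LinearOrder I) (_ : WellFoundedLT I) (M : I → Set R) (g : I → R),
      Chain F D M g ∧ Nonempty I ∧ (∀ i, E ⊆ M i) ∧ #I = Cardinal.continuum ∧
      (∀ i, #(M i) < Cardinal.continuum) ∧
      (∀ X : Set R, #X < Cardinal.continuum → ∃ i, X ⊆ M i) := by
  classical
  obtain ⟨f, hfc, hf⟩ := hW
  have hfne : ∀ a, (f a).Nonempty := fun a => by
    obtain ⟨c, hc, _⟩ := hf a a subset_rfl
    exact ⟨c, hc⟩
  have hen : ∀ a, ∃ u : ℕ → Set ℕ, f a = Set.range u := fun a => (hfc a).exists_eq_range (hfne a)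
  choose u hu using hen
  let op1 : ℕ → R → R := fun k x => if k % 2 = 0 then F (k / 2) x else ch (u (Pre x) (k / 2))
  have hRreg : (#R).IsRegular := by rw [mk_R]; exact hreg
  have hRunc : ℵ₀ < #R := by rw [mk_R]; exact aleph0_lt_continuum
  have hE' : #(insert (0 : R) E : Set R) < #R := by
    rw [mk_R]
    refine mk_insert_le.trans_lt (add_lt_of_lt aleph0_le_continuum hE ?_)
    exact one_lt_aleph0.trans aleph0_lt_continuum
  obtain ⟨I, hlin, hwf, M, g, hne, hI, hmono, h2, h1, hcover, hgmem, hcard, hcoh, hlim, hEM, hX,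
      hnomax⟩ :=
    W1 hRreg hRunc pr op1 (insert (0 : R) E) hE'
      (fun M g => ∀ k, ∀ x ∈ M, Meets g (D k x)) (fun M hM => coh_exists hcov D M (by
        rwa [mk_R] at hM))
  rw [mk_R] at hI hX
  simp only [mk_R] at hcard
  refine ⟨I, hlin, hwf, M, g, ?_, hne, fun i => (subset_insert _ _).trans (hEM i), hI, hcard, hX⟩
  refine ⟨fun i => ⟨0, hEM i (mem_insert _ _)⟩, hnomax, hmono, h2, ?_, hcover, hgmem, ?_, hlim, ?_⟩
  · intro i k x hx
    have h := h1 i (2 * k) x hx
    simpa [op1] using h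
  · exact fun i k x hx => hcoh i k x hx
  · intro i T
    refine ⟨{z | z ∈ f T ∧ z ⊆ T ∧ ch z ∈ M i}, (hfc T).mono fun z hz => hz.1,
      fun z hz => hz.2, fun x hx hT => ?_⟩
    obtain ⟨c, hc1, hc2, hc3, hc4⟩ := hf (Pre x) T hT
    refine ⟨c, ⟨hc2, hc4, ?_⟩, hc3⟩
    rw [hu (Pre x)] at hc1
    obtain ⟨n, rfl⟩ := hc1
    have h := h1 i (2 * n + 1) x hx
    have h3 : (2 * n + 1) / 2 = n := by omega
    have h4 : (2 * n + 1) % 2 = 1 := by omega
    simpa [op1, h3, h4] using h

/-- The chain exists, in the form used by the assembly. -/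
theorem chain_exists (hW : WFN) (hreg : Cardinal.IsRegular Cardinal.continuum.{0})
    (hcov : cov Mgr = Cardinal.continuum) (F : ℕ → R → R) (D : ℕ → R → Set (List ℕ))
    (E : Set R) (hE : #E < Cardinal.continuum) :
    ∃ (I : Type) (_ : LinearOrder I) (_ : WellFoundedLT I) (M : I → Set R) (g : I → R),
      Chain F D M g ∧ Nonempty I ∧ (∀ i, E ⊆ M i) ∧ #I ≤ Cardinal.continuum ∧
      (∀ X : Set R, #X < Cardinal.continuum → ∃ i, X ⊆ M i) := by
  obtain ⟨I, h1, h2, M, g, h3, h4, h5, h6, _, h8⟩ := chain_exists' hW hreg hcov F D E hE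
  exact ⟨I, h1, h2, M, g, h3, h4, h5, h6.le, h8⟩

end Pool.Agent.Nm65
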