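import Pool.Agent.Nm65.Bor3
import Pool.Agent.Nm65.Core
import Pool.Agent.Nm65.W2

/-!
MP_50671f: Cohen ladders (natural formulation with arbitrary countable families of Borel operations
and Borel relations) and the derivation of chains.
-/

namespace Pool.Agent.Nm65

open MeasureTheory Set Cardinal

/-- A Cohen ladder along the linear order `I`: an increasing continuous family of sets of reals with
union all reals, each closed under pairing and the operations `F k`, with a real `g i` in all later
members which avoids all meager sections of the relations `W k` at members of `M i`, and such that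
below every `T ⊆ ω` there are countably many sets in `M i` below which all the subsets of `T` in
`M i` lie. -/
structure Ladder (I : Type) [LinearOrder I] (F : ℕ → R → R) (W : ℕ → Set (R × R)) (M : I → Set R)
    (g : I → R) : Prop where
  ne : ∀ i, (M i).Nonempty
  mono : ∀ i j, i ≤ j → M i ⊆ M j
  cover : ∀ x, ∃ i, x ∈ M i
  limit : ∀ i, Order.IsSuccLimit i → ∀ x ∈ M i, ∃ j, j < i ∧ x ∈ M j
  pair : ∀ i, ∀ x ∈ M i, ∀ y ∈ M i, pr x y ∈ M i
  closed : ∀ i k, ∀ x ∈ M i, F k x ∈ M i
  gmem : ∀ i j, i < j → g i ∈ M j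
  cohen : ∀ i k, ∀ x ∈ M i, IsMeagre {y | (x, y) ∈ W k} → (x, g i) ∉ W k
  embed : ∀ i, ∀ T : Set ℕ, ∃ Z : Set (Set ℕ), Z.Countable ∧ (∀ z ∈ Z, z ⊆ T ∧ ch z ∈ M i) ∧
    ∀ A : Set ℕ, A ⊆ T → ch A ∈ M i → ∃ z ∈ Z, A ⊆ z

/-- There are Cohen ladders along `I` for all countable families of Borel operations and Borel
relations. -/
def CohenLadder (I : Type) [LinearOrder I] : Prop :=
  ∀ (F : ℕ → R → R) (W : ℕ → Set (R × R)), (∀ k, Measurable (F k)) → (∀ k, MeasurableSet (W k)) →
    ∃ (M : I → Set R) (g : I → R), Ladder I F W M g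

lemma mb_Pre (n : ℕ) : Measurable fun x : R => n ∈ Pre x := by
  have : (fun x : R => n ∈ Pre x) = fun x : R => ∃ k, n = Encodable.encode (pre x k) := rfl
  rw [this]
  refine Measurable.exists fun k => ?_
  have h2 : (fun x : R => n = Encodable.encode (pre x k)) =
      fun x : R => ∃ t : List ℕ, (t.length = k ∧ n = Encodable.encode t) ∧ ∀ i, i < k → x i = ext t i := by
    funext x
    apply propext
    constructor
    · intro h
      exact ⟨pre x k, ⟨length_pre x k, h⟩, fun i hi => (ext_pre hi).symm⟩
    · rintro ⟨t, ⟨h1, h2⟩, h3⟩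
      rw [h2]
      congr 1
      apply List.ext_getElem
      · rw [h1, length_pre]
      · intro i hi1 hi2
        have h4 := h3 i (h1 ▸ hi1)
        simp [pre, h4, ext, List.getD_eq_getElem?_getD, hi1]
  rw [h2]
  refine Measurable.exists fun t => Measurable.and measurable_const ?_
  exact Measurable.forall fun i => measurable_const.imp (mb_p1 (fun v => v = ext t i) (mb_ev' mb_id i))

lemma mb_pre_eq {X : Type} [MeasurableSpace X] {f : X → R} (hf : Measurable f) (k : ℕ) (t : List ℕ) :
    Measurable fun x => pre (f x) k = t := by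
  have h2 : (fun x => pre (f x) k = t) = fun x => t.length = k ∧ ∀ i, i < k → f x i = ext t i := by
    funext x
    apply propext
    constructor
    · intro h
      rw [← h]
      exact ⟨length_pre _ k, fun i hi => (ext_pre hi).symm⟩
    · rintro ⟨h1, h3⟩
      apply List.ext_getElem
      · rw [h1, length_pre]
      · intro i hi1 hi2
        have h4 := h3 i (h1 ▸ hi2)
        simp [pre, h4, ext, List.getD_eq_getElem?_getD, hi2]
  rw [h2]
  exact measurable_const.and
    (Measurable.forall fun i => measurable_const.imp (mb_p1 (fun v => v = ext t i) (mb_ev' hf i)))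

/-- the Borel relation attached to a scheme of dense sets: the second real avoids the dense set -/
def WD (D : R → Set (List ℕ)) : Set (R × R) :=
  {p | (∀ s : List ℕ, ∃ t : List ℕ, s <+: t ∧ t ∈ D p.1) ∧ ∀ n, pre p.2 n ∉ D p.1}

lemma measurableSet_WD {D : R → Set (List ℕ)} (hD : ∀ s, Measurable fun x => s ∈ D x) : MeasurableSet (WD D) := by
  unfold WD
  apply Measurable.setOf
  refine Measurable.and ?_ ?_
  · exact Measurable.forall fun s => Measurable.exists fun t => measurable_const.and ((hD t).comp measurable_fst)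
  · refine Measurable.forall fun n => Measurable.not ?_
    have : (fun p : R × R => pre p.2 n ∈ D p.1) = fun p : R × R => ∃ t : List ℕ, pre p.2 n = t ∧ t ∈ D p.1 := by
      funext p
      simp
    rw [this]
    exact Measurable.exists fun t => (mb_pre_eq measurable_snd n t).and ((hD t).comp measurable_fst)

/-- the operations `F` preceded by `x ↦ ch (Pre x)` -/
noncomputable def FP (F : ℕ → R → R) : ℕ → R → R
  | 0 => fun x => ch (Pre x)
  | k + 1 => F k

lemma measurable_FP {F : ℕ → R → R} (hF : ∀ k, Measurable (F k)) (k : ℕ) : Measurable (FP F k) := by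
  match k with
  | 0 => exact mb_ch (X := R) (S := fun x => Pre x) mb_Pre
  | k + 1 => exact hF k

/-- a Cohen ladder gives a chain for all Borel operations and schemes of dense sets -/
theorem CohenLadder.chain {I : Type} [LinearOrder I] (hI : ∀ i : I, ∃ j, i < j) (h : CohenLadder I)
    (F : ℕ → R → R) (D : ℕ → R → Set (List ℕ)) (hF : ∀ k, Measurable (F k))
    (hD : ∀ k s, Measurable fun x => s ∈ D k x) : ∃ (M : I → Set R) (g : I → R), Chain F D M g := by
  obtain ⟨M, g, hL⟩ := h (FP F) (fun k => WD (D k)) (measurable_FP hF) fun k => measurableSet_WD (hD k)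
  refine ⟨M, g, ⟨hL.ne, hI, hL.mono, fun i x y hx hy => hL.pair i x hx y hy, fun i k x hx => hL.closed i (k + 1) x hx,
    hL.cover, hL.gmem, ?_, ?_, ?_⟩⟩
  · intro i k x hx hd
    by_contra hno
    push Not at hno
    refine hL.cohen i k x hx ?_ ⟨hd, hno⟩
    refine IsMeagre.mono ?_ (isMeagre_avoid (D k x) hd)
    exact fun y hy => hy.2
  · intro i h1 h2
    apply hL.limit i
    refine ⟨?_, ?_⟩
    · obtain ⟨j, hj⟩ := h1
      exact fun hm => absurd hj (not_lt.2 (hm hj.le))
    · intro j hj
      obtain ⟨k, hk1, hk2⟩ := h2 j hj.lt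
      exact hj.2 hk1 hk2
  · intro i T
    obtain ⟨Z, hZc, hZ, hZA⟩ := hL.embed i T
    refine ⟨Z, hZc, hZ, fun x hx hxT => hZA _ hxT ?_⟩
    exact hL.closed i 0 x hx

end Pool.Agent.Nm65
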