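import Pool.Agent.Nm65.CoreDefs

/-!
Non-meagerness from intervals (Talagrand, Jalali-Naini: the easy direction).
-/

namespace Pool.Agent.Nm65

open MeasureTheory Set Cardinal TopologicalSpace

lemma exists_cyl_subset {U : Set Cantor} (hU : IsOpen U) {z : Cantor} (hz : z ∈ U) :
    ∃ b : ℕ, ∀ x : Cantor, (∀ k < b, x k = z k) → x ∈ U := by
  obtain ⟨F, u, hu, hsub⟩ := isOpen_pi_iff.1 hU z hz
  refine ⟨F.sup id + 1, fun x hx => hsub ?_⟩
  intro a ha
  have hle : a ≤ F.sup id := Finset.le_sup (f := id) ha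
  rw [hx a (by omega)]
  exact (hu a ha).2

lemma exists_pattern {U : Set Cantor} (hU : IsOpen U) (hd : Dense U) (n : ℕ) :
    ∃ (b : ℕ) (s : Cantor), n ≤ b ∧ ∀ x : Cantor, (∀ k, n ≤ k → k < b → x k = s k) → x ∈ U := by
  have key : ∀ T : Finset (Fin n → Bool), ∃ (b : ℕ) (s : Cantor), n ≤ b ∧
      ∀ x : Cantor, (fun i : Fin n => x i) ∈ T → (∀ k, n ≤ k → k < b → x k = s k) → x ∈ U := by
    classical
    intro T
    induction T using Finset.induction_on with
    | empty => exact ⟨n, fun _ => false, le_rfl, fun x hx => by simp at hx⟩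
    | insert τ T0 _ ih =>
      obtain ⟨b0, s0, hb0, h0⟩ := ih
      set y : Cantor := fun k => if h : k < n then τ ⟨k, h⟩ else s0 k with hy
      obtain ⟨z, hz1, hz2⟩ := hd.inter_open_nonempty (cylF (Finset.range b0) y)
        (isClopen_cylF _ _).isOpen ⟨y, fun _ _ => rfl⟩
      obtain ⟨b1, hb1⟩ := exists_cyl_subset hU hz2
      refine ⟨max b0 b1, z, hb0.trans (le_max_left _ _), ?_⟩
      intro x hx hxz
      rw [Finset.mem_insert] at hx
      rcases hx with hx | hx
      · refine hb1 x fun k hk => ?_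
        rcases lt_or_ge k n with h | h
        · have h1 : x k = τ ⟨k, h⟩ := by rw [← hx]
          have h2 : z k = y k := hz1 k (Finset.mem_range.2 (lt_of_lt_of_le h hb0))
          rw [h1, h2, hy]
          simp [h]
        · exact hxz k h (lt_of_lt_of_le hk (le_max_right _ _))
      · refine h0 x hx fun k h1 h2 => ?_
        rw [hxz k h1 (lt_of_lt_of_le h2 (le_max_left _ _)), hz1 k (Finset.mem_range.2 h2), hy]
        simp [not_lt.2 h1]
  obtain ⟨b, s, hb, h⟩ := key Finset.univ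
  exact ⟨b, s, hb, fun x hx => h x (Finset.mem_univ _) hx⟩

theorem nonMeager_of_intervals {J : Set (Set ℕ)} (hJ : IsIdeal J)
    (h : ∀ h : R, ∃ X ∈ J, ∀ m, ∃ n, m ≤ n ∧ ∀ k, n ≤ k → k ≤ h n → k ∈ X) : NonMeager J := by
  intro hm
  obtain ⟨t, hts, htG, htd⟩ := mem_residual.1 hm
  obtain ⟨f, hfo, rfl⟩ := isGδ_iff_eq_iInter_nat.1 htG
  have hUo : ∀ n : ℕ, IsOpen (⋂ j ∈ Finset.range (n + 1), f j) := fun n =>
    isOpen_biInter_finset fun j _ => hfo j
  have hUd : ∀ n : ℕ, Dense (⋂ j ∈ Finset.range (n + 1), f j) := fun n =>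
    htd.mono (by intro x hx; simp only [mem_iInter] at hx ⊢; intro j _; exact hx j)
  choose b s hb hs using fun n => exists_pattern (hUo n) (hUd n) n
  obtain ⟨X, hX, hint⟩ := h b
  choose nx hnx1 hnx2 using hint
  have hqex : ∃ q : ℕ → ℕ, q 0 = nx 0 ∧ ∀ i, q (i + 1) = nx (b (q i) + 1) :=
    ⟨fun i => Nat.rec (nx 0) (fun _ p => nx (b p + 1)) i, rfl, fun _ => rfl⟩
  obtain ⟨q, hq0, hq1⟩ := hqex
  have hqP : ∀ i, ∀ k, q i ≤ k → k ≤ b (q i) → k ∈ X := by
    intro i
    cases i with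
    | zero => rw [hq0]; exact hnx2 0
    | succ i => rw [hq1]; exact hnx2 _
  have hqlt : ∀ i, b (q i) < q (i + 1) := by
    intro i
    rw [hq1]
    exact hnx1 _
  have hqm : StrictMono q := strictMono_nat_of_lt_succ fun i => (hb _).trans_lt (hqlt i)
  have hxex : ∃ x : Cantor, ∀ k, x k = true ↔
      ∃ i : ℕ, q i ≤ k ∧ k < b (q i) ∧ s (q i) k = true := by
    classical
    exact ⟨fun k => decide (∃ i : ℕ, q i ≤ k ∧ k < b (q i) ∧ s (q i) k = true), fun k => by simp⟩
  obtain ⟨x, hxk⟩ := hxex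
  have hx1 : ∀ i k, q i ≤ k → k < b (q i) → x k = s (q i) k := by
    intro i k h1 h2
    by_cases hs' : s (q i) k = true
    · rw [hs']
      exact (hxk k).2 ⟨i, h1, h2, hs'⟩
    · have hs'' : s (q i) k = false := by simpa using hs'
      rw [hs'', Bool.eq_false_iff]
      intro hcon
      obtain ⟨i', h3, h4, h5⟩ := (hxk k).1 hcon
      rcases lt_trichotomy i i' with hlt | heq | hgt
      · have := (hqlt i).trans_le (hqm.monotone hlt)
        omega
      · subst heq; exact hs' h5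
      · have := (hqlt i').trans_le (hqm.monotone hgt)
        omega
  have hxt : x ∈ ⋂ n, f n := by
    rw [mem_iInter]
    intro j
    have hj : j ≤ q j := hqm.le_apply
    have := hs (q j) x (fun k h1 h2 => hx1 j k h1 h2)
    simp only [mem_iInter] at this
    exact this j (Finset.mem_range.2 (by omega))
  refine hts hxt ?_
  refine hJ.1 X hX _ ?_
  intro k hk
  obtain ⟨i, h1, h2, _⟩ := (hxk k).1 hk
  exact hqP i k h1 h2.le

end Pool.Agent.Nm65
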