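import Pool.Agent.Nm65.CoreDefs

/-!
The classical criterion for non-meager ideals (easy direction): if for every `h` some member of
the ideal contains infinitely many intervals `[n, h n]` then the ideal is not meager
(MP_50671f).
-/

namespace Pool.Agent.Nm65.N47

open Set

/-- One step: extend a point so that a longer cylinder avoids a nowhere dense set. -/
lemma avoid_step {C : Set Cantor} (hC : IsNowhereDense C) (x : Cantor) (m : ℕ) :
    ∃ (m' : ℕ) (y : Cantor), m ≤ m' ∧ (∀ i < m, y i = x i) ∧ ∀ z : Cantor, (∀ i < m', z i = y i) → z ∉ C := by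
  have h1 : (closure C)ᶜ ∩ PiNat.cylinder x m |>.Nonempty := by
    have hd : Dense (closure C)ᶜ := by
      rw [← interior_eq_empty_iff_dense_compl]; exact hC
    rw [inter_comm]
    exact hd.inter_open_nonempty _ (PiNat.isOpen_cylinder _ x m) ⟨x, PiNat.self_mem_cylinder x m⟩
  obtain ⟨y, hy1, hy2⟩ := h1
  have h2 := (PiNat.isTopologicalBasis_cylinders (fun _ => Bool)).isOpen_iff.1
    (isClosed_closure (s := C)).isOpen_compl y hy1
  obtain ⟨_, ⟨w, k, rfl⟩, hyw, hsub⟩ := h2
  refine ⟨max m k, y, le_max_left _ _, hy2, fun z hz hzC => ?_⟩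
  have hzw : z ∈ PiNat.cylinder w k := fun i hi => by
    rw [hz i (hi.trans_le (le_max_right _ _))]
    exact hyw i hi
  exact hsub hzw (subset_closure hzC)

/-- Finitely many steps. -/
lemma avoid_list (n : ℕ) (L : List (Set Cantor × Cantor)) (hL : ∀ p ∈ L, IsNowhereDense p.1) :
    ∃ (m : ℕ) (t : Cantor), n ≤ m ∧ ∀ p ∈ L, ∀ z : Cantor, (∀ i < n, z i = p.2 i) →
      (∀ i, n ≤ i → i < m → z i = t i) → z ∉ p.1 := by
  induction L with
  | nil => exact ⟨n, fun _ => false, le_rfl, by simp⟩
  | cons p L ih =>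
    obtain ⟨m, t, hm, h1⟩ := ih fun q hq => hL q (List.mem_cons_of_mem _ hq)
    obtain ⟨m', y, hm', hy, h2⟩ := avoid_step (hL p List.mem_cons_self)
      (fun i => if i < n then p.2 i else t i) m
    refine ⟨m', y, hm.trans hm', ?_⟩
    intro q hq z hz1 hz2
    rcases List.mem_cons.1 hq with rfl | hq
    · refine h2 z fun i hi => ?_
      by_cases hin : i < n
      · rw [hz1 i hin, hy i (hin.trans_le hm), if_pos hin]
      · exact hz2 i (not_lt.1 hin) hi
    · refine h1 q hq z hz1 fun i hi1 hi2 => ?_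
      rw [hz2 i hi1 (hi2.trans_le hm'), hy i hi2, if_neg (not_lt.2 hi1)]

/-- For countably many nowhere dense sets, the interval patterns. -/
lemma patterns (N : ℕ → Set Cantor) (hN : ∀ k, IsNowhereDense (N k)) :
    ∃ (h : ℕ → ℕ) (t : ℕ → Cantor), ∀ n k, k ≤ n → ∀ z : Cantor,
      (∀ i, n ≤ i → i < h n → z i = t n i) → z ∉ N k := by
  classical
  have key : ∀ n : ℕ, ∃ (m : ℕ) (t : Cantor), ∀ k, k ≤ n → ∀ z : Cantor,
      (∀ i, n ≤ i → i < m → z i = t i) → z ∉ N k := by
    intro n
    let E : (Fin n → Bool) → Cantor := fun s i => if h : i < n then s ⟨i, h⟩ else false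
    obtain ⟨m, t, _, h⟩ := avoid_list n
      (((Finset.range (n + 1)) ×ˢ (Finset.univ : Finset (Fin n → Bool))).toList.map
        fun p => (N p.1, E p.2)) (by
          intro p hp
          obtain ⟨q, _, rfl⟩ := List.mem_map.1 hp
          exact hN _)
    refine ⟨m, t, fun k hk z hz => ?_⟩
    refine h (N k, E fun i => z i) ?_ z ?_ hz
    · refine List.mem_map.2 ⟨(k, fun i => z i), ?_, rfl⟩
      simp only [Finset.mem_toList, Finset.mem_product, Finset.mem_range, Finset.mem_univ,
        and_true]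
      omega
    · intro i hi
      simp [E, hi]
  choose h t ht using key
  exact ⟨h, t, ht⟩

/-- The criterion. -/
theorem nonMeager_of_intervals {J : Set (Set ℕ)} (hJ : ∀ A ∈ J, ∀ B, B ⊆ A → B ∈ J)
    (hint : ∀ h : R, ∃ X ∈ J, ∀ m, ∃ n, m ≤ n ∧ ∀ k, n ≤ k → k ≤ h n → k ∈ X) :
    NonMeager J := by
  classical
  intro hM
  obtain ⟨S, hS, hSc, hsub⟩ := isMeagre_iff_countable_union_isNowhereDense.1 hM
  have hS' : (insert ∅ S).Countable := hSc.insert _
  obtain ⟨N, hN⟩ := hS'.exists_eq_range (insert_nonempty _ _)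
  have hNd : ∀ k, IsNowhereDense (N k) := by
    intro k
    have : N k ∈ insert ∅ S := by rw [hN]; exact mem_range_self k
    rcases this with h | h
    · rw [h]; exact isNowhereDense_empty
    · exact hS _ h
  obtain ⟨h, t, ht⟩ := patterns N hNd
  obtain ⟨X, hX, hXi⟩ := hint h
  choose f hf1 hf2 using hXi
  -- the chosen intervals
  let u : ℕ → ℕ := fun i => Nat.rec (f 0) (fun _ r => f (max (r + 1) (h r))) i
  have hu1 : ∀ i, u (i + 1) = f (max (u i + 1) (h (u i))) := fun i => rfl
  have hustep : ∀ i, u i + 1 ≤ u (i + 1) ∧ h (u i) ≤ u (i + 1) := by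
    intro i
    have := hf1 (max (u i + 1) (h (u i)))
    rw [hu1]
    exact ⟨(le_max_left _ _).trans this, (le_max_right _ _).trans this⟩
  have humono : StrictMono u := strictMono_nat_of_lt_succ fun i => (hustep i).1
  have huX : ∀ i k, u i ≤ k → k ≤ h (u i) → k ∈ X := by
    intro i
    cases i with
    | zero => exact hf2 0
    | succ i => rw [hu1]; exact hf2 _
  have hdisj : ∀ i j k, u i ≤ k → k < h (u i) → u j ≤ k → k < h (u j) → i = j := by
    intro i j k h1 h2 h3 h4
    rcases lt_trichotomy i j with hij | hij | hij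
    · have := humono.monotone (Nat.succ_le_of_lt hij)
      have := (hustep i).2
      simp only [Nat.succ_eq_add_one] at *
      omega
    · exact hij
    · have := humono.monotone (Nat.succ_le_of_lt hij)
      have := (hustep j).2
      simp only [Nat.succ_eq_add_one] at *
      omega
  let P : ℕ → Prop := fun k => ∃ i, u i ≤ k ∧ k < h (u i) ∧ t (u i) k = true
  let y : Cantor := fun k : ℕ => @ite Bool (P k) (Classical.propDecidable _) true false
  have hyX : {n | y n = true} ∈ J := by
    refine hJ X hX _ fun n hn => ?_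
    have hn' : y n = true := hn
    have hP : P n := by
      by_contra hP
      simp [y, hP] at hn'
    obtain ⟨i, h1, h2, _⟩ := hP
    exact huX i n h1 h2.le
  have hy : y ∈ ⋃₀ S := hsub hyX
  obtain ⟨B, hB, hyB⟩ := hy
  have hBN : B ∈ insert ∅ S := mem_insert_of_mem _ hB
  rw [hN] at hBN
  obtain ⟨k, rfl⟩ := hBN
  refine ht (u k) k (humono.le_apply) y (fun i h1 h2 => ?_) hyB
  cases hti : t (u k) i with
  | true =>
    have hP : P i := ⟨k, h1, h2, hti⟩
    simp [y, hP]
  | false =>
    have hP : ¬ P i := by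
      rintro ⟨j, h3, h4, h5⟩
      have := hdisj k j i h1 h2 h3 h4
      subst this
      rw [hti] at h5
      exact absurd h5 (by simp)
    simp [y, hP]

end Pool.Agent.Nm65.N47
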