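import Pool.Agent.Nm65.Core2
import Pool.Agent.Nm65.Meager

/-!
Measure facts: sequences in OmegaBar, the covering sets, the bound for N*_J.
-/

namespace Pool.Agent.Nm65

open MeasureTheory Set Cardinal TopologicalSpace Filter

theorem omegaBar_of_blocks {c : ℕ → Set Cantor} (hc : ∀ n, IsClopen (c n)) {D : ℕ → Set Cantor}
    (hD : ∀ i, mu (D i) ≤ (1 / 2) ^ i) {k : ℕ → ℕ} (hk : ∀ b, ∃ N, ∀ n, N ≤ n → b ≤ k n)
    (hsub : ∀ n, c n ⊆ D (k n)) : OmegaBar c := by
  refine ⟨hc, ?_⟩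
  have hsum : ∑' i, mu {x | x ∈ D i} ≠ ⊤ := by
    have h1 : ∑' i, mu {x | x ∈ D i} ≤ ∑' i : ℕ, (1 / 2 : ENNReal) ^ i :=
      ENNReal.tsum_le_tsum fun i => hD i
    rw [ENNReal.tsum_geometric] at h1
    refine ne_top_of_le_ne_top ?_ h1
    rw [one_div, ENNReal.one_sub_inv_two]
    simp
  have h0 := measure_setOf_frequently_eq_zero hsum
  refine measure_mono_null ?_ h0
  intro x hx
  show ∃ᶠ n in atTop, x ∈ D n
  rw [Nat.frequently_atTop_iff_infinite]
  have hx' : {n | x ∈ c n}.Infinite := hx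
  refine Set.infinite_of_not_bddAbove ?_
  rintro ⟨b, hb⟩
  obtain ⟨N, hN⟩ := hk (b + 1)
  obtain ⟨n, hn, hlt⟩ := hx'.exists_gt N
  have h1 := hN n hlt.le
  have h2 : k n ≤ b := hb (hsub n hn)
  omega

/-- The union of the generic sets along blocks. -/
noncomputable def dP (g : R) : ℕ → Set Cantor := fun n => Dset g (idx g n)

lemma idx_tendsto (g : R) (b : ℕ) : ∀ n, st g b ≤ n → b ≤ idx g n := by
  intro n hn
  have h1 := idx_mono g hn
  rwa [idx_eq le_rfl (st_strictMono g (Nat.lt_succ_self b))] at h1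

theorem dP_omegaBar (g : R) : OmegaBar (dP g) :=
  omegaBar_of_blocks (fun n => isClopen_Dset g _) (fun i => mu_Dset g i)
    (k := idx g) (fun b => ⟨st g b, idx_tendsto g b⟩) (fun n => subset_rfl)

theorem OmegaBar.tendsto {c : ℕ → Set Cantor} (hc : OmegaBar c) :
    Tendsto (fun m => mu (⋃ n ≥ m, c n)) atTop (nhds 0) := by
  have hmeas : ∀ m, MeasurableSet (⋃ n ≥ m, c n) := fun m =>
    MeasurableSet.biUnion (Set.to_countable _) fun n _ => (hc.1 n).isOpen.measurableSet
  have hanti : Antitone (fun m => ⋃ n ≥ m, c n) := by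
    intro a b hab x hx
    simp only [mem_iUnion] at hx ⊢
    obtain ⟨n, hn, hxn⟩ := hx
    exact ⟨n, le_trans hab hn, hxn⟩
  have h1 := tendsto_measure_iInter_atTop (μ := mu) (fun m => (hmeas m).nullMeasurableSet) hanti
    ⟨0, measure_ne_top _ _⟩
  have h2 : (⋂ m, ⋃ n ≥ m, c n) = {x | {n | x ∈ c n}.Infinite} := by
    ext x
    simp only [mem_iInter, mem_iUnion]
    constructor
    · intro h
      refine Set.infinite_of_not_bddAbove ?_
      rintro ⟨b, hb⟩
      obtain ⟨n, hn, hxn⟩ := h (b + 1)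
      have h3 : n ≤ b := hb hxn
      have h4 : b + 1 ≤ n := hn
      omega
    · intro h m
      have h' : {n | x ∈ c n}.Infinite := h
      obtain ⟨n, hn, hlt⟩ := h'.exists_gt m
      exact ⟨n, hlt.le, hn⟩
  rw [h2, hc.2] at h1
  exact h1

theorem OmegaBar.null {c : ℕ → Set Cantor} (hc : OmegaBar c) (k : ℕ) :
    ∃ m, ∀ n, m ≤ n → mu (c n) ≤ (1 / 2) ^ k := by
  have hpos : (0 : ENNReal) < (1 / 2) ^ k := by
    refine ENNReal.pow_pos ?_ k
    simp
  have h := (hc.tendsto.eventually (gt_mem_nhds hpos)).exists_forall_of_atTop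
  obtain ⟨m, hm⟩ := h
  refine ⟨m, fun n hn => ?_⟩
  have h1 := hm m le_rfl
  refine le_trans (measure_mono ?_) h1.le
  intro x hx
  simp only [mem_iUnion]
  exact ⟨n, hn, hx⟩

/-- A code of a sequence in OmegaBar. -/
theorem OmegaBar.exists_code {c : ℕ → Set Cantor} (hc : OmegaBar c) :
    ∃ e : R, Null e ∧ ∀ n, (cl (e n) : Set Cantor) = c n := by
  have h : ∀ n, ∃ m, (cl m : Set Cantor) = c n := fun n => by
    obtain ⟨m, hm⟩ := cl_surj ⟨c n, hc.1 n⟩
    exact ⟨m, by rw [hm]; rfl⟩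
  choose e he using h
  refine ⟨e, fun k => ?_, he⟩
  obtain ⟨m, hm⟩ := hc.null k
  exact ⟨m, fun n hn => by rw [he n]; exact hm n hn⟩

variable {I : Type} [LinearOrder I] {M : I → Set R} {g : I → R}

/-- The bound for `N*_J`. -/
theorem Chain.NsJ_subset (hC : Chain opF opD M g) {α : I} {e : R} (he : e ∈ M α) (hl : Null e)
    {c : ℕ → Set Cantor} (hc : ∀ n, (cl (e n) : Set Cantor) = c n) :
    NsJ (JJ M g) c ⊆ NsJ (JJ M g) (dP (g α)) := by
  rintro x ⟨i, a, ha, N, hN⟩
  obtain ⟨k, hk⟩ := hC.nomax (max i α)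
  obtain ⟨a', ha', hsub, hst⟩ := hC.star ha α e he hl k ((le_max_left _ _).trans hk.le)
    (lt_of_le_of_lt (le_max_right _ _) hk)
  refine ⟨k, a', ha', st (g α) (idx (g α) N + 1), fun n hn hna hcon => hcon ?_⟩
  obtain ⟨n', hn', h1, h2⟩ := hst n hna
  have h3 : N ≤ n' := by
    have h4 := idx_tendsto (g α) (idx (g α) N + 1) n hn
    rw [← h1] at h4
    have h5 := (idx_spec (g α) n').1
    have h6 := (idx_spec (g α) N).2
    have h7 := (st_strictMono (g α)).monotone h4
    omega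
  have h8 : x ∈ c n' := by
    have := hN n' h3 hn'
    simpa using this
  rw [← hc n'] at h8
  exact h2 h8

/-! ### The covering sets -/

/-- An enumeration of binary words of length l. -/
noncomputable def wEq (l : ℕ) : (Fin l → Bool) ≃ Fin (2 ^ l) :=
  Fintype.equivFinOfCardEq (by simp)

/-- The code of the l-th block of x. -/
noncomputable def code (x : Cantor) (l : ℕ) : ℕ := (wEq l (fun i => x (Nat.pair l i))).val

lemma code_lt (x : Cantor) (l : ℕ) : code x l < 2 ^ l := (wEq l _).isLt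

/-- The sequence of clopen sets attached to a real e. -/
def cE (e : R) (l : ℕ) : Set Cantor := {x | code x l = e l % 2 ^ l}

lemma cE_eq (e : R) (l : ℕ) : ∃ s : Cantor,
    cE e l = cylF ((Finset.range l).image (fun i => Nat.pair l i)) s := by
  have hu : e l % 2 ^ l < 2 ^ l := Nat.mod_lt _ (by positivity)
  set w : Fin l → Bool := (wEq l).symm ⟨e l % 2 ^ l, hu⟩ with hw
  refine ⟨fun n => if h : n.unpair.2 < l then w ⟨n.unpair.2, h⟩ else false, ?_⟩
  ext x
  have h1 : x ∈ cE e l ↔ (fun i : Fin l => x (Nat.pair l i)) = w := by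
    rw [hw, Equiv.eq_symm_apply]
    unfold cE code
    rw [Fin.ext_iff]
    rfl
  rw [h1]
  constructor
  · intro h n hn
    rw [Finset.mem_image] at hn
    obtain ⟨i, hi, rfl⟩ := hn
    rw [Finset.mem_range] at hi
    have := congrFun h ⟨i, hi⟩
    simp only [Nat.unpair_pair, hi, dif_pos]
    exact this
  · intro h
    funext i
    have := h (Nat.pair l i) (Finset.mem_image.2 ⟨i, Finset.mem_range.2 i.2, rfl⟩)
    simpa using this

lemma cE_omegaBar (e : R) : OmegaBar (cE e) := by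
  refine omegaBar_of_blocks (D := cE e) (k := id) ?_ ?_ (fun b => ⟨b, fun n hn => hn⟩)
    (fun n => subset_rfl)
  · intro n
    obtain ⟨s, hs⟩ := cE_eq e n
    rw [hs]
    exact isClopen_cylF _ _
  · intro n
    obtain ⟨s, hs⟩ := cE_eq e n
    rw [hs, mu_cylF, Finset.card_image_of_injective, Finset.card_range]
    intro a b hab
    have := congrArg (fun v => v.unpair.2) hab
    simpa using this

/-- The slalom attached to a point. -/
def Sx (x : Cantor) : Set (ℕ × ℕ) := {p | p.2 ≠ code x p.1}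

lemma small_Sx (x : Cantor) : Small (Sx x) :=
  ⟨0, fun l _ => ⟨code x l, code_lt x l, fun h => h rfl⟩⟩

lemma mem_NJ_cE {x : Cantor} {e : R} (h : ∀ i a, Bs M g i a → ¬ Capt (Sx x) e a) :
    x ∈ NJ (JJ M g) (cE e) := by
  rintro ⟨i, a, ha, N, hN⟩
  refine h i a ha ⟨N, fun l hl hla => ?_⟩
  intro hcon
  exact hN l hl hla hcon.symm

end Pool.Agent.Nm65
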