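import Pool.Agent.Nm65.CoreDefs

/-!
The concrete closure operations and dense sets used in the separation theorem (MP_50671f).
-/

namespace Pool.Agent.Nm65

open MeasureTheory Set Cardinal TopologicalSpace Classical

/-- Components of coded tuples. -/
def c0 (v : ℕ) : ℕ := v.unpair.1
def c1 (v : ℕ) : ℕ := v.unpair.2.unpair.1
def c2 (v : ℕ) : ℕ := v.unpair.2.unpair.2.unpair.1
def c3 (v : ℕ) : ℕ := v.unpair.2.unpair.2.unpair.2.unpair.1
def c4 (v : ℕ) : ℕ := v.unpair.2.unpair.2.unpair.2.unpair.2.unpair.1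
def c5 (v : ℕ) : ℕ := v.unpair.2.unpair.2.unpair.2.unpair.2.unpair.2

/-- The slalom defined by a set z of codes of finite sequences of pairs (e, a). -/
def Sz (z : R) : Set (ℕ × ℕ) :=
  {p | ∃ t : List ℕ, Encodable.encode t ∈ St z ∧ p.1 < t.length ∧
    (ext t p.1).unpair.2 ≠ 0 ∧ (ext t p.1).unpair.1 % 2 ^ p.1 = p.2}

/-- The finite sequence t of tuples (e, a, h, c, w, nx) certifies that l is in a ∩ BB g h c a,
with l in block i of g. -/
def Cert (g : R) (i : ℕ) (t : List ℕ) (l : ℕ) : Prop :=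
  l < t.length ∧ st g i ≤ l ∧ c2 (ext t l) < st g (i + 1) ∧ (∀ m < st g i, c2 (ext t m) < l) ∧
    c1 (ext t l) ≠ 0 ∧
    ∃ n, n < t.length ∧ c1 (ext t n) ≠ 0 ∧ c2 (ext t n) < st g (i + 1) ∧
      (∀ m < st g i, c2 (ext t m) < n) ∧ (cl (c3 (ext t n)) : Set Cantor) ⊆ Dset g i

/-- A code of the union of two coded clopen sets. -/
noncomputable def uc (x : R) : R := fun n => (cl_surj (cl (x n).unpair.1 ⊔ cl (x n).unpair.2)).choose

lemma cl_uc (c c' : R) (n : ℕ) : cl (uc (pr c c') n) = cl (c n) ⊔ cl (c' n) := by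
  have := (cl_surj (cl (pr c c' n).unpair.1 ⊔ cl (pr c c' n).unpair.2)).choose_spec
  simpa [uc, pr] using this

/-- Modulus of a null sequence. -/
noncomputable def modu (c : R) : R := fun k =>
  if h : ∃ m, ∀ n, m ≤ n → mu (cl (c n) : Set Cantor) ≤ (1 / 2) ^ k then Nat.find h else 0

lemma modu_spec {c : R} (hc : Null c) (k n : ℕ) (h : modu c k ≤ n) :
    mu (cl (c n) : Set Cantor) ≤ (1 / 2) ^ k := by
  unfold modu at h
  rw [dif_pos (hc k)] at h
  exact Nat.find_spec (hc k) n h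

/-- Next element of an infinite set. -/
noncomputable def nxt (a : R) : R := fun m =>
  if h : ∃ n, m ≤ n ∧ a n ≠ 0 then Nat.find h else 0

lemma nxt_spec {a : R} (ha : (St a).Infinite) (m : ℕ) : m ≤ nxt a m ∧ a (nxt a m) ≠ 0 := by
  have h : ∃ n, m ≤ n ∧ a n ≠ 0 := by
    obtain ⟨n, hn, hm⟩ := ha.exists_gt m
    exact ⟨n, hm.le, hn⟩
  unfold nxt
  rw [dif_pos h]
  exact Nat.find_spec h

lemma half_le_one' : (1 / 2 : ENNReal) ≤ 1 := by
  rw [one_div, ENNReal.inv_le_one]; norm_num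

/-- A null sequence of nonempty clopen sets. -/
lemma exists_nonemptyNull : ∃ c : R, Null c ∧ ∀ n, (cl (c n) : Set Cantor).Nonempty := by
  have hs : ∀ n : ℕ, ∃ m, (cl m : Set Cantor) = cylF (Finset.range n) (fun _ => false) := by
    intro n
    obtain ⟨m, hm⟩ := cl_surj ⟨cylF (Finset.range n) (fun _ => false), isClopen_cylF _ _⟩
    exact ⟨m, by rw [hm]; rfl⟩
  choose c hc using hs
  refine ⟨c, fun k => ⟨k, fun n hn => ?_⟩, fun n => ⟨fun _ => false, ?_⟩⟩
  · rw [hc n, mu_cylF, Finset.card_range]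
    exact pow_le_pow_of_le_one zero_le half_le_one' hn
  · rw [hc n]; intro i _; rfl

noncomputable def cNE : R := exists_nonemptyNull.choose

lemma null_cNE : Null cNE := exists_nonemptyNull.choose_spec.1

lemma cNE_nonempty (n : ℕ) : (cl (cNE n) : Set Cantor).Nonempty :=
  exists_nonemptyNull.choose_spec.2 n

/-- The closure operations. -/
noncomputable def opF : ℕ → R → R
  | 0 => fun x n => (x n).unpair.1
  | 1 => fun x n => (x n).unpair.2
  | 2 => fun x => opB (fun n => c0 (x n)) (fun n => c1 (x n)) (fun n => c2 (x n))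
      (fun n => (x n).unpair.2.unpair.2.unpair.2)
  | 3 => uc
  | 4 => fun x n => max (x n).unpair.1 (x n).unpair.2
  | 5 => fun x n => (x ((x n).unpair.2)).unpair.1
  | 6 => fun x n => st x (idx x n + 1)
  | 7 => modu
  | 8 => nxt
  | 9 => fun x => ch {l | (x l).unpair.2.unpair.2 ≠ 0 ∧
      (l, (x l).unpair.2.unpair.1 % 2 ^ l) ∉ Sz (fun n => (x n).unpair.1)}
  | 10 => fun _ _ => 1
  | 11 => fun _ => cNE
  | _ => id

/-- The schemes of dense sets. -/
def opD (k : ℕ) (x : R) : Set (List ℕ) :=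
  match k.unpair.1 with
  | 0 => {s | ∃ i < s.length, ∃ n, k.unpair.2 ≤ n ∧ c2 (x n) ≠ 0 ∧
      (x n).unpair.2.unpair.2.unpair.2 ≠ 0 ∧
      (∀ m, m ≤ c0 (x n) → n ≤ c0 (x m) → st (ext s) i ≤ m ∧ m < st (ext s) (i + 1)) ∧
      (cl (c1 (x n)) : Set Cantor) ⊆ Dset (ext s) i}
  | 1 => {s | ∃ i < s.length, ∃ n, k.unpair.2 ≤ n ∧ st (ext s) i ≤ n ∧
      x n < st (ext s) (i + 1) ∧ Dset (ext s) i = ∅}
  | _ => {s | ∃ i < s.length, ∃ l, k.unpair.2 ≤ l ∧ ∀ u < 2 ^ l, ∃ t : List ℕ,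
      Encodable.encode t ∈ St x ∧ Cert (ext s) i t l ∧ c0 (ext t l) % 2 ^ l = u}

end Pool.Agent.Nm65
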