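import Pool.Agent.Nm65.Sep
import Pool.Agent.Nm65.W2
import Pool.Agent.Nm65.Desc3

/-!
Question 1 of MP_50671f under the weak Freese-Nation property.
-/

namespace Pool.Agent.Nm65

open MeasureTheory Set Cardinal TopologicalSpace Filter

theorem question1 (hW : WFN) (hreg : Cardinal.IsRegular Cardinal.continuum.{0})
    (hcov : cov Mgr = Cardinal.continuum) (hnon : non Mgr < Cardinal.continuum) :
    ∃ J : Set (Set ℕ), IsIdeal J ∧ NonMeager J ∧ add (calN J) ≤ cov (calN J) ∧
      cov (calN J) ≤ non Mgr ∧ add (calNs J) = Cardinal.continuum ∧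
      cof (calNs J) = Cardinal.continuum := by
  obtain ⟨E, hE, hEc⟩ := exists_non_Mgr
  obtain ⟨I, hI1, hI2, M, g, hC, hne, hEM, hI, hX⟩ :=
    chain_exists hW hreg hcov opF opD E (by rw [hEc]; exact hnon)
  have := sep1 hC (fun S hS => claim_meagre hC hEM hS) hE hI hX
  rw [hEc] at this
  exact ⟨_, this⟩

end Pool.Agent.Nm65
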