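import Pool.Agent.Nm65.QO83
import Pool.Agent.Nm65.Idx83
import Pool.Agent.Nm65.Lad3

/-!
Both questions of MP_50671f from Cohen ladders.
-/

namespace Pool.Agent.Nm65

open MeasureTheory Set Cardinal

lemma measurable_withOut (k : ℕ) (s : List ℕ) : Measurable fun x : R => s ∈ L83.withOut opD k x := by
  match k with
  | 0 =>
    have : (fun x : R => s ∈ L83.withOut opD 0 x) = fun x : R => ∃ k, k ≤ s.length ∧
        ¬ (x (Encodable.encode (s.take k)) ≠ 0) := rfl
    rw [this]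
    refine Measurable.exists fun k => measurable_const.and ?_
    exact mb_p1 (fun v => ¬ (v ≠ 0)) (mb_ev' mb_id _)
  | k + 1 => exact measurable_opD k s

/-- Question 1 from a Cohen ladder of regular length κ > ℵ₁. -/
theorem q1_of_ladder {κ : Cardinal.{0}} (hκ : κ.IsRegular) (h1 : Order.succ ℵ₀ < κ)
    (h : CohenLadder κ.ord.ToType) :
    ∃ J : Set (Set ℕ), IsIdeal J ∧ NonMeager J ∧ add (calN J) ≤ cov (calN J) ∧
      cov (calN J) ≤ Order.succ ℵ₀ ∧ add (calNs J) = κ ∧ cof (calNs J) = κ := by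
  obtain ⟨M, g, hC⟩ := h.chain (Idx83.nomax_ord hκ.1) opF (L83.withOut opD) measurable_opF
    measurable_withOut
  exact sep1_long hC (by rw [mk_ord_toType]; exact h1) (mk_ord_toType κ).le
    (Idx83.cover_of_lt hκ hC.mono hC.cover)

/-- Question 2 from a Cohen ladder of length κ⁺ + κ. -/
theorem q2_of_ladder {κ : Cardinal.{0}} (hκ : ℵ₀ ≤ κ)
    (h : CohenLadder ((Order.succ κ).ord + κ.ord).ToType) :
    ∃ J : Set (Set ℕ), IsIdeal J ∧ NonMeager J ∧ cof (calNs J) ≤ κ ∧ κ < non (calN J) ∧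
      non (calN J) ≤ cof (calN J) := by
  obtain ⟨M, g, hC⟩ := h.chain (Idx83.nomax_add hκ) opF (L83.withOut opD) measurable_opF
    measurable_withOut
  obtain ⟨i0, h1, h2, h3, h4⟩ := Idx83.point_add hκ
  exact sep2_long hC hκ h1 h2 h3 h4

end Pool.Agent.Nm65
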