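import Pool.Agent.Nm65.Sep
import Pool.Agent.Nm65.W2
import Pool.Agent.Nm65.Desc3
import Pool.Agent.Nm65.L83

/-!
Question 1 of MP_50671f from the weak Freese-Nation property, cov(meager) = c regular and
`ℵ₁ < c`: the hypothesis `non(meager) < c` is not needed.
-/

namespace Pool.Agent.Nm65

open MeasureTheory Set Cardinal TopologicalSpace Filter

/-- Separation in a chain of length greater than ℵ₁. -/
theorem sep1_long {I : Type} [LinearOrder I] [WellFoundedLT I] {M : I → Set R} {g : I → R}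
    (hC : Chain opF (L83.withOut opD) M g) {κ : Cardinal} (h1 : Order.succ ℵ₀ < #I) (hI : #I ≤ κ)
    (hX : ∀ X : Set R, #X < κ → ∃ i, X ⊆ M i) :
    ∃ J : Set (Set ℕ), IsIdeal J ∧ NonMeager J ∧ add (calN J) ≤ cov (calN J) ∧
      cov (calN J) ≤ Order.succ ℵ₀ ∧ add (calNs J) = κ ∧ cof (calNs J) = κ := by
  obtain ⟨i0, hcard, hne, hlim, hb⟩ := L83.exists_point I le_rfl h1
  set E : Set R := g '' Iio i0 with hEdef
  have hE1 : #E ≤ Order.succ ℵ₀ := mk_image_le.trans hcard.le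
  have hE2 : ¬ IsMeagre E := by
    intro hm
    obtain ⟨j, hj, hav⟩ := hC.avoid le_rfl hne hlim hb {E} (by
      rw [mk_singleton]; exact one_le_aleph0) (by
      intro m hm'
      rw [mem_singleton_iff] at hm'
      rw [hm']; exact hm)
    exact hav j le_rfl hj E rfl ⟨j, hj, rfl⟩
  have hC' := (hC.ofOut).restrict i0
  have : Nonempty {i // i0 ≤ i} := ⟨⟨i0, le_rfl⟩⟩
  have hEM : ∀ i : {i // i0 ≤ i}, E ⊆ M i.1 := by
    rintro i _ ⟨a, ha, rfl⟩
    exact hC.gmem a i.1 (lt_of_lt_of_le ha i.2)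
  have hsep := sep1 hC' (fun S hS => claim_meagre hC' hEM hS) hE2 (κ := κ)
    ((mk_subtype_le _).trans hI) (fun X hXc => by
      obtain ⟨i, hi⟩ := hX X hXc
      exact ⟨⟨max i i0, le_max_right _ _⟩, hi.trans (hC.mono _ _ (le_max_left _ _))⟩)
  obtain ⟨a1, a2, a3, a4, a5, a6⟩ := hsep
  exact ⟨_, a1, a2, a3, a4.trans hE1, a5, a6⟩

/-- The dual separation, in a chain with a point i0 such that any κ points below i0 are bounded
below i0, and at most κ points above i0. -/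
theorem sep2_long {I : Type} [LinearOrder I] [WellFoundedLT I] {M : I → Set R} {g : I → R}
    (hC : Chain opF (L83.withOut opD) M g) {κ : Cardinal} (hκ : ℵ₀ ≤ κ) {i0 : I}
    (hne : ∃ j, j < i0) (hlim : ∀ j, j < i0 → ∃ k, j < k ∧ k < i0)
    (hb : ∀ (S : Set I), #S ≤ κ → (∀ x ∈ S, x < i0) → ∃ j, j < i0 ∧ ∀ x ∈ S, x ≤ j)
    (hI : #{i // i0 ≤ i} ≤ κ) :
    ∃ J : Set (Set ℕ), IsIdeal J ∧ NonMeager J ∧ cof (calNs J) ≤ κ ∧ κ < non (calN J) ∧
      non (calN J) ≤ cof (calN J) := by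
  set E : Set R := g '' Iio i0 with hEdef
  have hC' := (hC.ofOut).restrict i0
  have : Nonempty {i // i0 ≤ i} := ⟨⟨i0, le_rfl⟩⟩
  have hEM : ∀ i : {i // i0 ≤ i}, E ⊆ M i.1 := by
    rintro i _ ⟨a, ha, rfl⟩
    exact hC.gmem a i.1 (lt_of_lt_of_le ha i.2)
  have hbig : ∀ G : Set (Set R), (∀ Y ∈ G, IsMeagre Y) → #G < Order.succ κ → ¬ E ⊆ ⋃₀ G := by
    intro G hG hGc hsub
    obtain ⟨j, hj, hav⟩ := hC.avoid hκ hne hlim hb G (Order.lt_succ_iff.1 hGc) hG
    obtain ⟨Y, hY, hgY⟩ := hsub ⟨j, hj, rfl⟩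
    exact hav j le_rfl hj Y hY hgY
  have h1 := le_nonN hC' (fun S hS => claim_meagre hC' hEM hS) hbig
  have h2 := hC'.cofNs_le
  refine ⟨_, hC'.isIdeal, hC'.nonMeager, h2.trans hI, Order.succ_le_iff.1 h1, ?_⟩
  exact non_le_cof (by
    rintro A ⟨c, hc, hA⟩ B hB
    exact ⟨c, hc, hB.trans hA⟩) (univ_not_mem_calN hC'.isIdeal)

/-- Question 1. -/
theorem question1' (hW : WFN) (hreg : Cardinal.IsRegular Cardinal.continuum.{0})
    (hcov : cov Mgr = Cardinal.continuum) (h1 : Order.succ ℵ₀ < Cardinal.continuum.{0}) :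
    ∃ J : Set (Set ℕ), IsIdeal J ∧ NonMeager J ∧ add (calN J) ≤ cov (calN J) ∧
      cov (calN J) ≤ Order.succ ℵ₀ ∧ add (calNs J) = Cardinal.continuum ∧
      cof (calNs J) = Cardinal.continuum := by
  obtain ⟨I, hI1, hI2, M, g, hC, hne, hEM, hI, hMc, hX⟩ :=
    chain_exists' hW hreg hcov opF (L83.withOut opD) ∅ (by
      rw [mk_eq_zero]; exact continuum_pos)
  exact sep1_long hC (by rw [hI]; exact h1) hI.le hX

end Pool.Agent.Nm65
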