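import Pool.Agent.Nm65.Basic

/-!
The separation theorem from a chain (MP_50671f).
-/

namespace Pool.Agent.Nm65

open MeasureTheory Set Cardinal TopologicalSpace Filter

variable {I : Type} [LinearOrder I] {M : I → Set R} {g : I → R}

/-- The claim: small slaloms capture only a meager set of reals of E. -/
def ClaimM (M : I → Set R) (g : I → R) (E : Set R) : Prop :=
  ∀ S, Small S → IsMeagre {e | e ∈ E ∧ ∃ i a, Bs M g i a ∧ Capt S e a}

lemma Chain.nonMeager [WellFoundedLT I] [Nonempty I] (hC : Chain opF opD M g) :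
    NonMeager (JJ M g) := nonMeager_of_intervals hC.isIdeal hC.intervals

lemma Chain.unionNs (hC : Chain opF opD M g) {F : Set (Set Cantor)} (hF : F ⊆ calNs (JJ M g))
    (hX : ∀ X : Set R, #X ≤ #F → ∃ i, X ⊆ M i) : ⋃₀ F ∈ calNs (JJ M g) := by
  have h : ∀ Y : F, ∃ e : R, Null e ∧ ∃ c : ℕ → Set Cantor, (∀ n, (cl (e n) : Set Cantor) = c n) ∧
      (Y : Set Cantor) ⊆ NsJ (JJ M g) c := by
    rintro ⟨Y, hY⟩
    obtain ⟨c, hc, hsub⟩ := hF hY
    obtain ⟨e, he1, he2⟩ := hc.exists_code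
    exact ⟨e, he1, c, he2, hsub⟩
  choose e he c hc hsub using h
  obtain ⟨i, hi⟩ := hX (Set.range e) mk_range_le
  refine ⟨dP (g i), dP_omegaBar _, ?_⟩
  rintro x ⟨Y, hY, hxY⟩
  exact hC.NsJ_subset (hi ⟨⟨Y, hY⟩, rfl⟩) (he ⟨Y, hY⟩) (hc ⟨Y, hY⟩) (hsub ⟨Y, hY⟩ hxY)

lemma Chain.cofNs_le (hC : Chain opF opD M g) : cof (calNs (JJ M g)) ≤ #I := by
  have : #(Set.range fun i => NsJ (JJ M g) (dP (g i))) ≤ #I := mk_range_le
  refine (cof_le_of ?_ ?_).trans this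
  · rintro _ ⟨i, rfl⟩
    exact ⟨_, dP_omegaBar _, subset_rfl⟩
  · rintro A ⟨c, hc, hA⟩
    obtain ⟨e, he1, he2⟩ := hc.exists_code
    obtain ⟨i, hi⟩ := hC.cover e
    exact ⟨_, ⟨i, rfl⟩, hA.trans (hC.NsJ_subset hi he1 he2)⟩

lemma exists_cE {E : Set R} (hM : ClaimM M g E) (x : Cantor) (hE : ¬ IsMeagre E) :
    ∃ e ∈ E, x ∈ NJ (JJ M g) (cE e) := by
  by_contra hcon
  push Not at hcon
  refine hE ((hM (Sx x) (small_Sx x)).mono ?_)
  intro e he
  refine ⟨he, ?_⟩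
  by_contra hcon2
  push Not at hcon2
  exact hcon e he (mem_NJ_cE fun i a ha => hcon2 i a ha)

lemma covN_le [WellFoundedLT I] [Nonempty I] (hC : Chain opF opD M g) {E : Set R}
    (hM : ClaimM M g E) (hE : ¬ IsMeagre E) : cov (calN (JJ M g)) ≤ #E := by
  have h1 : #(Set.range fun e : E => NJ (JJ M g) (cE e)) ≤ #E := mk_range_le
  refine (cov_le_of ?_ ?_).trans h1
  · rintro _ ⟨e, rfl⟩
    exact ⟨_, cE_omegaBar _, subset_rfl⟩
  · refine Set.eq_univ_of_forall fun x => ?_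
    obtain ⟨e, he, hx⟩ := exists_cE hM x hE
    exact ⟨_, ⟨⟨e, he⟩, rfl⟩, hx⟩

/-- Sets of fewer than μ points are in `N_J`, when E is not the union of fewer than μ meager
sets. -/
lemma le_nonN [WellFoundedLT I] [Nonempty I] (hC : Chain opF opD M g) {E : Set R}
    (hM : ClaimM M g E) {κ : Cardinal}
    (hE : ∀ F : Set (Set R), (∀ Y ∈ F, IsMeagre Y) → #F < κ → ¬ E ⊆ ⋃₀ F) :
    κ ≤ non (calN (JJ M g)) := by
  refine le_csInf ⟨_, Set.univ, univ_not_mem_calN hC.isIdeal, rfl⟩ ?_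
  rintro _ ⟨A, hA, rfl⟩
  by_contra hcon
  rw [not_le] at hcon
  have h1 : #(Set.range fun x : A => {e | e ∈ E ∧ ∃ i a, Bs M g i a ∧ Capt (Sx x) e a}) < κ :=
    mk_range_le.trans_lt hcon
  have h2 := hE _ (by rintro _ ⟨x, rfl⟩; exact hM _ (small_Sx x)) h1
  rw [Set.not_subset] at h2
  obtain ⟨e, he, hne⟩ := h2
  refine hA ⟨cE e, cE_omegaBar e, fun x hx => mem_NJ_cE fun i a ha hcap => hne ?_⟩
  exact ⟨_, ⟨⟨x, hx⟩, rfl⟩, he, i, a, ha, hcap⟩

lemma univ_not_meagre : ¬ IsMeagre (Set.univ : Set R) := by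
  intro h
  have h' : (Set.univ : Set R)ᶜ ∈ residual R := h
  rw [Set.compl_univ] at h'
  have := dense_of_mem_residual h'
  simpa using this.nonempty

lemma exists_non_Mgr : ∃ E : Set R, ¬ IsMeagre E ∧ #E = non Mgr := by
  have hne : {κ : Cardinal | ∃ A : Set R, A ∉ Mgr ∧ #A = κ}.Nonempty :=
    ⟨_, Set.univ, univ_not_meagre, rfl⟩
  obtain ⟨A, hA, hc⟩ := csInf_mem hne
  exact ⟨A, hA, hc⟩

/-- Question 1, from a chain. -/
theorem sep1 [WellFoundedLT I] [Nonempty I] (hC : Chain opF opD M g) {E : Set R}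
    (hM : ClaimM M g E) (hE : ¬ IsMeagre E) {κ : Cardinal} (hI : #I ≤ κ)
    (hcov : ∀ X : Set R, #X < κ → ∃ i, X ⊆ M i) :
    IsIdeal (JJ M g) ∧ NonMeager (JJ M g) ∧ add (calN (JJ M g)) ≤ cov (calN (JJ M g)) ∧
      cov (calN (JJ M g)) ≤ #E ∧ add (calNs (JJ M g)) = κ ∧ cof (calNs (JJ M g)) = κ := by
  have hJ : IsIdeal (JJ M g) := hC.isIdeal
  have h1 : κ ≤ add (calNs (JJ M g)) := by
    refine le_add_of ⟨Set.range (fun x : Cantor => ({x} : Set Cantor)), ?_, ?_⟩ ?_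
    · rintro _ ⟨x, rfl⟩; exact singleton_mem_calNs hJ x
    · have : ⋃₀ (Set.range fun x : Cantor => ({x} : Set Cantor)) = Set.univ :=
        Set.eq_univ_of_forall fun x => ⟨{x}, ⟨x, rfl⟩, rfl⟩
      rw [this]
      exact univ_not_mem_calNs hJ
    · intro F hF hlt
      exact hC.unionNs hF fun X hX => hcov X (lt_of_le_of_lt hX hlt)
  have h2 : add (calNs (JJ M g)) ≤ cof (calNs (JJ M g)) :=
    add_le_cof (singleton_mem_calNs hJ) (univ_not_mem_calNs hJ)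
  have h3 : cof (calNs (JJ M g)) ≤ κ := hC.cofNs_le.trans hI
  exact ⟨hJ, hC.nonMeager, add_le_cov (singleton_mem_calN hJ) (univ_not_mem_calN hJ),
    covN_le hC hM hE, le_antisymm (h2.trans h3) h1, le_antisymm h3 (h1.trans h2)⟩

end Pool.Agent.Nm65
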