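import Pool.Agent.Nm65.Core

/-!
MP_50671f, forced form: topology of `I → R` (`I` arbitrary). Baire property of the space,
Kuratowski-Ulam for one coordinate, category quantifiers, measurable sets.
-/

namespace Pool.Agent.Nm65

open Set Filter Topology Function

variable {I : Type}

/-! ### general topology -/

section gen
variable {α : Type*} [TopologicalSpace α]

lemma bp_local {E : Set α} (hE : BaireMeasurableSet E) : ∀ᶠ x in residual α, x ∈ E →
    ∃ U, IsOpen U ∧ x ∈ U ∧ ∀ᶠ y in residual α, y ∈ U → y ∈ E := by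
  obtain ⟨u, hu, h⟩ := hE.residualEq_isOpen
  have h' : ∀ᶠ x in residual α, x ∈ E ↔ x ∈ u := h.mem_iff
  filter_upwards [h'] with x hx hxE
  exact ⟨u, hu, hx.1 hxE, h'.mono fun y hy hyu => hy.2 hyu⟩

/-- a nonempty open subset of a Baire space contains points of every residual set -/
lemma exists_mem_of_residual [BaireSpace α] {W : Set α} (hW : IsOpen W) (hne : W.Nonempty) {P : α → Prop}
    (h : ∀ᶠ x in residual α, P x) : ∃ x ∈ W, P x := by
  have hd : Dense {x | P x} := dense_of_mem_residual h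
  obtain ⟨x, hx, hxP⟩ := hd.inter_open_nonempty W hW hne
  exact ⟨x, hx, hxP⟩

lemma exists_forces [BaireSpace α] {ι : Type*} [Countable ι] {W : Set α} (hW : IsOpen W) (hne : W.Nonempty)
    {P : ι → α → Prop} (hP : ∀ j, BaireMeasurableSet {x | P j x})
    (h : ∀ᶠ x in residual α, x ∈ W → ∃ j, P j x) :
    ∃ j, ∃ W' ⊆ W, IsOpen W' ∧ W'.Nonempty ∧ ∀ᶠ x in residual α, x ∈ W' → P j x := by
  choose u hu hE using fun j => (hP j).residualEq_isOpen
  have hE' : ∀ᶠ x in residual α, ∀ j, (P j x ↔ x ∈ u j) := by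
    rw [eventually_countable_forall]
    exact fun j => (hE j).mem_iff
  obtain ⟨x, hxW, hx1, hx2⟩ := exists_mem_of_residual hW hne (h.and hE')
  obtain ⟨j, hj⟩ := hx1 hxW
  refine ⟨j, W ∩ u j, inter_subset_left, hW.inter (hu j), ⟨x, hxW, (hx2 j).1 hj⟩, ?_⟩
  filter_upwards [hE'] with y hy hyW
  exact (hy j).2 hyW.2

end gen

/-! ### basic open sets of `R` -/

/-- the basic open set given by a finite sequence -/
def Nb (q : List ℕ) : Set R := {e | ∀ i, i < q.length → e i = ext q i}

lemma Nb_nil : Nb [] = univ := by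
  ext e
  simp [Nb]

lemma isOpen_Nb (q : List ℕ) : IsOpen (Nb q) := by
  have : Nb q = ⋂ i ∈ Finset.range q.length, (fun e : R => e i) ⁻¹' {ext q i} := by
    ext e
    simp [Nb]
  rw [this]
  exact isOpen_biInter_finset fun i _ => (isOpen_discrete _).preimage (continuous_apply i)

lemma ext_mem_Nb (q : List ℕ) : ext q ∈ Nb q := fun _ _ => rfl

lemma nonempty_Nb (q : List ℕ) : (Nb q).Nonempty := ⟨_, ext_mem_Nb q⟩

lemma ext_prefix_eq {q q' : List ℕ} (h : q <+: q') {i : ℕ} (hi : i < q.length) : ext q' i = ext q i := by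
  obtain ⟨t, rfl⟩ := h
  exact ext_append_left hi

lemma Nb_anti {q q' : List ℕ} (h : q <+: q') : Nb q' ⊆ Nb q := by
  intro e he i hi
  rw [he i (hi.trans_le h.length_le), ext_prefix_eq h hi]

lemma mem_Nb_pre (e : R) (n : ℕ) : e ∈ Nb (pre e n) := by
  intro i hi
  rw [length_pre] at hi
  rw [ext_pre hi]

lemma Nb_pre_eq (e : R) (n : ℕ) : Nb (pre e n) = {y | ∀ i, i < n → y i = e i} := by
  ext y
  simp only [Nb, length_pre, mem_ofPred_eq]
  constructor
  · intro h i hi
    rw [h i hi, ext_pre hi]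
  · intro h i hi
    rw [h i hi, ext_pre hi]

lemma exists_Nb_subset {W : Set R} (hW : IsOpen W) {e : R} (he : e ∈ W) : ∃ n, ∀ m, n ≤ m → Nb (pre e m) ⊆ W := by
  rw [isOpen_pi_iff] at hW
  obtain ⟨F, u, hu, hF⟩ := hW e he
  refine ⟨F.sup id + 1, fun m hm => ?_⟩
  intro y hy
  rw [Nb_pre_eq] at hy
  apply hF
  intro i hi
  have : i ≤ F.sup id := Finset.le_sup (f := id) hi
  rw [hy i (by omega)]
  exact (hu i hi).2

lemma pre_prefix {e : R} {q : List ℕ} (he : e ∈ Nb q) {m : ℕ} (hm : q.length ≤ m) : q <+: pre e m := by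
  have h1 : q = pre e q.length := by
    apply List.ext_getElem
    · rw [length_pre]
    · intro i hi1 hi2
      have := he i hi1
      simp [pre, this, ext, List.getD_eq_getElem?_getD, hi1]
  have h2 : pre e q.length <+: pre e m := by
    unfold pre
    apply List.IsPrefix.map
    exact List.prefix_of_prefix_length_le (l₁ := List.range q.length) (l₂ := List.range m) (l₃ := List.range m)
      (by
        rw [show m = q.length + (m - q.length) by omega, List.range_add]
        exact List.prefix_append _ _) (List.prefix_refl _) (by simpa using hm)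
  exact (h1.symm ▸ h2 : q <+: pre e m)

/-- an open set which meets `Nb q` contains some `Nb q'` with `q'` extending `q` -/
lemma exists_ext_subset {W : Set R} (hW : IsOpen W) {q : List ℕ} (hne : (W ∩ Nb q).Nonempty) :
    ∃ q', q <+: q' ∧ Nb q' ⊆ W := by
  obtain ⟨e, heW, heq⟩ := hne
  obtain ⟨n, hn⟩ := exists_Nb_subset hW heW
  exact ⟨pre e (max n q.length), pre_prefix heq (le_max_right _ _), hn _ (le_max_left _ _)⟩

/-- Decide one of countably many properties below a condition. -/
lemma exists_forces_list {ι : Type*} [Countable ι] (q : List ℕ) {P : ι → R → Prop}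
    (hP : ∀ j, BaireMeasurableSet {x | P j x}) (h : ∀ᶠ e in residual R, e ∈ Nb q → ∃ j, P j e) :
    ∃ j, ∃ q', q <+: q' ∧ ∀ᶠ e in residual R, e ∈ Nb q' → P j e := by
  obtain ⟨j, W', hW', hW'o, hne, hW'P⟩ := exists_forces (isOpen_Nb q) (nonempty_Nb q) hP h
  obtain ⟨q', hq', hsub⟩ := exists_ext_subset hW'o (q := q) (by
    rwa [inter_eq_self_of_subset_left hW'])
  exact ⟨j, q', hq', hW'P.mono fun e he heq => he (hsub heq)⟩

/-! ### basic open sets of `I → R` -/

/-- the basic open sets -/
def Cyl (F : Finset I) (n : ℕ) (x : I → R) : Set (I → R) := {y | ∀ i ∈ F, ∀ k < n, y i k = x i k}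

lemma isOpen_Cyl (F : Finset I) (n : ℕ) (x : I → R) : IsOpen (Cyl F n x) := by
  have : Cyl F n x = ⋂ i ∈ F, ⋂ k ∈ Finset.range n, (fun y : I → R => y i k) ⁻¹' {x i k} := by
    ext e
    simp [Cyl]
  rw [this]
  refine isOpen_biInter_finset fun i _ => isOpen_biInter_finset fun k _ => ?_
  exact (isOpen_discrete _).preimage ((continuous_apply k).comp (continuous_apply i))

lemma self_mem_Cyl (F : Finset I) (n : ℕ) (x : I → R) : x ∈ Cyl F n x := fun _ _ _ _ => rfl

lemma exists_Cyl_subset {W : Set (I → R)} (hW : IsOpen W) {x : I → R} (hx : x ∈ W) :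
    ∃ (F : Finset I) (n : ℕ), ∀ F' n', F ⊆ F' → n ≤ n' → Cyl F' n' x ⊆ W := by
  rw [isOpen_pi_iff] at hW
  obtain ⟨F, u, hu, hF⟩ := hW x hx
  have h1 : ∀ i ∈ F, ∃ n, ∀ m, n ≤ m → Nb (pre (x i) m) ⊆ u i := fun i hi => exists_Nb_subset (hu i hi).1 (hu i hi).2
  choose! N hN using h1
  refine ⟨F, F.sup N, fun F' n' hF' hn' y hy => hF fun i hi => ?_⟩
  have h2 : N i ≤ n' := (Finset.le_sup (f := N) hi).trans hn'
  apply hN i hi n' h2
  rw [Nb_pre_eq]
  exact fun k hk => hy i (hF' hi) k hk

instance instBaireSpaceProd : BaireSpace (I → R) := by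
  classical
  refine ⟨fun f ho hd => ?_⟩
  rw [dense_iff_inter_open]
  intro W hW hWne
  -- refine a basic open set into the next dense open set
  have step : ∀ (j : ℕ) (F : Finset I) (n : ℕ) (x : I → R), ∃ (F' : Finset I) (n' : ℕ) (x' : I → R),
      F ⊆ F' ∧ n < n' ∧ x' ∈ Cyl F n x ∧ Cyl F' n' x' ⊆ f j := by
    intro j F n x
    obtain ⟨x', hx'1, hx'2⟩ := (hd j).inter_open_nonempty _ (isOpen_Cyl F n x) ⟨x, self_mem_Cyl F n x⟩
    obtain ⟨F', n', h⟩ := exists_Cyl_subset (ho j) hx'2
    exact ⟨F ∪ F', n + n' + 1, x', Finset.subset_union_left, by omega, hx'1,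
      h _ _ Finset.subset_union_right (by omega)⟩
  choose sF sn sx h1 h2 h3 h4 using step
  obtain ⟨x0, hx0⟩ := hWne
  obtain ⟨F0, n0, h0⟩ := exists_Cyl_subset hW hx0
  let T : ℕ → Finset I × ℕ × (I → R) := fun j => Nat.rec (F0, n0, x0)
    (fun j t => (sF j t.1 t.2.1 t.2.2, sn j t.1 t.2.1 t.2.2, sx j t.1 t.2.1 t.2.2)) j
  have hT : ∀ j, T (j + 1) = (sF j (T j).1 (T j).2.1 (T j).2.2, sn j (T j).1 (T j).2.1 (T j).2.2,
      sx j (T j).1 (T j).2.1 (T j).2.2) := fun j => rfl
  have hF : ∀ j, (T j).1 ⊆ (T (j + 1)).1 := fun j => by rw [hT]; exact h1 _ _ _ _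
  have hn : ∀ j, (T j).2.1 < (T (j + 1)).2.1 := fun j => by rw [hT]; exact h2 _ _ _ _
  have hx : ∀ j, (T (j + 1)).2.2 ∈ Cyl (T j).1 (T j).2.1 (T j).2.2 := fun j => by rw [hT]; exact h3 _ _ _ _
  have hf : ∀ j, Cyl (T (j + 1)).1 (T (j + 1)).2.1 (T (j + 1)).2.2 ⊆ f j := fun j => by
    rw [hT]; exact h4 _ _ _ _
  have hFm : ∀ j k, j ≤ k → (T j).1 ⊆ (T k).1 := fun j k hjk => by
    induction k, hjk using Nat.le_induction with
    | base => exact Finset.Subset.refl _
    | succ k _ ih => exact ih.trans (hF k)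
  have hnm : ∀ j k, j ≤ k → (T j).2.1 ≤ (T k).2.1 := fun j k hjk => by
    induction k, hjk using Nat.le_induction with
    | base => exact le_rfl
    | succ k _ ih => exact ih.trans (hn k).le
  have hxm : ∀ j k, j ≤ k → (T k).2.2 ∈ Cyl (T j).1 (T j).2.1 (T j).2.2 := fun j k hjk => by
    induction k, hjk using Nat.le_induction with
    | base => exact self_mem_Cyl _ _ _
    | succ k hjk ih =>
      intro i hi m hm
      rw [hx k i (hFm j k hjk hi) m (hm.trans_le (hnm j k hjk))]
      exact ih i hi m hm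
  -- the limit point
  let x : I → R := fun i m => if h : ∃ j, i ∈ (T j).1 ∧ m < (T j).2.1 then (T (Nat.find h)).2.2 i m else 0
  have hxT : ∀ j, x ∈ Cyl (T j).1 (T j).2.1 (T j).2.2 := by
    intro j i hi m hm
    have h : ∃ j, i ∈ (T j).1 ∧ m < (T j).2.1 := ⟨j, hi, hm⟩
    show (if h : ∃ j, i ∈ (T j).1 ∧ m < (T j).2.1 then (T (Nat.find h)).2.2 i m else 0) = _
    rw [dif_pos h]
    exact (hxm (Nat.find h) j (Nat.find_min' h ⟨hi, hm⟩) i (Nat.find_spec h).1 m (Nat.find_spec h).2).symm
  refine ⟨x, h0 _ _ (Finset.Subset.refl _) le_rfl (hxT 0), ?_⟩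
  rw [mem_iInter]
  exact fun j => hf j (hxT (j + 1))

/-! ### Kuratowski-Ulam for one coordinate -/

section ku
variable [DecidableEq I]

lemma continuous_upd (i : I) (r : R) : Continuous fun x : I → R => update x i r :=
  continuous_id.update i continuous_const

lemma continuous_upd' (x : I → R) (i : I) : Continuous fun r : R => update x i r :=
  continuous_const.update i continuous_id

lemma isOpen_sec {U : Set (I → R)} (hU : IsOpen U) (i : I) (x : I → R) : IsOpen {r | update x i r ∈ U} :=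
  hU.preimage (continuous_upd' x i)

lemma isOpen_proj {U : Set (I → R)} (hU : IsOpen U) (i : I) (B : Set R) :
    IsOpen {x : I → R | ∃ r ∈ B, update x i r ∈ U} := by
  have : {x : I → R | ∃ r ∈ B, update x i r ∈ U} = ⋃ r ∈ B, (fun x => update x i r) ⁻¹' U := by
    ext x
    simp
  rw [this]
  exact isOpen_biUnion fun r _ => hU.preimage (continuous_upd i r)

lemma dense_proj {U : Set (I → R)} (hd : Dense U) (i : I) {B : Set R} (hB : IsOpen B)
    (hne : B.Nonempty) : Dense {x : I → R | ∃ r ∈ B, update x i r ∈ U} := by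
  rw [dense_iff_inter_open]
  rintro W hW ⟨w, hw⟩
  obtain ⟨b, hb⟩ := hne
  have hV : IsOpen {z : I → R | z i ∈ B ∧ update z i (w i) ∈ W} :=
    (hB.preimage (continuous_apply i)).inter (hW.preimage (continuous_upd i (w i)))
  obtain ⟨z, hz, hzU⟩ := hd.inter_open_nonempty _ hV ⟨update w i b, by simpa using hb, by simpa using hw⟩
  refine ⟨update z i (w i), hz.2, z i, hz.1, ?_⟩
  simpa using hzU

lemma ku_open {U : Set (I → R)} (hU : IsOpen U) (hd : Dense U) (i : I) :
    ∀ᶠ x in residual (I → R), Dense {r | update x i r ∈ U} := by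
  have h : ∀ᶠ x in residual (I → R), ∀ q : List ℕ, ∃ r ∈ Nb q, update x i r ∈ U := by
    rw [eventually_countable_forall]
    exact fun q => residual_of_dense_open (isOpen_proj hU i _) (dense_proj hd i (isOpen_Nb q) (nonempty_Nb q))
  filter_upwards [h] with x hx
  rw [dense_iff_inter_open]
  rintro W hW ⟨e, he⟩
  obtain ⟨n, hn⟩ := exists_Nb_subset hW he
  obtain ⟨r, hr, hrU⟩ := hx (pre e n)
  exact ⟨r, hn n le_rfl hr, hrU⟩

/-- Kuratowski-Ulam -/
theorem ku {P : (I → R) → Prop} (h : ∀ᶠ x in residual (I → R), P x) (i : I) :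
    ∀ᶠ x in residual (I → R), ∀ᶠ r in residual R, P (update x i r) := by
  obtain ⟨S, hSo, hSd, hSc, hS⟩ := mem_residual_iff.1 h
  have h1 : ∀ᶠ x in residual (I → R), ∀ U ∈ S, Dense {r | update x i r ∈ U} := by
    rw [eventually_countable_ball hSc]
    exact fun U hU => ku_open (hSo U hU) (hSd U hU) i
  filter_upwards [h1] with x hx
  have h2 : ∀ᶠ r in residual R, ∀ U ∈ S, update x i r ∈ U := by
    rw [eventually_countable_ball hSc]
    exact fun U hU => residual_of_dense_open (isOpen_sec (hSo U hU) i x) (hx U hU)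
  filter_upwards [h2] with r hr
  exact hS (mem_sInter.2 hr)

/-- converse of Kuratowski-Ulam for sets with the Baire property -/
theorem ku_conv {P : (I → R) → Prop} (hP : BaireMeasurableSet {x | P x}) (i : I)
    (h : ∀ᶠ x in residual (I → R), ∀ᶠ r in residual R, P (update x i r)) :
    ∀ᶠ x in residual (I → R), P x := by
  obtain ⟨u, hu, hE⟩ := hP.compl.residualEq_isOpen
  have hE' : ∀ᶠ x in residual (I → R), (¬ P x ↔ x ∈ u) := hE.mem_iff
  by_cases hne : u.Nonempty
  · exfalso
    obtain ⟨x, hx, h1, h2⟩ := exists_mem_of_residual (isOpen_proj hu i univ)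
      (by
        obtain ⟨x, hx⟩ := hne
        exact ⟨x, x i, mem_univ _, by simpa using hx⟩) (h.and (ku hE' i))
    obtain ⟨r, _, hr⟩ := hx
    obtain ⟨r', hr', h3, h4⟩ := exists_mem_of_residual (isOpen_sec hu i x) ⟨r, hr⟩ (h1.and h2)
    exact (h4.2 hr') h3
  · rw [not_nonempty_iff_eq_empty] at hne
    filter_upwards [hE'] with x hx
    by_contra hc
    have := hx.1 hc
    rw [hne] at this
    exact this

/-- the category quantifier preserves the Baire property -/
theorem bp_cat {P : (I → R) → Prop} (hP : BaireMeasurableSet {x | P x}) (i : I) (q : List ℕ) :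
    BaireMeasurableSet {x : I → R | ∀ᶠ e in residual R, e ∈ Nb q → P (update x i e)} := by
  obtain ⟨u, hu, hE⟩ := hP.residualEq_isOpen
  have hE' : ∀ᶠ x in residual (I → R), (P x ↔ x ∈ u) := hE.mem_iff
  have hS : BaireMeasurableSet (⋂ q' : List ℕ, {x : I → R | q <+: q' → ∃ e ∈ Nb q', update x i e ∈ u}) := by
    apply BaireMeasurableSet.iInter
    intro q'
    by_cases h : q <+: q'
    · have : {x : I → R | q <+: q' → ∃ e ∈ Nb q', update x i e ∈ u} =
          {x : I → R | ∃ e ∈ Nb q', update x i e ∈ u} := by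
        ext x
        simp [h]
      rw [this]
      exact (isOpen_proj hu i _).baireMeasurableSet
    · have : {x : I → R | q <+: q' → ∃ e ∈ Nb q', update x i e ∈ u} = univ := by
        ext x
        simp [h]
      rw [this]
      exact isOpen_univ.baireMeasurableSet
  refine hS.congr ?_
  have hK := ku hE' i
  refine Filter.eventuallyEq_set.2 (hK.mono fun x hx => ?_)
  simp only [mem_iInter, mem_ofPred_eq]
  constructor
  · intro h1
    -- the section of u is dense in Nb q
    have h2 : ∀ᶠ e in residual R, e ∈ Nb q → update x i e ∈ u := by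
      have hd : Dense ({e | update x i e ∈ u} ∪ (closure (Nb q))ᶜ) := by
        rw [dense_iff_inter_open]
        rintro W hW ⟨w, hw⟩
        by_cases hc : w ∈ closure (Nb q)
        · obtain ⟨e, he⟩ := mem_closure_iff.1 hc W hW hw
          obtain ⟨q', hq', hsub⟩ := exists_ext_subset hW (q := q) ⟨e, he⟩
          obtain ⟨e', he', hu'⟩ := h1 q' hq'
          exact ⟨e', hsub he', Or.inl hu'⟩
        · exact ⟨w, hw, Or.inr hc⟩
      have ho : IsOpen ({e | update x i e ∈ u} ∪ (closure (Nb q))ᶜ) :=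
        (isOpen_sec hu i x).union isClosed_closure.isOpen_compl
      filter_upwards [residual_of_dense_open ho hd] with e he heq
      rcases he with he | he
      · exact he
      · exact absurd (subset_closure heq) he
    filter_upwards [h2, hx] with e he1 he2 heq
    exact he2.2 (he1 heq)
  · intro h1 q' hq'
    obtain ⟨e, he, h3, h4⟩ := exists_mem_of_residual (isOpen_Nb q') (nonempty_Nb q') (h1.and hx)
    exact ⟨e, he, h4.1 (h3 (Nb_anti hq' he))⟩

/-- sections of a set with the Baire property have the Baire property -/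
theorem bp_sec {P : (I → R) → Prop} (hP : BaireMeasurableSet {x | P x}) (i : I) :
    ∀ᶠ x in residual (I → R), BaireMeasurableSet {e : R | P (update x i e)} := by
  obtain ⟨u, hu, hE⟩ := hP.residualEq_isOpen
  have hE' : ∀ᶠ x in residual (I → R), (P x ↔ x ∈ u) := hE.mem_iff
  filter_upwards [ku hE' i] with x hx
  refine (isOpen_sec hu i x).baireMeasurableSet.congr ?_
  exact Filter.eventuallyEq_set.2 (hx.mono fun e he => he.symm)

end ku

/-! ### measurable sets -/

lemma meas_bp {E : Set (I → R)} (hE : MeasurableSet E) : BaireMeasurableSet E := by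
  have hle : (MeasurableSpace.pi : MeasurableSpace (I → R)) ≤ borel (I → R) := by
    refine iSup_le fun i => ?_
    rw [MeasurableSpace.comap_le_iff_le_map]
    intro s hs
    rw [BorelSpace.measurable_eq (α := R)] at hs
    exact (continuous_apply i).borel_measurable hs
  have h1 : @MeasurableSet _ (borel (I → R)) E := hle E hE
  exact ⟨E, h1, Filter.EventuallyEq.rfl⟩

/-- a measurable set depends on countably many coordinates -/
lemma meas_supp {E : Set (I → R)} (hE : MeasurableSet E) :
    ∃ s : Set I, s.Countable ∧ ∀ x y : I → R, (∀ i ∈ s, x i = y i) → (x ∈ E ↔ y ∈ E) := by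
  have hgen : (MeasurableSpace.pi : MeasurableSpace (I → R)) =
      MeasurableSpace.generateFrom {A | ∃ (i : I) (t : Set R), MeasurableSet t ∧ A = {x | x i ∈ t}} := by
    apply le_antisymm
    · refine iSup_le fun i => ?_
      rintro _ ⟨t, ht, rfl⟩
      exact MeasurableSpace.measurableSet_generateFrom ⟨i, t, ht, rfl⟩
    · apply MeasurableSpace.generateFrom_le
      rintro _ ⟨i, t, ht, rfl⟩
      exact ht.preimage (measurable_pi_apply i)
  rw [hgen] at hE
  induction E, hE using MeasurableSpace.generateFrom_induction with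
  | hC A hA _ =>
    obtain ⟨i, t, _, rfl⟩ := hA
    refine ⟨{i}, countable_singleton i, fun x y h => ?_⟩
    simp only [mem_ofPred_eq]
    rw [h i rfl]
  | empty => exact ⟨∅, countable_empty, fun x y _ => Iff.rfl⟩
  | compl A _ ih =>
    obtain ⟨s, hs, h⟩ := ih
    exact ⟨s, hs, fun x y hxy => not_congr (h x y hxy)⟩
  | iUnion f _ ih =>
    choose s hs h using ih
    refine ⟨⋃ n, s n, countable_iUnion hs, fun x y hxy => ?_⟩
    simp only [mem_iUnion]
    exact exists_congr fun n => h n x y fun i hi => hxy i (mem_iUnion.2 ⟨n, hi⟩)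

end Pool.Agent.Nm65
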