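import Mathlib

/-!
An abstract continuous chain of closed sets of size less than a regular cardinal, with
prescribed generic elements (MP_50671f).
-/

namespace Pool.Agent.Nm65

open Set Cardinal

section closure

variable {A : Type} (op2 : A → A → A) (op1 : ℕ → A → A)

/-- Closure of a set under a binary operation and countably many unary ones. -/
inductive Cl (X : Set A) : A → Prop
  | base {x : A} : x ∈ X → Cl X x
  | two {x y : A} : Cl X x → Cl X y → Cl X (op2 x y)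
  | one (k : ℕ) {x : A} : Cl X x → Cl X (op1 k x)

/-- One step of the closure. -/
def clStep (Y : Set A) : Set A := Y ∪ (Set.image2 op2 Y Y ∪ ⋃ k, op1 k '' Y)

/-- Iterated steps. -/
def clIter (X : Set A) : ℕ → Set A
  | 0 => X
  | n + 1 => clStep op2 op1 (clIter X n)

lemma clIter_mono (X : Set A) : Monotone (clIter op2 op1 X) :=
  monotone_nat_of_le_succ fun _ => subset_union_left

lemma Cl_iter (X : Set A) {x : A} (h : Cl op2 op1 X x) : ∃ n, x ∈ clIter op2 op1 X n := by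
  induction h with
  | base h => exact ⟨0, h⟩
  | @two x y _ _ ihx ihy =>
    obtain ⟨n, hn⟩ := ihx
    obtain ⟨m, hm⟩ := ihy
    refine ⟨max n m + 1, Or.inr (Or.inl ⟨x, ?_, y, ?_, rfl⟩)⟩
    · exact clIter_mono op2 op1 X (le_max_left n m) hn
    · exact clIter_mono op2 op1 X (le_max_right n m) hm
  | @one k x _ ih =>
    obtain ⟨n, hn⟩ := ih
    exact ⟨n + 1, Or.inr (Or.inr (mem_iUnion.2 ⟨k, x, hn, rfl⟩))⟩

lemma mk_clStep_le (Y : Set A) (c : Cardinal) (hc : ℵ₀ ≤ c) (hY : #Y ≤ c) :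
    #(clStep op2 op1 Y) ≤ c := by
  unfold clStep
  refine (mk_union_le _ _).trans ?_
  refine add_le_of_le hc hY ((mk_union_le _ _).trans (add_le_of_le hc ?_ ?_))
  · refine Cardinal.mk_image2_le.trans ?_
    exact (mul_le_mul' hY hY).trans (mul_eq_self hc).le
  · refine (mk_iUnion_le _).trans ?_
    refine (mul_le_mul' (mk_nat.le.trans hc) (ciSup_le' fun k => mk_image_le.trans hY)).trans ?_
    exact (mul_eq_self hc).le

lemma mk_clIter_le (X : Set A) (c : Cardinal) (hc : ℵ₀ ≤ c) (hX : #X ≤ c) (n : ℕ) :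
    #(clIter op2 op1 X n) ≤ c := by
  induction n with
  | zero => exact hX
  | succ n ih => exact mk_clStep_le op2 op1 _ c hc ih

lemma mk_Cl_le (X : Set A) : #{x | Cl op2 op1 X x} ≤ max #X ℵ₀ := by
  have h : {x | Cl op2 op1 X x} ⊆ ⋃ n, clIter op2 op1 X n := fun x hx =>
    mem_iUnion.2 (Cl_iter op2 op1 X hx)
  refine (mk_le_mk_of_subset h).trans ((mk_iUnion_le _).trans ?_)
  have hc : ℵ₀ ≤ max #X ℵ₀ := le_max_right _ _
  refine (mul_le_mul' (mk_nat.le.trans hc)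
    (ciSup_le' fun n => mk_clIter_le op2 op1 X _ hc (le_max_left _ _) n)).trans ?_
  exact (mul_eq_self hc).le

lemma Cl_mono {X Y : Set A} (h : X ⊆ Y) {x : A} (hx : Cl op2 op1 X x) : Cl op2 op1 Y x := by
  induction hx with
  | base h' => exact Cl.base (h h')
  | two _ _ ihx ihy => exact Cl.two ihx ihy
  | one k _ ih => exact Cl.one k ih

end closure

/-- The abstract chain. -/
theorem W1 {A : Type} (hreg : (#A).IsRegular) (hunc : ℵ₀ < #A) (op2 : A → A → A)
    (op1 : ℕ → A → A) (E : Set A) (hE : #E < #A) (Coh : Set A → A → Prop)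
    (hcoh : ∀ M : Set A, #M < #A → ∃ g, Coh M g) :
    ∃ (I : Type) (_ : LinearOrder I) (_ : WellFoundedLT I) (M : I → Set A) (g : I → A),
      Nonempty I ∧ #I = #A ∧ (∀ i j, i ≤ j → M i ⊆ M j) ∧
      (∀ i x y, x ∈ M i → y ∈ M i → op2 x y ∈ M i) ∧ (∀ i k x, x ∈ M i → op1 k x ∈ M i) ∧
      (∀ x, ∃ i, x ∈ M i) ∧ (∀ i j, i < j → g i ∈ M j) ∧ (∀ i, #(M i) < #A) ∧
      (∀ i, Coh (M i) (g i)) ∧
      (∀ i, (∃ j, j < i) → (∀ j, j < i → ∃ k, j < k ∧ k < i) → ∀ x ∈ M i, ∃ j, j < i ∧ x ∈ M j) ∧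
      (∀ i, E ⊆ M i) ∧ (∀ X : Set A, #X < #A → ∃ i, X ⊆ M i) ∧ (∀ i : I, ∃ j, i < j) := by
  classical
  have hal : ℵ₀ ≤ #A := hunc.le
  have hne : Nonempty A := Cardinal.mk_ne_zero_iff.1 (hreg.ne_zero)
  obtain ⟨a0⟩ := hne
  let I : Type := (#A).ord.ToType
  have hmkI : #I = #A := mk_ord_toType _
  obtain ⟨e⟩ : Nonempty (I ≃ A) := Cardinal.eq.1 hmkI
  have hmax : NoMaxOrder I := Cardinal.noMaxOrder hal
  have hIne : Nonempty I := ⟨e.symm a0⟩
  have hIio : ∀ i : I, #(Iio i) < #A := by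
    intro i
    have h := mk_Iio_lt (α := I) i (by rw [hmkI]; exact (Ordinal.type_toType _).symm)
    rwa [hmkI] at h
  let G : Set A → A := fun M => if h : ∃ g, Coh M g then h.choose else a0
  have hG : ∀ M : Set A, #M < #A → Coh M (G M) := by
    intro M hM
    have h := hcoh M hM
    simp only [G, dif_pos h]
    exact h.choose_spec
  let g : I → A := WellFounded.fix (wellFounded_lt (α := I)) fun i rec =>
    G {x | Cl op2 op1 (E ∪ ({x | ∃ j, j < i ∧ x = e j} ∪ {x | ∃ (j : I) (h : j < i), x = rec j h})) x}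
  let B : I → Set A := fun i => E ∪ ({x | ∃ j, j < i ∧ x = e j} ∪ {x | ∃ j, j < i ∧ x = g j})
  let M : I → Set A := fun i => {x | Cl op2 op1 (B i) x}
  have hg : ∀ i, g i = G (M i) := by
    intro i
    have h : g i = G {x | Cl op2 op1 (E ∪ ({x | ∃ j, j < i ∧ x = e j} ∪
        {x | ∃ (j : I) (h : j < i), x = g j})) x} := WellFounded.fix_eq _ _ i
    rw [h]
    have h2 : {x | ∃ (j : I) (_ : j < i), x = g j} = {x | ∃ j, j < i ∧ x = g j} := by
      ext x; simp
    rw [h2]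
  have hBmono : ∀ i j, i ≤ j → B i ⊆ B j := by
    intro i j hij x hx
    rcases hx with hx | ⟨k, hk, rfl⟩ | ⟨k, hk, rfl⟩
    · exact Or.inl hx
    · exact Or.inr (Or.inl ⟨k, hk.trans_le hij, rfl⟩)
    · exact Or.inr (Or.inr ⟨k, hk.trans_le hij, rfl⟩)
  have hMmono : ∀ i j, i ≤ j → M i ⊆ M j := fun i j hij x hx => Cl_mono op2 op1 (hBmono i j hij) hx
  have hBcard : ∀ i, #(B i) < #A := by
    intro i
    refine (mk_union_le _ _).trans_lt (add_lt_of_lt hal hE ?_)
    refine (mk_union_le _ _).trans_lt (add_lt_of_lt hal ?_ ?_)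
    · have : {x | ∃ j, j < i ∧ x = e j} = e '' (Iio i) := by
        ext x
        constructor
        · rintro ⟨j, hj, rfl⟩; exact ⟨j, hj, rfl⟩
        · rintro ⟨j, hj, rfl⟩; exact ⟨j, hj, rfl⟩
      rw [this]
      exact mk_image_le.trans_lt (hIio i)
    · have : {x | ∃ j, j < i ∧ x = g j} = g '' (Iio i) := by
        ext x
        constructor
        · rintro ⟨j, hj, rfl⟩; exact ⟨j, hj, rfl⟩
        · rintro ⟨j, hj, rfl⟩; exact ⟨j, hj, rfl⟩
      rw [this]
      exact mk_image_le.trans_lt (hIio i)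
  have hMcard : ∀ i, #(M i) < #A := fun i =>
    (mk_Cl_le op2 op1 (B i)).trans_lt (max_lt (hBcard i) hunc)
  refine ⟨I, inferInstance, inferInstance, M, g, hIne, hmkI, hMmono, ?_, ?_, ?_, ?_, hMcard, ?_,
    ?_, ?_, ?_, fun i => exists_gt i⟩
  · exact fun i x y hx hy => Cl.two hx hy
  · exact fun i k x hx => Cl.one k hx
  · intro x
    obtain ⟨i, hi⟩ := exists_gt (e.symm x)
    exact ⟨i, Cl.base (Or.inr (Or.inl ⟨e.symm x, hi, by simp⟩))⟩
  · exact fun i j hij => Cl.base (Or.inr (Or.inr ⟨i, hij, rfl⟩))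
  · intro i
    rw [hg]
    exact hG _ (hMcard i)
  · intro i hex hlim x hx
    obtain ⟨j0, hj0⟩ := hex
    induction hx with
    | base h =>
      rcases h with h | ⟨k, hk, rfl⟩ | ⟨k, hk, rfl⟩
      · exact ⟨j0, hj0, Cl.base (Or.inl h)⟩
      · obtain ⟨l, hl, hl2⟩ := hlim k hk
        exact ⟨l, hl2, Cl.base (Or.inr (Or.inl ⟨k, hl, rfl⟩))⟩
      · obtain ⟨l, hl, hl2⟩ := hlim k hk
        exact ⟨l, hl2, Cl.base (Or.inr (Or.inr ⟨k, hl, rfl⟩))⟩
    | two _ _ ihx ihy =>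
      obtain ⟨j1, hj1, h1⟩ := ihx
      obtain ⟨j2, hj2, h2⟩ := ihy
      exact ⟨max j1 j2, max_lt hj1 hj2, Cl.two (hMmono _ _ (le_max_left _ _) h1)
        (hMmono _ _ (le_max_right _ _) h2)⟩
    | one k _ ih =>
      obtain ⟨j1, hj1, h1⟩ := ih
      exact ⟨j1, hj1, Cl.one k h1⟩
  · exact fun i x hx => Cl.base (Or.inl hx)
  · intro X hX
    have h1 : ¬ IsCofinal (e.symm '' X) := by
      intro h
      have h2 := Order.cof_le h
      have h3 : Order.cof I = #A := by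
        rw [Ordinal.cof_toType, hreg.cof_ord]
      rw [h3] at h2
      exact absurd (h2.trans mk_image_le) (not_le.2 hX)
    obtain ⟨i, hi⟩ := not_isCofinal_iff.1 h1
    refine ⟨i, fun x hx => Cl.base (Or.inr (Or.inl ⟨e.symm x, hi _ ⟨x, hx, rfl⟩, by simp⟩))⟩

end Pool.Agent.Nm65
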