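import Pool.Agent.Nm65.Core

/-!
The successor lemma for the separation theorem (MP_50671f).
-/

namespace Pool.Agent.Nm65

open MeasureTheory Set Cardinal TopologicalSpace

namespace X1

lemma ext_prefix {s t : List ℕ} (h : s <+: t) {n : ℕ} (hn : n < s.length) : ext t n = ext s n := by
  obtain ⟨r, rfl⟩ := h
  exact ext_append_left hn

lemma pre_prefix (x : R) {k k' : ℕ} (h : k ≤ k') : pre x k <+: pre x k' := by
  obtain ⟨d, rfl⟩ := Nat.exists_eq_add_of_le h
  unfold pre
  rw [List.range_add, List.map_append]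
  exact List.prefix_append _ _

lemma pre_mem_Pre (x : R) (k : ℕ) : Encodable.encode (pre x k) ∈ Pre x := ⟨k, rfl⟩

lemma St_ch (z : Set ℕ) : St (ch z) = z := by
  ext n
  simp [St, ch]

/-- The nodes with extensions of every length. -/
def prn (A : Set (List ℕ)) : Set (List ℕ) := {t | t ∈ A ∧ ∀ k, ∃ t' ∈ A, t <+: t' ∧ k < t'.length}

lemma prn_of_branch {A : Set (List ℕ)} {x : R} (h : ∀ k, pre x k ∈ A) (k : ℕ) : pre x k ∈ prn A := by
  refine ⟨h k, fun m => ⟨pre x (max k (m + 1)), h _, pre_prefix x (le_max_left _ _), ?_⟩⟩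
  rw [length_pre]
  have := le_max_right k (m + 1)
  omega

/-- The slalom of the values above the node t0. -/
def SA (A : Set (List ℕ)) (t0 : List ℕ) : Set (ℕ × ℕ) :=
  {p | ∃ t ∈ prn (prn (prn A)), t0 <+: t ∧ p.1 < t.length ∧ c1 (ext t p.1) ≠ 0 ∧
    c0 (ext t p.1) % 2 ^ p.1 = p.2}

/-- The closed conditions on the nodes. -/
def OK (t : List ℕ) : Prop :=
  (∀ k n, k < t.length → n < t.length → c4 (ext t k) ≤ n →
    mu (cl (c3 (ext t n)) : Set Cantor) ≤ (1 / 2) ^ k) ∧
  (∀ q, q < t.length → q ≤ c5 (ext t q) ∧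
    (c5 (ext t q) < t.length → c1 (ext t (c5 (ext t q))) ≠ 0))

/-- The extension of a node. -/
lemma extend {A : Set (List ℕ)} (hA : ∀ t ∈ A, OK t) {t : List ℕ} (ht : t ∈ prn (prn (prn A)))
    (H k0 : ℕ) : ∃ t' ∈ A, t <+: t' ∧ ∃ n, n < t'.length ∧ H ≤ n ∧ c1 (ext t' n) ≠ 0 ∧
      mu (cl (c3 (ext t' n)) : Set Cantor) ≤ (1 / 2) ^ k0 := by
  obtain ⟨t1, ht1, hp1, hl1⟩ := ht.2 k0
  set q := max H (c4 (ext t1 k0)) with hq
  obtain ⟨t2, ht2, hp2, hl2⟩ := ht1.2 q
  set n := c5 (ext t2 q) with hn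
  obtain ⟨t3, ht3, hp3, hl3⟩ := ht2.2 n
  have hk1 : ext t2 k0 = ext t1 k0 := ext_prefix hp2 hl1
  have hk2 : ext t3 k0 = ext t1 k0 := by
    rw [ext_prefix hp3 (lt_of_lt_of_le hl1 hp2.length_le), hk1]
  have hq3 : ext t3 q = ext t2 q := ext_prefix hp3 hl2
  have hq4 : c5 (ext t3 q) = n := by rw [hq3]
  obtain ⟨ha, hb⟩ := (hA t3 ht3).2 q (lt_of_lt_of_le hl2 hp3.length_le)
  rw [hq4] at ha hb
  refine ⟨t3, ht3, (hp1.trans hp2).trans hp3, n, hl3, (le_max_left _ _).trans ha, hb hl3, ?_⟩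
  refine (hA t3 ht3).1 k0 n (lt_of_lt_of_le hl1 (hp2.length_le.trans hp3.length_le)) hl3 ?_
  rw [hk2]
  exact (le_max_right _ _).trans ha

lemma mu_sup_le {ι : Type} [DecidableEq ι] (F : Finset ι) (f : ι → Clopens Cantor) :
    mu ((F.sup f : Clopens Cantor) : Set Cantor) ≤ ∑ u ∈ F, mu (f u : Set Cantor) := by
  induction F using Finset.induction_on with
  | empty => simp
  | insert a F ha ih =>
    rw [Finset.sup_insert, Finset.sum_insert ha, Clopens.coe_sup]
    exact (measure_union_le _ _).trans (add_le_add le_rfl ih)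

/-- The density lemma. -/
lemma dense2 {A : Set (List ℕ)} (hA : ∀ t ∈ A, OK t) {x : R}
    (hx : ∀ k, ¬ Small (SA A (pre x k))) (m : ℕ) (s : List ℕ) :
    ∃ s' : List ℕ, s <+: s' ∧ ∃ i < s'.length, ∃ l, m ≤ l ∧ ∀ u < 2 ^ l, ∃ t : List ℕ,
      t ∈ A ∧ Cert (ext s') i t l ∧ c0 (ext t l) % 2 ^ l = u := by
  set i := s.length with hi
  set p := st (ext s) i with hp
  set t0 := pre x p with ht0
  have hlen0 : t0.length = p := length_pre x p
  set H := (Finset.range p).sup (fun m' => c2 (ext t0 m')) + 1 with hH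
  have hHlt : ∀ m' < p, c2 (ext t0 m') < H := by
    intro m' hm'
    have := Finset.le_sup (f := fun m' => c2 (ext t0 m')) (Finset.mem_range.2 hm')
    omega
  have hns := hx p
  unfold Small at hns
  push Not at hns
  obtain ⟨l, hl, hall⟩ := hns (max m (max p H))
  have hl1 : m ≤ l := (le_max_left _ _).trans hl
  have hl2 : p ≤ l := ((le_max_left _ _).trans (le_max_right _ _)).trans hl
  have hl3 : H ≤ l := ((le_max_right _ _).trans (le_max_right _ _)).trans hl
  have key : ∀ u, u < 2 ^ l → ∃ t : List ℕ, ∃ n : ℕ, t ∈ A ∧ t0 <+: t ∧ l < t.length ∧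
      c1 (ext t l) ≠ 0 ∧ c0 (ext t l) % 2 ^ l = u ∧ n < t.length ∧ H ≤ n ∧ c1 (ext t n) ≠ 0 ∧
      mu (cl (c3 (ext t n)) : Set Cantor) ≤ (1 / 2) ^ (l + i) := by
    intro u hu
    obtain ⟨t, ht, h1, h2, h3, h4⟩ := hall u hu
    obtain ⟨t', ht', h5, n, h6, h7, h8, h9⟩ := extend hA ht H (l + i)
    simp only at h2 h3 h4
    refine ⟨t', n, ht', h1.trans h5, lt_of_lt_of_le h2 h5.length_le, ?_, ?_, h6, h7, h8, h9⟩
    · rw [ext_prefix h5 h2]; exact h3
    · rw [ext_prefix h5 h2]; exact h4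
  choose! tt nn k1 k2 k3 k4 k5 k6 k7 k8 k9 using key
  set Dc : Clopens Cantor := (Finset.range (2 ^ l)).sup (fun u => cl (c3 (ext (tt u) (nn u)))) with hDc
  obtain ⟨d, hd⟩ := cl_surj Dc
  have hmu : mu (cl d : Set Cantor) ≤ (1 / 2) ^ i := by
    rw [hd, hDc]
    refine (mu_sup_le _ _).trans ?_
    calc ∑ u ∈ Finset.range (2 ^ l), mu (cl (c3 (ext (tt u) (nn u))) : Set Cantor)
        ≤ ∑ u ∈ Finset.range (2 ^ l), (1 / 2 : ENNReal) ^ (l + i) :=
          Finset.sum_le_sum fun u hu => k9 u (Finset.mem_range.1 hu)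
      _ = (2 : ENNReal) ^ l * (1 / 2) ^ (l + i) := by
          rw [Finset.sum_const, Finset.card_range, nsmul_eq_mul]; norm_num
      _ = (1 / 2) ^ i := by
          rw [pow_add, ← mul_assoc, ← mul_pow, one_div,
            ENNReal.mul_inv_cancel (by norm_num) (by norm_num), one_pow, one_mul]
  set b := (Finset.range (2 ^ l)).sup
    (fun u => max (c2 (ext (tt u) (nn u))) (c2 (ext (tt u) l))) with hb
  have hble : ∀ u < 2 ^ l, c2 (ext (tt u) (nn u)) ≤ b ∧ c2 (ext (tt u) l) ≤ b := by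
    intro u hu
    have := Finset.le_sup (f := fun u => max (c2 (ext (tt u) (nn u))) (c2 (ext (tt u) l)))
      (Finset.mem_range.2 hu)
    exact ⟨(le_max_left _ _).trans this, (le_max_right _ _).trans this⟩
  refine ⟨s ++ [Nat.pair b d], List.prefix_append _ _, i, by simp [hi], l, hl1, ?_⟩
  intro u hu
  have hst0 : st (ext (s ++ [Nat.pair b d])) i = p := st_append_single s _
  have hst1 : st (ext (s ++ [Nat.pair b d])) (i + 1) = p + (b + 1) := by
    rw [hi, st_append_single_succ, Nat.unpair_pair]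
  have hDs : Dset (ext (s ++ [Nat.pair b d])) i = (cl d : Set Cantor) := by
    have h := Dset_append_single s (Nat.pair b d) (by rw [Nat.unpair_pair]; exact hmu)
    rw [Nat.unpair_pair] at h
    exact h
  refine ⟨tt u, k1 u hu, ?_, k5 u hu⟩
  have hsm : ∀ m' < p, c2 (ext (tt u) m') < H := by
    intro m' hm'
    rw [ext_prefix (k2 u hu) (by rw [hlen0]; exact hm')]
    exact hHlt m' hm'
  unfold Cert
  rw [hst0, hst1, hDs]
  refine ⟨k3 u hu, hl2, ?_, fun m' hm' => lt_of_lt_of_le (hsm m' hm') hl3, k4 u hu,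
    nn u, k6 u hu, k8 u hu, ?_, fun m' hm' => lt_of_lt_of_le (hsm m' hm') (k7 u hu), ?_⟩
  · have := (hble u hu).2; omega
  · have := (hble u hu).1; omega
  · rw [hd, hDc]
    exact_mod_cast (Finset.le_sup (f := fun u => cl (c3 (ext (tt u) (nn u))))
      (Finset.mem_range.2 hu))

lemma Cert_congr {γ γ' : R} {i : ℕ} {t : List ℕ} {l : ℕ} (h1 : st γ i = st γ' i)
    (h2 : st γ (i + 1) = st γ' (i + 1)) (h3 : Dset γ i = Dset γ' i) (h : Cert γ i t l) :
    Cert γ' i t l := by
  unfold Cert at h ⊢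
  rw [h1, h2, h3] at h
  exact h

/-- A certificate on a branch is correct. -/
lemma Cert_sound {γ e a h c w nx : R} {i k l : ℕ}
    (hc : Cert γ i (pre (pr e (pr a (pr h (pr c (pr w nx))))) k) l) :
    l ∈ St (opB γ h c a) := by
  set x := pr e (pr a (pr h (pr c (pr w nx)))) with hx
  have e1 : ∀ n, c1 (x n) = a n := fun n => by simp [hx, c1, pr]
  have e2 : ∀ n, c2 (x n) = h n := fun n => by simp [hx, c2, pr]
  have e3 : ∀ n, c3 (x n) = c n := fun n => by simp [hx, c3, pr]
  obtain ⟨h1, h2, h3, h4, h5, n, h6, h7, h8, h9, h10⟩ := hc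
  rw [length_pre] at h1 h6
  rw [ext_pre h1] at h3 h5
  rw [ext_pre h6] at h7 h8 h10
  rw [e2] at h3 h8
  rw [e1] at h5 h7
  rw [e3] at h10
  have h4' : ∀ m < st γ i, h m < l := fun m hm => by
    have := h4 m hm
    rwa [ext_pre (by omega), e2] at this
  have h9' : ∀ m < st γ i, h m < n := fun m hm => by
    have := h9 m hm
    rwa [ext_pre (by omega), e2] at this
  have hgood : Good γ h c (St a) i := by
    refine ⟨n, h7, fun m a1 a2 => idx_eq ?_ (lt_of_le_of_lt a1 h8), h10⟩
    by_contra hcon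
    push Not at hcon
    have := h9' m hcon
    omega
  refine mem_St_opB.2 ⟨h5, fun m a1 a2 => ?_⟩
  have hm : st γ i ≤ m := by
    by_contra hcon
    push Not at hcon
    have := h4' m hcon
    omega
  rw [idx_eq hm (lt_of_le_of_lt a1 h3)]
  exact hgood

end X1

open X1

variable {I : Type} [LinearOrder I] {M : I → Set R} {g : I → R}

/-- The successor lemma. -/
theorem Chain.successor (hC : Chain opF opD M g) (j : I) (S : Set (ℕ × ℕ)) (hS : Small S) :
    ∃ SS : Set (Set (ℕ × ℕ)), SS.Countable ∧ (∀ S' ∈ SS, Small S') ∧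
      ∀ e a h c : R, e ∈ M j → a ∈ M j → h ∈ M j → c ∈ M j → Nice h → Null c →
        (St a).Infinite → Capt S e (opB (g j) h c a) → ∃ S' ∈ SS, Capt S' e a := by
  set γ := g j with hγ
  let T : ℕ → Set ℕ := fun N => {n | ∃ t : List ℕ, n = Encodable.encode t ∧ OK t ∧
    ∀ i l, N ≤ l → Cert γ i t l → (l, c0 (ext t l) % 2 ^ l) ∈ S}
  have hemb := fun N => hC.embed j (T N)
  choose Z hZc hZ1 hZ2 using hemb
  let AA : Set ℕ → Set (List ℕ) := fun z => {t | Encodable.encode t ∈ z}
  refine ⟨{S' | Small S' ∧ ∃ N, ∃ z ∈ Z N, ∃ t0 : List ℕ, S' = SA (AA z) t0}, ?_,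
    fun S' h => h.1, ?_⟩
  · have hcount : (⋃ N, ⋃ z ∈ Z N, range (fun t0 : List ℕ => SA (AA z) t0)).Countable :=
      countable_iUnion fun N => (hZc N).biUnion fun z _ => countable_range _
    refine hcount.mono ?_
    rintro S' ⟨_, N, z, hz, t0, rfl⟩
    simp only [mem_iUnion, mem_range, exists_prop]
    exact ⟨N, z, hz, t0, rfl⟩
  · intro e a h c he ha hh hc _ hnull hinf hcapt
    obtain ⟨N, hN⟩ := hcapt
    set x : R := pr e (pr a (pr h (pr c (pr (modu c) (nxt a))))) with hx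
    have hxM : x ∈ M j := by
      refine hC.pair j _ _ he (hC.pair j _ _ ha (hC.pair j _ _ hh (hC.pair j _ _ hc
        (hC.pair j _ _ ?_ ?_))))
      · exact hC.closed j 7 c hc
      · exact hC.closed j 8 a ha
    have e0 : ∀ n, c0 (x n) = e n := fun n => by simp [hx, c0, pr]
    have e1 : ∀ n, c1 (x n) = a n := fun n => by simp [hx, c1, pr]
    have e3 : ∀ n, c3 (x n) = c n := fun n => by simp [hx, c3, pr]
    have e4 : ∀ n, c4 (x n) = modu c n := fun n => by simp [hx, c4, pr]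
    have e5 : ∀ n, c5 (x n) = nxt a n := fun n => by simp [hx, c5, pr]
    have hPT : Pre x ⊆ T N := by
      rintro n ⟨k, rfl⟩
      refine ⟨pre x k, rfl, ⟨?_, ?_⟩, ?_⟩
      · intro k' n hk' hn hle
        rw [length_pre] at hk' hn
        rw [ext_pre hk', e4] at hle
        rw [ext_pre hn, e3]
        exact modu_spec hnull k' n hle
      · intro q hq
        rw [length_pre] at hq ⊢
        rw [ext_pre hq, e5]
        refine ⟨(nxt_spec hinf q).1, fun hlt => ?_⟩
        rw [ext_pre hlt, e1]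
        exact (nxt_spec hinf q).2
      · intro i l hl hcert
        have hlk : l < k := by
          have := hcert.1
          rwa [length_pre] at this
        rw [ext_pre hlk, e0]
        exact hN l hl (Cert_sound hcert)
    obtain ⟨z, hz, hPz⟩ := hZ2 N x hxM hPT
    have hbr : ∀ k, pre x k ∈ AA z := fun k => hPz (pre_mem_Pre x k)
    have hbr3 : ∀ k, pre x k ∈ prn (prn (prn (AA z))) := fun k =>
      prn_of_branch (fun k => prn_of_branch (fun k => prn_of_branch hbr k) k) k
    have hcap : ∀ k, Capt (SA (AA z) (pre x k)) e a := by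
      intro k
      refine ⟨0, fun l _ hl => ?_⟩
      refine ⟨pre x (max k (l + 1)), hbr3 _, pre_prefix x (le_max_left _ _), ?_, ?_, ?_⟩
      · simp only [length_pre]
        have := le_max_right k (l + 1)
        omega
      · have hlt : l < max k (l + 1) := by have := le_max_right k (l + 1); omega
        simp only
        rw [ext_pre hlt, e1]
        exact hl
      · have hlt : l < max k (l + 1) := by have := le_max_right k (l + 1); omega
        simp only
        rw [ext_pre hlt, e0]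
    by_cases hsm : ∃ k, Small (SA (AA z) (pre x k))
    · obtain ⟨k, hk⟩ := hsm
      exact ⟨_, ⟨hk, N, z, hz, pre x k, rfl⟩, hcap k⟩
    · exfalso
      push Not at hsm
      have hzT : z ⊆ T N := (hZ1 N z hz).1
      have hA : ∀ t ∈ AA z, OK t := by
        intro t ht
        obtain ⟨t', h1, h2, _⟩ := hzT ht
        have : t = t' := Encodable.encode_injective h1
        rw [this]; exact h2
      obtain ⟨m0, hm0⟩ := hS
      have hgen := hC.generic j (Nat.pair 2 (max N m0)) (ch z) (hZ1 N z hz).2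
      have key : ∃ n, pre γ n ∈ opD (Nat.pair 2 (max N m0)) (ch z) := by
        apply hgen
        intro s
        obtain ⟨s', h1, i, h2, l, h3, h4⟩ := dense2 hA hsm (max N m0) s
        refine ⟨s', h1, ?_⟩
        simp only [opD, Nat.unpair_pair, mem_setOf_eq]
        refine ⟨i, h2, l, h3, fun u hu => ?_⟩
        obtain ⟨t, ht, h5, h6⟩ := h4 u hu
        exact ⟨t, by rw [St_ch]; exact ht, h5, h6⟩
      obtain ⟨n, hn⟩ := key
      simp only [opD, Nat.unpair_pair, mem_setOf_eq, length_pre] at hn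
      obtain ⟨i, hin, l, hl, hall⟩ := hn
      obtain ⟨u, hu, hnot⟩ := hm0 l ((le_max_right _ _).trans hl)
      obtain ⟨t, ht, hcert, hmod⟩ := hall u hu
      rw [St_ch] at ht
      obtain ⟨t', h1, _, h3⟩ := hzT ht
      have htt : t = t' := Encodable.encode_injective h1
      subst htt
      have := h3 i l ((le_max_left _ _).trans hl) (Cert_congr (st_ext_pre hin.le)
        (st_ext_pre (Nat.succ_le_of_lt hin)) (Dset_ext_pre hin) hcert)
      rw [hmod] at this
      exact hnot this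

end Pool.Agent.Nm65
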