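import Pool.Agent.Nm65.CoreDefs

/-!
Theorem Z (MP_50671f), part 1: codes, the independent sets `U` and sequences of clopen sets.
-/

namespace Pool.Agent.Nm65.Z72

open MeasureTheory Set Cardinal TopologicalSpace
open scoped ENNReal

/-! ### Codes -/

def ck (s : ℕ) : ℕ := s.unpair.1
def ca (s : ℕ) : ℕ := s.unpair.2.unpair.1
def cb (s : ℕ) : ℕ := s.unpair.2.unpair.2.unpair.1
def cj (s : ℕ) : ℕ := s.unpair.2.unpair.2.unpair.2.unpair.1
def cp (s : ℕ) : ℕ := s.unpair.2.unpair.2.unpair.2.unpair.2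

/-- The code with the given components. -/
def mk (k a b j p : ℕ) : ℕ := Nat.pair k (Nat.pair a (Nat.pair b (Nat.pair j p)))

@[simp] lemma ck_mk (k a b j p : ℕ) : ck (mk k a b j p) = k := by simp [ck, mk]
@[simp] lemma ca_mk (k a b j p : ℕ) : ca (mk k a b j p) = a := by simp [ca, mk]
@[simp] lemma cb_mk (k a b j p : ℕ) : cb (mk k a b j p) = b := by simp [cb, mk]
@[simp] lemma cj_mk (k a b j p : ℕ) : cj (mk k a b j p) = j := by simp [cj, mk]
@[simp] lemma cp_mk (k a b j p : ℕ) : cp (mk k a b j p) = p := by simp [cp, mk]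

/-- The coordinates attached to a code. -/
def DD (s : ℕ) : Finset ℕ := (Finset.range (cj s)).image (Nat.pair s)

lemma card_DD (s : ℕ) : (DD s).card = cj s := by
  unfold DD
  rw [Finset.card_image_of_injective, Finset.card_range]
  intro i i' h
  exact (Nat.pair_eq_pair.1 h).2

lemma disjoint_DD {s t : ℕ} (h : s ≠ t) : Disjoint (DD s) (DD t) := by
  rw [Finset.disjoint_left]
  intro x hx hy
  obtain ⟨i, -, rfl⟩ := Finset.mem_image.1 hx
  obtain ⟨i', -, hi'⟩ := Finset.mem_image.1 hy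
  exact h (Nat.pair_eq_pair.1 hi').1.symm

/-- The clopen set attached to a code. -/
def U (s : ℕ) : Set Cantor := cylF (DD s) (fun _ => false)

lemma isClopen_U (s : ℕ) : IsClopen (U s) := isClopen_cylF _ _

lemma mu_U (s : ℕ) : mu (U s) = (1 / 2) ^ cj s := by
  unfold U
  rw [mu_cylF, card_DD]

lemma biInter_U (A : Finset ℕ) : ⋂ s ∈ A, U s = cylF (A.biUnion DD) (fun _ => false) := by
  ext x
  simp only [U, cylF, Set.mem_iInter, Set.mem_ofPred_eq, Finset.mem_biUnion]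
  constructor
  · rintro h n ⟨s, hs, hn⟩
    exact h s hs n hn
  · intro h s hs n hn
    exact h n ⟨s, hs, hn⟩

lemma indep_U : ProbabilityTheory.iIndepSet U mu := by
  rw [ProbabilityTheory.iIndepSet_iff_meas_biInter
    (fun s => measurableSet_of_isClopen (isClopen_U s))]
  intro A
  rw [biInter_U, mu_cylF, Finset.card_biUnion (fun s _ t _ h => disjoint_DD h),
    Finset.prod_congr rfl (fun s _ => mu_U s), Finset.prod_pow_eq_pow_sum,
    Finset.sum_congr rfl (fun s _ => card_DD s)]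

lemma mu_compl_U (A : Finset ℕ) :
    mu (⋂ s ∈ A, (U s)ᶜ) = ∏ s ∈ A, (1 - (1 / 2) ^ cj s) := by
  have h := indep_U
  rw [ProbabilityTheory.iIndepSet_iff_iIndep] at h
  have h2 := ProbabilityTheory.iIndep.meas_biInter (S := A) (s := fun s => (U s)ᶜ) h
    (fun s _ => (MeasurableSpace.measurableSet_generateFrom (Set.mem_singleton _)).compl)
  rw [h2]
  refine Finset.prod_congr rfl fun s _ => ?_
  rw [prob_compl_eq_one_sub (measurableSet_of_isClopen (isClopen_U s)), mu_U]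

/-- The exponential bound. -/
lemma real_bound (A : Finset ℕ) (Q : ℕ)
    (h : (1 / 2 : ℝ≥0∞) ^ Q ≤ mu (⋂ s ∈ A, (U s)ᶜ)) :
    ∑ s ∈ A, (1 / 2 : ℝ) ^ cj s ≤ Q := by
  have h1 : (1 / 2 : ℝ) ^ Q ≤ ∏ s ∈ A, (1 - (1 / 2 : ℝ) ^ cj s) := by
    have h2 := ENNReal.toReal_mono (measure_ne_top _ _) h
    rw [mu_compl_U, ENNReal.toReal_prod] at h2
    have e1 : ((1 / 2 : ℝ≥0∞) ^ Q).toReal = (1 / 2 : ℝ) ^ Q := by
      rw [ENNReal.toReal_pow]; simp
    have e2 : ∀ s ∈ A, (1 - (1 / 2 : ℝ≥0∞) ^ cj s).toReal = 1 - (1 / 2 : ℝ) ^ cj s := by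
      intro s _
      rw [ENNReal.toReal_sub_of_le _ ENNReal.one_ne_top, ENNReal.toReal_pow]
      · simp
      · exact pow_le_one₀ (zero_le) (by
          rw [one_div]; exact ENNReal.inv_le_one.2 (by norm_num))
    rw [e1, Finset.prod_congr rfl e2] at h2
    exact h2
  have h3 : ∏ s ∈ A, (1 - (1 / 2 : ℝ) ^ cj s) ≤ Real.exp (-∑ s ∈ A, (1 / 2 : ℝ) ^ cj s) := by
    rw [← Finset.sum_neg_distrib, Real.exp_sum]
    refine Finset.prod_le_prod (fun s _ => ?_) fun s _ => ?_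
    · have : (1 / 2 : ℝ) ^ cj s ≤ 1 := pow_le_one₀ (by norm_num) (by norm_num)
      linarith
    · have := Real.add_one_le_exp (-(1 / 2 : ℝ) ^ cj s)
      linarith
  have h4 : Real.exp (-(Q : ℝ)) ≤ (1 / 2 : ℝ) ^ Q := by
    have h5 : Real.exp (-1) ≤ 1 / 2 := by
      rw [Real.exp_neg, inv_le_comm₀ (Real.exp_pos _) (by norm_num)]
      have := Real.add_one_le_exp (1 : ℝ)
      norm_num at this ⊢
      linarith
    have h6 : Real.exp (-(Q : ℝ)) = Real.exp (-1) ^ Q := by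
      rw [← Real.exp_nat_mul]; congr 1; ring
    rw [h6]
    exact pow_le_pow_left₀ (Real.exp_pos _).le h5 Q
  have h7 := Real.exp_le_exp.1 (h4.trans (h1.trans h3))
  linarith

/-! ### Sequences of clopen sets -/

/-- The measures of the tails tend to zero. -/
lemma tail_small {c : ℕ → Set Cantor} (hc : OmegaBar c) {e : ℝ≥0∞} (he : 0 < e) :
    ∃ m, mu (⋃ n ∈ Set.Ici m, c n) ≤ e := by
  have hmeas : ∀ m, MeasurableSet (⋃ n ∈ Set.Ici m, c n) := fun m =>
    MeasurableSet.biUnion (Set.to_countable _) fun n _ => measurableSet_of_isClopen (hc.1 n)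
  have hanti : Antitone fun m => ⋃ n ∈ Set.Ici m, c n := by
    intro m m' hmm x hx
    simp only [Set.mem_iUnion, Set.mem_Ici] at hx ⊢
    obtain ⟨n, hn, hx⟩ := hx
    exact ⟨n, le_trans hmm hn, hx⟩
  have hint : (⋂ m, ⋃ n ∈ Set.Ici m, c n) = {x | {n | x ∈ c n}.Infinite} := by
    ext x
    simp only [Set.mem_iInter, Set.mem_iUnion, Set.mem_Ici, Set.mem_ofPred_eq]
    rw [Set.infinite_iff_exists_gt]
    constructor
    · intro h m
      obtain ⟨n, hn, hx⟩ := h (m + 1)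
      exact ⟨n, hx, hn⟩
    · intro h m
      obtain ⟨n, hx, hn⟩ := h m
      exact ⟨n, hn.le, hx⟩
  have ht := tendsto_measure_iInter_atTop (μ := mu) (fun m => (hmeas m).nullMeasurableSet) hanti
    ⟨0, measure_ne_top _ _⟩
  rw [hint, hc.2] at ht
  obtain ⟨m, hm⟩ := (ht.eventually (gt_mem_nhds he)).exists
  exact ⟨m, hm.le⟩

/-- The Borel-Cantelli criterion. -/
lemma omegaBar_of_cover {c : ℕ → Set Cantor} (hclop : ∀ n, IsClopen (c n))
    (s : ℕ → Set Cantor) (hs : ∑' i, mu (s i) ≠ ∞) (f : ℕ → Set ℕ) (hf : ∀ i, (f i).Finite)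
    (h : ∀ n, ∀ x ∈ c n, ∃ i, x ∈ s i ∧ n ∈ f i) : OmegaBar c := by
  refine ⟨hclop, ?_⟩
  have h1 := ae_finite_setOfPred_mem hs
  rw [ae_iff] at h1
  refine measure_mono_null ?_ h1
  intro x hx hfin
  refine hx (Set.Finite.subset (hfin.biUnion fun i _ => hf i) ?_)
  intro n hn
  obtain ⟨i, hi, hni⟩ := h n x hn
  exact Set.mem_biUnion (show i ∈ {i | x ∈ s i} from hi) hni

lemma isClopen_iUnion_finite {s : Set ℕ} (hs : s.Finite) {f : ℕ → Set Cantor}
    (hf : ∀ n, IsClopen (f n)) : IsClopen (⋃ n ∈ s, f n) :=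
  hs.isClopen_biUnion fun n _ => hf n

end Pool.Agent.Nm65.Z72
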