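import Pool.Agent.Nm65.Z172

/-!
Theorem Z (MP_50671f), part 2: the closed set avoiding a tail and its bad codes.
-/

namespace Pool.Agent.Nm65.Z72

open MeasureTheory Set Cardinal TopologicalSpace
open scoped ENNReal

/-- The exponent of the threshold. -/
def qq (n : ℕ) : ℕ := (n + 2) ^ 2

/-- Initial cylinder. -/
def cy (n : ℕ) (y : Cantor) : Set Cantor := cylF (Finset.range n) y

lemma mem_cy {n : ℕ} {y x : Cantor} : x ∈ cy n y ↔ ∀ i < n, x i = y i := by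
  simp [cy, cylF]

lemma self_mem_cy (n : ℕ) (y : Cantor) : y ∈ cy n y := mem_cy.2 fun _ _ => rfl

lemma isClopen_cy (n : ℕ) (y : Cantor) : IsClopen (cy n y) := isClopen_cylF _ _

lemma cy_eq {n m : ℕ} {y z : Cantor} (h : z ∈ cy n y) (hm : m ≤ n) : cy m z = cy m y := by
  ext x
  rw [mem_cy, mem_cy]
  rw [mem_cy] at h
  constructor
  · intro hx i hi
    rw [hx i hi, h i (by omega)]
  · intro hx i hi
    rw [hx i hi, h i (by omega)]

/-- The set of points whose cylinder of length `m` is light. -/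
def Rm (K : Set Cantor) (m : ℕ) : Set Cantor := {y | mu (K ∩ cy m y) ≤ (1 / 2) ^ qq m}

lemma isOpen_Rm (K : Set Cantor) (m : ℕ) : IsOpen (Rm K m) := by
  rw [isOpen_iff_mem_nhds]
  intro y hy
  refine Filter.mem_of_superset ((isClopen_cy m y).isOpen.mem_nhds (self_mem_cy m y)) ?_
  intro z hz
  show mu (K ∩ cy m z) ≤ _
  rw [cy_eq hz le_rfl]
  exact hy

/-- Extension of a finite 0-1 sequence. -/
def extB {m : ℕ} (w : Fin m → Bool) : Cantor := fun i => if h : i < m then w ⟨i, h⟩ else false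

lemma mem_cy_extB {m : ℕ} (x : Cantor) : x ∈ cy m (extB fun i : Fin m => x i) := by
  rw [mem_cy]
  intro i hi
  simp [extB, hi]

lemma mu_Rm (K : Set Cantor) (m : ℕ) : mu (K ∩ Rm K m) ≤ 2 ^ m * (1 / 2) ^ qq m := by
  classical
  have hsub : K ∩ Rm K m ⊆ ⋃ w ∈ (Finset.univ.filter
      fun w : Fin m → Bool => mu (K ∩ cy m (extB w)) ≤ (1 / 2) ^ qq m), K ∩ cy m (extB w) := by
    rintro x ⟨hx, hR⟩
    have h1 := mem_cy_extB (m := m) x
    have h2 : cy m x = cy m (extB fun i : Fin m => x i) := cy_eq h1 le_rfl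
    refine Set.mem_iUnion₂.2 ⟨fun i : Fin m => x i, ?_, hx, h1⟩
    rw [Finset.mem_filter]
    refine ⟨Finset.mem_univ _, ?_⟩
    rw [← h2]
    exact hR
  calc mu (K ∩ Rm K m) ≤ _ := measure_mono hsub
    _ ≤ ∑ w ∈ (Finset.univ.filter
        fun w : Fin m → Bool => mu (K ∩ cy m (extB w)) ≤ (1 / 2) ^ qq m),
        mu (K ∩ cy m (extB w)) := measure_biUnion_finset_le _ _
    _ ≤ ∑ _w ∈ (Finset.univ.filter
        fun w : Fin m → Bool => mu (K ∩ cy m (extB w)) ≤ (1 / 2) ^ qq m),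
        (1 / 2 : ℝ≥0∞) ^ qq m := Finset.sum_le_sum fun w hw => (Finset.mem_filter.1 hw).2
    _ ≤ ∑ _w : Fin m → Bool, (1 / 2 : ℝ≥0∞) ^ qq m :=
        Finset.sum_le_sum_of_subset (Finset.subset_univ _)
    _ = 2 ^ m * (1 / 2) ^ qq m := by
        rw [Finset.sum_const, Finset.card_univ]
        simp

lemma two_mul_half : (2 : ℝ≥0∞) * (1 / 2) = 1 := by
  rw [one_div]; exact ENNReal.mul_inv_cancel (by norm_num) (by norm_num)

lemma two_pow_mul (m d : ℕ) : (2 : ℝ≥0∞) ^ m * (1 / 2) ^ (m + d) = (1 / 2) ^ d := by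
  rw [pow_add, ← mul_assoc, ← mul_pow, two_mul_half, one_pow, one_mul]

lemma half_le_one'' : (1 / 2 : ℝ≥0∞) ≤ 1 := by
  rw [one_div]; exact ENNReal.inv_le_one.2 (by norm_num)

lemma tsum_half (d : ℕ) : ∑' k : ℕ, (1 / 2 : ℝ≥0∞) ^ (k + (d + 1)) = (1 / 2) ^ d := by
  have h : ∀ k : ℕ, (1 / 2 : ℝ≥0∞) ^ (k + (d + 1)) = (1 / 2) ^ (d + 1) * (1 / 2) ^ k := by
    intro k; rw [← pow_add, add_comm]
  rw [tsum_congr h, ENNReal.tsum_mul_left, ENNReal.tsum_geometric]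
  have h2 : (1 - 1 / 2 : ℝ≥0∞)⁻¹ = 2 := by
    rw [one_div, ENNReal.one_sub_inv_two, inv_inv]
  rw [h2, pow_succ, mul_assoc, mul_comm (1 / 2 : ℝ≥0∞) 2, two_mul_half, mul_one]

/-- The pruned set. -/
def Kp (K : Set Cantor) : Set Cantor := K \ ⋃ m, Rm K m

lemma Kp_dense {K : Set Cantor} {y : Cantor} (hy : y ∈ Kp K) (n : ℕ) :
    (1 / 2 : ℝ≥0∞) ^ (qq n + 1) ≤ mu (Kp K ∩ cy n y) := by
  have hyR : ∀ m, y ∉ Rm K m := fun m hm => hy.2 (Set.mem_iUnion.2 ⟨m, hm⟩)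
  have hlow : (1 / 2 : ℝ≥0∞) ^ qq n < mu (K ∩ cy n y) := not_le.1 (hyR n)
  have hsub : K ∩ cy n y ⊆ (Kp K ∩ cy n y) ∪ ⋃ k, (K ∩ Rm K (n + 1 + k)) := by
    rintro x ⟨hx, hxc⟩
    by_cases h : x ∈ ⋃ m, Rm K m
    · obtain ⟨m, hm⟩ := Set.mem_iUnion.1 h
      by_cases hmn : m ≤ n
      · exfalso
        apply hyR m
        have hm' : mu (K ∩ cy m x) ≤ (1 / 2) ^ qq m := hm
        rw [cy_eq hxc hmn] at hm'
        exact hm'
      · right
        obtain ⟨k, rfl⟩ := Nat.exists_eq_add_of_le (show n + 1 ≤ m by omega)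
        exact Set.mem_iUnion.2 ⟨k, hx, hm⟩
    · exact Or.inl ⟨⟨hx, h⟩, hxc⟩
  have hsum : mu (⋃ k, (K ∩ Rm K (n + 1 + k))) ≤ (1 / 2) ^ (qq n + 1) := by
    calc mu (⋃ k, (K ∩ Rm K (n + 1 + k))) ≤ ∑' k, mu (K ∩ Rm K (n + 1 + k)) :=
          measure_iUnion_le _
      _ ≤ ∑' k : ℕ, (1 / 2 : ℝ≥0∞) ^ (k + ((qq n + 1) + 1)) := by
          refine ENNReal.tsum_le_tsum fun k => ?_
          refine (mu_Rm K _).trans ?_
          obtain ⟨d, hd⟩ : ∃ d, qq (n + 1 + k) = (n + 1 + k) + (k + ((qq n + 1) + 1) + d) := by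
            refine ⟨qq (n + 1 + k) - ((n + 1 + k) + (k + ((qq n + 1) + 1))), ?_⟩
            have : (n + 1 + k) + (k + ((qq n + 1) + 1)) ≤ qq (n + 1 + k) := by
              unfold qq; nlinarith [sq_nonneg (n : ℤ)]
            omega
          rw [hd, two_pow_mul]
          exact pow_le_pow_right_of_le_one' half_le_one'' (by omega)
      _ = (1 / 2) ^ (qq n + 1) := tsum_half _
  have h1 : mu (K ∩ cy n y) ≤ mu (Kp K ∩ cy n y) + (1 / 2) ^ (qq n + 1) :=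
    (measure_mono hsub).trans ((measure_union_le _ _).trans (by gcongr))
  have h2 : (1 / 2 : ℝ≥0∞) ^ qq n = (1 / 2) ^ (qq n + 1) + (1 / 2) ^ (qq n + 1) := by
    rw [← two_mul, pow_succ, mul_comm, mul_assoc, mul_comm (1 / 2 : ℝ≥0∞) 2, two_mul_half,
      mul_one]
  rw [h2] at hlow
  have h3 := hlow.le.trans h1
  exact (ENNReal.add_le_add_iff_right (ENNReal.pow_ne_top (by simp))).1 h3

lemma exists_K {d : ℕ → Set Cantor} (hd : OmegaBar d) :
    ∃ K : Set Cantor, IsClosed K ∧ K.Nonempty ∧ (∃ m, ∀ n, m ≤ n → Disjoint K (d n)) ∧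
      ∀ y ∈ K, ∀ n, (1 / 2 : ℝ≥0∞) ^ (qq n + 1) ≤ mu (K ∩ cy n y) := by
  obtain ⟨m, hm⟩ := tail_small hd (e := 1 / 2) (by simp)
  set K := (⋃ n ∈ Set.Ici m, d n)ᶜ with hK
  have hopen : IsOpen (⋃ n ∈ Set.Ici m, d n) := isOpen_biUnion fun n _ => (hd.1 n).isOpen
  have hKm : (1 / 2 : ℝ≥0∞) ≤ mu K := by
    rw [hK, prob_compl_eq_one_sub hopen.measurableSet]
    have : (1 / 2 : ℝ≥0∞) = 1 - 1 / 2 := by
      rw [one_div, ENNReal.one_sub_inv_two]
    rw [this]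
    exact tsub_le_tsub_left hm _
  refine ⟨Kp K, ?_, ?_, ⟨m, fun n hn => ?_⟩, fun y hy n => Kp_dense hy n⟩
  · exact (hopen.isClosed_compl).sdiff (isOpen_iUnion fun m => isOpen_Rm K m)
  · by_contra hne
    rw [Set.not_nonempty_iff_eq_empty] at hne
    have hsub : K ⊆ ⋃ k, (K ∩ Rm K k) := by
      intro x hx
      by_contra h
      have : x ∈ Kp K := ⟨hx, fun h' => h (by
        obtain ⟨k, hk⟩ := Set.mem_iUnion.1 h'
        exact Set.mem_iUnion.2 ⟨k, hx, hk⟩)⟩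
      rw [hne] at this
      exact this
    have h1 : mu K ≤ (1 / 2) ^ 2 := by
      calc mu K ≤ mu (⋃ k, (K ∩ Rm K k)) := measure_mono hsub
        _ ≤ ∑' k, mu (K ∩ Rm K k) := measure_iUnion_le _
        _ ≤ ∑' k : ℕ, (1 / 2 : ℝ≥0∞) ^ (k + (2 + 1)) := by
            refine ENNReal.tsum_le_tsum fun k => (mu_Rm K k).trans ?_
            obtain ⟨e, he⟩ : ∃ e, qq k = k + (k + (2 + 1) + e) := by
              refine ⟨qq k - (k + (k + (2 + 1))), ?_⟩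
              have : k + (k + (2 + 1)) ≤ qq k := by unfold qq; nlinarith
              omega
            rw [he, two_pow_mul]
            exact pow_le_pow_right_of_le_one' half_le_one'' (by omega)
        _ = (1 / 2) ^ 2 := tsum_half _
    have h2 : (1 / 2 : ℝ≥0∞) ≤ (1 / 2) ^ 2 := hKm.trans h1
    have h3 := ENNReal.toReal_mono (ENNReal.pow_ne_top (by simp)) h2
    rw [ENNReal.toReal_pow] at h3
    norm_num at h3
  · rw [Set.disjoint_left]
    intro x hx hxd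
    exact hx.1 (Set.mem_iUnion₂.2 ⟨n, hn, hxd⟩)

/-- A code is bad for `K` if some live cylinder (of length at most `cp`) misses its set. -/
def Bad (K : Set Cantor) (s : ℕ) : Prop :=
  ∃ y ∈ K, ∃ m, m ≤ cp s ∧ K ∩ cy m y ∩ U s = ∅

open Classical in
/-- The weight of a code. -/
noncomputable def wt (K : Set Cantor) (s : ℕ) : ℝ≥0∞ :=
  if Bad K s then (1 / 2) ^ cj s * (1 / 8) ^ cp s else 0

lemma sum_bad {K : Set Cantor}
    (hK : ∀ y ∈ K, ∀ n, (1 / 2 : ℝ≥0∞) ^ (qq n + 1) ≤ mu (K ∩ cy n y)) {y : Cantor}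
    (hy : y ∈ K) (m : ℕ) (A : Finset ℕ) (hA : ∀ s ∈ A, K ∩ cy m y ∩ U s = ∅) :
    ∑ s ∈ A, (1 / 2 : ℝ≥0∞) ^ cj s ≤ ((qq m + 1 : ℕ) : ℝ≥0∞) := by
  have hsub : K ∩ cy m y ⊆ ⋂ s ∈ A, (U s)ᶜ := by
    intro x hx
    refine Set.mem_iInter₂.2 fun s hs hxU => ?_
    have : x ∈ K ∩ cy m y ∩ U s := ⟨hx, hxU⟩
    rw [hA s hs] at this
    exact this
  have h := real_bound A (qq m + 1) ((hK y hy m).trans (measure_mono hsub))
  have h2 : ∑ s ∈ A, (1 / 2 : ℝ≥0∞) ^ cj s = ENNReal.ofReal (∑ s ∈ A, (1 / 2 : ℝ) ^ cj s) := by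
    rw [ENNReal.ofReal_sum_of_nonneg (fun s _ => by positivity)]
    refine Finset.sum_congr rfl fun s _ => ?_
    rw [ENNReal.ofReal_pow (by norm_num)]
    congr 1
    rw [ENNReal.ofReal_div_of_pos (by norm_num)]
    simp
  rw [h2, ← ENNReal.ofReal_natCast]
  exact ENNReal.ofReal_le_ofReal h

open Classical in
lemma tsum_bad {K : Set Cantor}
    (hK : ∀ y ∈ K, ∀ n, (1 / 2 : ℝ≥0∞) ^ (qq n + 1) ≤ mu (K ∩ cy n y)) {y : Cantor}
    (hy : y ∈ K) (m : ℕ) :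
    ∑' s, (if K ∩ cy m y ∩ U s = ∅ then (1 / 2 : ℝ≥0∞) ^ cj s else 0) ≤
      ((qq m + 1 : ℕ) : ℝ≥0∞) := by
  rw [ENNReal.tsum_eq_iSup_sum]
  refine iSup_le fun A => ?_
  rw [← Finset.sum_filter]
  exact sum_bad hK hy m _ fun s hs => (Finset.mem_filter.1 hs).2

lemma qq_le (n : ℕ) : qq n + 1 ≤ 8 * 2 ^ n := by
  unfold qq
  induction n with
  | zero => norm_num
  | succ n ih =>
    rcases Nat.lt_or_ge n 2 with h | h
    · interval_cases n <;> norm_num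
    · have : (n + 1 + 2) ^ 2 + 1 ≤ 2 * ((n + 2) ^ 2 + 1) := by nlinarith
      calc (n + 1 + 2) ^ 2 + 1 ≤ 2 * ((n + 2) ^ 2 + 1) := this
        _ ≤ 2 * (8 * 2 ^ n) := Nat.mul_le_mul_left 2 ih
        _ = 8 * 2 ^ (n + 1) := by ring

lemma eighth_pow (n : ℕ) : (1 / 8 : ℝ≥0∞) ^ n = (1 / 2) ^ (3 * n) := by
  rw [pow_mul]
  congr 1
  rw [one_div, one_div, ← ENNReal.inv_pow]
  congr 1
  norm_num

lemma eighth_le_one : (1 / 8 : ℝ≥0∞) ≤ 1 := by
  rw [one_div]; exact ENNReal.inv_le_one.2 (by norm_num)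

open Classical in
/-- The weights are summable. -/
lemma tsum_wt {K : Set Cantor}
    (hK : ∀ y ∈ K, ∀ n, (1 / 2 : ℝ≥0∞) ^ (qq n + 1) ≤ mu (K ∩ cy n y)) :
    ∑' s, wt K s ≠ ∞ := by
  -- the contribution of a node
  set F : (Σ m : ℕ, (Fin m → Bool)) → ℕ → ℝ≥0∞ := fun v s =>
    if (∃ y ∈ K, y ∈ cy v.1 (extB v.2)) ∧ K ∩ cy v.1 (extB v.2) ∩ U s = ∅ then
      (1 / 2) ^ cj s * (1 / 8) ^ v.1 else 0 with hF
  have h1 : ∀ s, wt K s ≤ ∑' v, F v s := by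
    intro s
    unfold wt
    by_cases hb : Bad K s
    · rw [if_pos hb]
      obtain ⟨y, hy, m, hm, he⟩ := hb
      refine le_trans ?_ (ENNReal.le_tsum (⟨m, fun i : Fin m => y i⟩ : Σ m : ℕ, (Fin m → Bool)))
      have hcy : cy m y = cy m (extB fun i : Fin m => y i) := cy_eq (mem_cy_extB y) le_rfl
      rw [hF]
      simp only
      rw [if_pos ⟨⟨y, hy, mem_cy_extB y⟩, by rw [← hcy]; exact he⟩]
      exact mul_le_mul_right (pow_le_pow_right_of_le_one' eighth_le_one hm) _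
    · rw [if_neg hb]; exact zero_le
  have h2 : ∀ v : (Σ m : ℕ, (Fin m → Bool)), ∑' s, F v s ≤ 8 * 2 ^ v.1 * (1 / 8) ^ v.1 := by
    intro v
    by_cases hv : ∃ y ∈ K, y ∈ cy v.1 (extB v.2)
    · obtain ⟨y, hy, hyc⟩ := hv
      have hcy : cy v.1 y = cy v.1 (extB v.2) := cy_eq hyc le_rfl
      have h3 : ∀ s, F v s ≤
          (if K ∩ cy v.1 y ∩ U s = ∅ then (1 / 2 : ℝ≥0∞) ^ cj s else 0) * (1 / 8) ^ v.1 := by
        intro s
        rw [hF, hcy]
        simp only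
        by_cases he : K ∩ cy v.1 (extB v.2) ∩ U s = ∅
        · rw [if_pos he]
          split_ifs
          · exact le_rfl
          · exact zero_le
        · rw [if_neg he, if_neg (fun h => he h.2)]
          exact zero_le
      calc ∑' s, F v s ≤ ∑' s, (if K ∩ cy v.1 y ∩ U s = ∅ then (1 / 2 : ℝ≥0∞) ^ cj s else 0) *
            (1 / 8) ^ v.1 := ENNReal.tsum_le_tsum h3
        _ = (∑' s, (if K ∩ cy v.1 y ∩ U s = ∅ then (1 / 2 : ℝ≥0∞) ^ cj s else 0)) *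
            (1 / 8) ^ v.1 := ENNReal.tsum_mul_right
        _ ≤ 8 * 2 ^ v.1 * (1 / 8) ^ v.1 := by
            gcongr
            refine (tsum_bad hK hy v.1).trans ?_
            exact_mod_cast qq_le v.1
    · have h3 : ∀ s, F v s = 0 := by
        intro s
        rw [hF]
        simp only
        rw [if_neg (fun h => hv h.1)]
      rw [tsum_congr h3, tsum_zero]
      exact zero_le
  have h4 : ∑' s, wt K s ≤ 16 := by
    calc ∑' s, wt K s ≤ ∑' s, ∑' v, F v s := ENNReal.tsum_le_tsum h1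
      _ = ∑' v, ∑' s, F v s := ENNReal.tsum_comm
      _ ≤ ∑' v : (Σ m : ℕ, (Fin m → Bool)), 8 * 2 ^ v.1 * (1 / 8 : ℝ≥0∞) ^ v.1 :=
          ENNReal.tsum_le_tsum h2
      _ = ∑' m : ℕ, ∑' _w : Fin m → Bool, 8 * 2 ^ m * (1 / 8 : ℝ≥0∞) ^ m :=
          ENNReal.tsum_sigma' _
      _ = ∑' m : ℕ, 8 * (1 / 2 : ℝ≥0∞) ^ m := by
          refine tsum_congr fun m => ?_
          rw [tsum_fintype, Finset.sum_const, Finset.card_univ]
          simp only [Fintype.card_fun, Fintype.card_bool, Fintype.card_fin, nsmul_eq_mul]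
          rw [eighth_pow]
          have e1 : (1 / 2 : ℝ≥0∞) ^ (3 * m) = (1 / 2) ^ m * ((1 / 2) ^ m * (1 / 2) ^ m) := by
            rw [← pow_add, ← pow_add]; congr 1; ring
          have e2 : (2 : ℝ≥0∞) ^ m * (1 / 2) ^ m = 1 := by
            rw [← mul_pow, two_mul_half, one_pow]
          rw [e1]
          push_cast
          calc (2 : ℝ≥0∞) ^ m * (8 * 2 ^ m * ((1 / 2) ^ m * ((1 / 2) ^ m * (1 / 2) ^ m)))
              = 8 * (2 ^ m * (1 / 2) ^ m) * (2 ^ m * (1 / 2) ^ m) * (1 / 2) ^ m := by ring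
            _ = 8 * (1 / 2) ^ m := by rw [e2]; ring
      _ = 16 := by
          rw [ENNReal.tsum_mul_left, ENNReal.tsum_geometric]
          rw [one_div, ENNReal.one_sub_inv_two, inv_inv]
          norm_num
  exact ne_top_of_le_ne_top (by simp) h4

end Pool.Agent.Nm65.Z72
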