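import Pool.Agent.Nm65.Z272

/-!
Theorem Z (MP_50671f), part 3: the Tukey maps.
-/

namespace Pool.Agent.Nm65.Z72

open MeasureTheory Set Cardinal TopologicalSpace
open scoped ENNReal

/-! ### The map on bounds -/

/-- Codes with consistent data. -/
def Valid (s : ℕ) : Prop :=
  cj s ≤ ca s ∧ cp s ≤ ca s ∧ mu (cl (ck s) : Set Cantor) ≤ (1 / 2) ^ cj s * (1 / 8) ^ cp s

/-- The bad codes whose block contains `n`. -/
def BS (K : Set Cantor) (n : ℕ) : Set ℕ := {s | Valid s ∧ Bad K s ∧ ca s ≤ n ∧ n < cb s}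

/-- The image sequence. -/
def psiK (K : Set Cantor) (n : ℕ) : Set Cantor := ⋃ s ∈ BS K n, (cl (ck s) : Set Cantor)

lemma finite_BS {K : Set Cantor} (hK : ∑' s, wt K s ≠ ∞) (n : ℕ) : (BS K n).Finite := by
  have h8 : (1 / 8 : ℝ≥0∞) ≠ 0 := by simp
  have h2 : (1 / 2 : ℝ≥0∞) ≠ 0 := by simp
  have hfin := ENNReal.finite_const_le_of_tsum_ne_top hK
    (ε := (1 / 2 : ℝ≥0∞) ^ n * (1 / 8) ^ n) (mul_ne_zero (pow_ne_zero _ h2) (pow_ne_zero _ h8))
  refine hfin.subset ?_
  rintro s ⟨⟨hj, hp, -⟩, hb, ha, -⟩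
  show (1 / 2 : ℝ≥0∞) ^ n * (1 / 8) ^ n ≤ wt K s
  unfold wt
  rw [if_pos hb]
  exact mul_le_mul' (pow_le_pow_right_of_le_one' half_le_one'' (by omega))
    (pow_le_pow_right_of_le_one' eighth_le_one (by omega))

open Classical in
lemma omegaBar_psiK {K : Set Cantor} (hK : ∑' s, wt K s ≠ ∞) : OmegaBar (psiK K) := by
  refine omegaBar_of_cover (fun n => isClopen_iUnion_finite (finite_BS hK n)
    fun s => (cl (ck s)).isClopen)
    (fun i => if Valid i ∧ Bad K i then (cl (ck i) : Set Cantor) else ∅) ?_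
    (fun i => Set.Ico (ca i) (cb i)) (fun i => Set.finite_Ico _ _) ?_
  · refine ne_top_of_le_ne_top hK (ENNReal.tsum_le_tsum fun i => ?_)
    by_cases h : Valid i ∧ Bad K i
    · rw [if_pos h]
      unfold wt
      rw [if_pos h.2]
      exact h.1.2.2
    · rw [if_neg h, measure_empty]
      exact zero_le
  · intro n x hx
    obtain ⟨s, hs, hx⟩ := Set.mem_iUnion₂.1 hx
    exact ⟨s, by rw [if_pos ⟨hs.1, hs.2.1⟩]; exact hx, hs.2.2.1, hs.2.2.2⟩

/-! ### The map on sequences -/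

/-- A code of the union of a block. -/
lemma exists_kc {c : ℕ → Set Cantor} (hc : ∀ n, IsClopen (c n)) (a b : ℕ) :
    ∃ k, (cl k : Set Cantor) = ⋃ n ∈ Set.Ico a b, c n := by
  obtain ⟨k, hk⟩ := cl_surj ⟨⋃ n ∈ Set.Ico a b, c n,
    isClopen_iUnion_finite (Set.finite_Ico a b) hc⟩
  exact ⟨k, by rw [hk]; rfl⟩

lemma exists_Phi {c : ℕ → Set Cantor} (hc : OmegaBar c) (kc : ℕ → ℕ → ℕ) (m : ℕ) :
    ∃ M, m < M ∧ mu (⋃ n ∈ Set.Ici M, c n) ≤ (1 / 2) ^ (m + 1) * (1 / 8) ^ m ∧
      ∀ a ≤ m, ∀ b ≤ m, ∀ j ≤ m, ∀ p ≤ m, ∀ i ∈ DD (mk (kc a b) a b j p), i < M := by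
  have h8 : (1 / 8 : ℝ≥0∞) ≠ 0 := by simp
  have h2 : (1 / 2 : ℝ≥0∞) ≠ 0 := by simp
  obtain ⟨m1, hm1⟩ := tail_small hc (e := (1 / 2 : ℝ≥0∞) ^ (m + 1) * (1 / 8) ^ m)
    (pos_iff_ne_zero.2 (mul_ne_zero (pow_ne_zero _ h2) (pow_ne_zero _ h8)))
  set B : Finset ℕ := (Finset.range (m + 1)).biUnion fun a => (Finset.range (m + 1)).biUnion
    fun b => (Finset.range (m + 1)).biUnion fun j => (Finset.range (m + 1)).biUnion fun p =>
      DD (mk (kc a b) a b j p) with hB
  refine ⟨m + 1 + m1 + (B.sup id + 1), by omega, ?_, ?_⟩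
  · refine (measure_mono ?_).trans hm1
    refine Set.biUnion_subset_biUnion_left ?_
    intro n hn
    simp only [Set.mem_Ici] at hn ⊢
    omega
  · intro a ha b hb j hj p hp i hi
    have : i ∈ B := by
      rw [hB]
      simp only [Finset.mem_biUnion, Finset.mem_range]
      exact ⟨a, by omega, b, by omega, j, by omega, p, by omega, hi⟩
    have h3 : i ≤ B.sup id := Finset.le_sup (f := id) this
    omega

/-- Block index. -/
def blk (F : ℕ → ℕ) (n : ℕ) : ℕ := Nat.findGreatest (fun j => F j ≤ n) n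

lemma blk_spec {F : ℕ → ℕ} (hF : StrictMono F) (h0 : F 0 = 0) (n : ℕ) :
    F (blk F n) ≤ n ∧ n < F (blk F n + 1) := by
  have h1 : F (blk F n) ≤ n :=
    Nat.findGreatest_spec (P := fun j => F j ≤ n) (Nat.zero_le n) (by rw [h0]; exact Nat.zero_le n)
  refine ⟨h1, ?_⟩
  by_contra h
  have h2 : F (blk F n + 1) ≤ n := not_lt.1 h
  have h3 : blk F n + 1 ≤ n := le_trans (hF.id_le _) h2
  have h4 : blk F n + 1 ≤ blk F n := Nat.le_findGreatest h3 h2
  omega

/-- The block structure of a sequence. -/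
lemma exists_F {c : ℕ → Set Cantor} (hc : OmegaBar c) :
    ∃ (F : ℕ → ℕ) (kc : ℕ → ℕ → ℕ), StrictMono F ∧ F 0 = 0 ∧
      (∀ a b, (cl (kc a b) : Set Cantor) = ⋃ n ∈ Set.Ico a b, c n) ∧
      (∀ j, Valid (mk (kc (F j) (F (j + 1))) (F j) (F (j + 1)) j (F (j - 1)))) ∧
      (∀ j, ∀ i ∈ DD (mk (kc (F j) (F (j + 1))) (F j) (F (j + 1)) j (F (j - 1))),
        i < F (j + 2)) := by
  choose kc hkc using exists_kc hc.1
  choose Phi hPhi1 hPhi2 hPhi3 using exists_Phi hc kc
  set F : ℕ → ℕ := fun n => Nat.rec 0 (fun _ r => Phi r) n with hF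
  have hF0 : F 0 = 0 := rfl
  have hFs : ∀ n, F (n + 1) = Phi (F n) := fun n => rfl
  have hmono : StrictMono F := strictMono_nat_of_lt_succ fun n => by
    rw [hFs]; exact hPhi1 _
  refine ⟨F, kc, hmono, hF0, hkc, fun j => ⟨?_, ?_, ?_⟩, fun j i hi => ?_⟩
  · simp only [cj_mk, ca_mk]; exact hmono.id_le j
  · simp only [cp_mk, ca_mk]; exact hmono.monotone (Nat.sub_le j 1)
  · simp only [ck_mk, cj_mk, cp_mk]
    rcases j with - | j
    · rw [show (0 - 1 : ℕ) = 0 from rfl, hF0, pow_zero, pow_zero, one_mul]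
      exact prob_le_one
    · rw [Nat.add_sub_cancel]
      have h1 : (cl (kc (F (j + 1)) (F (j + 1 + 1))) : Set Cantor) ⊆
          ⋃ n ∈ Set.Ici (Phi (F j)), c n := by
        rw [hkc, ← hFs]
        exact Set.biUnion_subset_biUnion_left Set.Ico_subset_Ici_self
      refine (measure_mono h1).trans ((hPhi2 (F j)).trans ?_)
      exact mul_le_mul' (pow_le_pow_right_of_le_one' half_le_one''
        (by have := hmono.id_le j; simp only [id] at this; omega)) le_rfl
  · rw [hFs (j + 1)]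
    have h1 := hmono.id_le (j + 1)
    simp only [id] at h1
    exact hPhi3 (F (j + 1)) (F j) (hmono.monotone (Nat.le_succ j)) (F (j + 1)) le_rfl j
      (by omega) (F (j - 1)) (hmono.monotone (show j - 1 ≤ j + 1 by omega)) i hi

lemma exists_phi {c : ℕ → Set Cantor} (hc : OmegaBar c) :
    ∃ c' : ℕ → Set Cantor, OmegaBar c' ∧ ∀ K : Set Cantor, IsClosed K → K.Nonempty →
      ∀ J, IsIdeal J → {n | ¬ c n ⊆ psiK K n} ∉ J → ∃ x ∈ K, {n | x ∈ c' n} ∉ J := by
  obtain ⟨F, kc, hmono, hF0, hkc, hval, hDD⟩ := exists_F hc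
  set cd : ℕ → ℕ := fun j => mk (kc (F j) (F (j + 1))) (F j) (F (j + 1)) j (F (j - 1)) with hcd
  have hblk := blk_spec hmono hF0
  refine ⟨fun n => U (cd (blk F n)), ?_, ?_⟩
  · refine omegaBar_of_cover (fun n => isClopen_U _) (fun j => U (cd j)) ?_
      (fun j => Set.Ico (F j) (F (j + 1))) (fun j => Set.finite_Ico _ _) ?_
    · have h1 : ∀ j, mu (U (cd j)) = (1 / 2) ^ j := by
        intro j; rw [mu_U, hcd]; simp only [cj_mk]
      rw [tsum_congr h1, ENNReal.tsum_geometric, one_div, ENNReal.one_sub_inv_two, inv_inv]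
      simp
    · intro n x hx
      exact ⟨blk F n, hx, hblk n⟩
  · intro K hKc hKne J hJ hP
    -- one residue class is positive
    have hr : ∃ r < 3, {n | ¬ c n ⊆ psiK K n ∧ blk F n % 3 = r} ∉ J := by
      by_contra hno
      push Not at hno
      apply hP
      have h := hJ.2.1 _ (hJ.2.1 _ (hno 0 (by norm_num)) _ (hno 1 (by norm_num))) _
        (hno 2 (by norm_num))
      refine hJ.1 _ h _ ?_
      intro n hn
      have : blk F n % 3 = 0 ∨ blk F n % 3 = 1 ∨ blk F n % 3 = 2 := by omega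
      rcases this with h | h | h
      · exact Or.inl (Or.inl ⟨hn, h⟩)
      · exact Or.inl (Or.inr ⟨hn, h⟩)
      · exact Or.inr ⟨hn, h⟩
    obtain ⟨r, hr3, hPr⟩ := hr
    -- the positive blocks can be met from every live cylinder
    have hmeet : ∀ n, ¬ c n ⊆ psiK K n → ∀ y ∈ K,
        (K ∩ cy (F (blk F n - 1)) y ∩ U (cd (blk F n))).Nonempty := by
      intro n hn y hy
      rw [Set.nonempty_iff_ne_empty]
      intro he
      apply hn
      have hBS : cd (blk F n) ∈ BS K n := by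
        refine ⟨hval _, ⟨y, hy, F (blk F n - 1), ?_, he⟩, ?_, ?_⟩
        · simp only [hcd, cp_mk]; exact le_rfl
        · simp only [hcd, ca_mk]; exact (hblk n).1
        · simp only [hcd, cb_mk]; exact (hblk n).2
      refine Set.Subset.trans ?_ (Set.subset_biUnion_of_mem
        (u := fun s => (cl (ck s) : Set Cantor)) hBS)
      simp only [hcd, ck_mk]
      rw [hkc]
      exact Set.subset_biUnion_of_mem (u := c) (show n ∈ Set.Ico _ _ from hblk n)
    have hstep : ∀ (t : ℕ) (y : K), ∃ y' : K, (y' : Cantor) ∈ cy (F (3 * t + r - 1)) y ∧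
        ((∃ n, ¬ c n ⊆ psiK K n ∧ blk F n = 3 * t + r) → (y' : Cantor) ∈ U (cd (3 * t + r))) := by
      intro t y
      by_cases h : ∃ n, ¬ c n ⊆ psiK K n ∧ blk F n = 3 * t + r
      · obtain ⟨n, hn, hb⟩ := h
        obtain ⟨y', ⟨h1, h2⟩, h3⟩ := hmeet n hn y y.2
        rw [hb] at h2 h3
        exact ⟨⟨y', h1⟩, h2, fun _ => h3⟩
      · exact ⟨y, self_mem_cy _ _, fun h' => absurd h' h⟩
    choose f hf1 hf2 using hstep
    obtain ⟨y0, hy0⟩ := hKne
    set Y : ℕ → K := fun t => Nat.rec ⟨y0, hy0⟩ (fun t y => f t y) t with hY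
    have hYs : ∀ t, Y (t + 1) = f t (Y t) := fun t => rfl
    set L : ℕ → ℕ := fun t => F (3 * t + r - 1) with hL
    have hLmono : Monotone L := by
      intro t t' htt
      exact hmono.monotone (by omega)
    have hYcy : ∀ t t', t ≤ t' → (Y t' : Cantor) ∈ cy (L t) (Y t) := by
      intro t t' htt
      induction t', htt using Nat.le_induction with
      | base => exact self_mem_cy _ _
      | succ t' htt ih =>
        rw [mem_cy] at ih ⊢
        intro i hi
        have h1 := hf1 t' (Y t')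
        rw [← hYs, mem_cy] at h1
        rw [h1 i (lt_of_lt_of_le hi (hLmono htt)), ih i hi]
    have hLbig : ∀ i, i < L (i + 1) := by
      intro i
      have h1 := hmono.id_le (3 * (i + 1) + r - 1)
      simp only [id] at h1
      show i < F (3 * (i + 1) + r - 1)
      omega
    set x : Cantor := fun i => (Y (i + 1) : Cantor) i with hx
    have hxcy : ∀ t, x ∈ cy (L t) (Y t) := by
      intro t
      rw [mem_cy]
      intro i hi
      show (Y (i + 1) : Cantor) i = (Y t : Cantor) i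
      rcases le_total (i + 1) t with h | h
      · exact (mem_cy.1 (hYcy _ _ h) i (hLbig i)).symm
      · exact mem_cy.1 (hYcy _ _ h) i hi
    have hxK : x ∈ K := by
      have ht : Filter.Tendsto (fun t => (Y t : Cantor)) Filter.atTop (nhds x) := by
        rw [tendsto_pi_nhds]
        intro i
        refine tendsto_const_nhds.congr' ?_
        filter_upwards [Filter.eventually_ge_atTop (i + 1)] with t hti
        exact (mem_cy.1 (hYcy _ _ hti) i (hLbig i)).symm
      exact hKc.mem_of_tendsto ht (Filter.Eventually.of_forall fun t => (Y t).2)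
    have hxU : ∀ t, (∃ n, ¬ c n ⊆ psiK K n ∧ blk F n = 3 * t + r) → x ∈ U (cd (3 * t + r)) := by
      intro t hn
      have h1 := hf2 t (Y t) hn
      rw [← hYs] at h1
      intro i hi
      have h2 : i < L (t + 1) := by
        have := hDD (3 * t + r) i hi
        show i < F (3 * (t + 1) + r - 1)
        have e : 3 * (t + 1) + r - 1 = 3 * t + r + 2 := by omega
        rw [e]; exact this
      rw [mem_cy.1 (hxcy (t + 1)) i h2]
      exact h1 i hi
    refine ⟨x, hxK, fun hJx => hPr (hJ.1 _ hJx _ ?_)⟩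
    rintro n ⟨hn, hb⟩
    have e : blk F n = 3 * (blk F n / 3) + r := by omega
    have := hxU (blk F n / 3) ⟨n, hn, e⟩
    rw [← e] at this
    exact this

open Classical in
/-- Theorem Z. -/
theorem thmZ : ∃ phi psi : (ℕ → Set Cantor) → (ℕ → Set Cantor),
    (∀ c, OmegaBar c → OmegaBar (phi c)) ∧ (∀ d, OmegaBar d → OmegaBar (psi d)) ∧
    ∀ J, IsIdeal J → ∀ c d, OmegaBar c → OmegaBar d → NJ J (phi c) ⊆ NJ J d →
      {n | ¬ c n ⊆ psi d n} ∈ J := by
  refine ⟨fun c => if h : OmegaBar c then (exists_phi h).choose else c,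
    fun d => if h : OmegaBar d then psiK (exists_K h).choose else d, ?_, ?_, ?_⟩
  · intro c hc
    simp only [dif_pos hc]
    exact (exists_phi hc).choose_spec.1
  · intro d hd
    simp only [dif_pos hd]
    exact omegaBar_psiK (tsum_wt (exists_K hd).choose_spec.2.2.2)
  · intro J hJ c d hc hd hsub
    simp only [dif_pos hc] at hsub
    simp only [dif_pos hd]
    obtain ⟨hK1, hK2, ⟨m, hm⟩, hK4⟩ := (exists_K hd).choose_spec
    by_contra hno
    obtain ⟨x, hxK, hx⟩ := (exists_phi hc).choose_spec.2 _ hK1 hK2 J hJ hno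
    refine hsub hx (hJ.2.2.1 _ ((Set.finite_lt_nat m).subset ?_))
    intro n hn
    by_contra hmn
    exact Set.disjoint_left.1 (hm n (not_lt.1 hmn)) hxK hn

end Pool.Agent.Nm65.Z72
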