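import Pool.Agent.Nm65.Z372

/-!
Theorem Z (MP_50671f), part 4: the cardinal invariants.
-/

namespace Pool.Agent.Nm65.Z72

open MeasureTheory Set Cardinal TopologicalSpace
open scoped ENNReal

/-- `c` is below `d` modulo `J`. -/
def LeJ (J : Set (Set ℕ)) (c d : ℕ → Set Cantor) : Prop := {n | ¬ c n ⊆ d n} ∈ J

/-- The least size of an unbounded family. -/
noncomputable def bJ (J : Set (Set ℕ)) : Cardinal :=
  sInf {κ : Cardinal | ∃ F : Set (ℕ → Set Cantor), (∀ c ∈ F, OmegaBar c) ∧ #F = κ ∧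
    ¬ ∃ d, OmegaBar d ∧ ∀ c ∈ F, LeJ J c d}

/-- The least size of a dominating family. -/
noncomputable def dJ (J : Set (Set ℕ)) : Cardinal :=
  sInf {κ : Cardinal | ∃ F : Set (ℕ → Set Cantor), (∀ c ∈ F, OmegaBar c) ∧ #F = κ ∧
    ∀ c, OmegaBar c → ∃ d ∈ F, LeJ J c d}

lemma LeJ.NJ {J : Set (Set ℕ)} (hJ : IsIdeal J) {c d : ℕ → Set Cantor} (h : LeJ J c d) :
    NJ J c ⊆ NJ J d := by
  intro x hx hd
  refine hx (hJ.1 _ (hJ.2.1 _ hd _ h) _ ?_)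
  intro n hn
  by_cases h' : c n ⊆ d n
  · exact Or.inl (h' hn)
  · exact Or.inr h'

lemma LeJ.NsJ {J : Set (Set ℕ)} (hJ : IsIdeal J) {c d : ℕ → Set Cantor} (h : LeJ J c d) :
    NsJ J c ⊆ NsJ J d := by
  intro x hx
  refine hJ.1 _ (hJ.2.1 _ hx _ h) _ ?_
  intro n hn
  by_cases h' : c n ⊆ d n
  · exact Or.inl fun hc => hn (h' hc)
  · exact Or.inr h'

lemma LeJ.mono {J K : Set (Set ℕ)} (hJK : J ⊆ K) {c d : ℕ → Set Cantor} (h : LeJ J c d) :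
    LeJ K c d := hJK h

lemma LeJ.refl {J : Set (Set ℕ)} (hJ : IsIdeal J) (c : ℕ → Set Cantor) : LeJ J c c := by
  have : {n | ¬ c n ⊆ c n} = ∅ := by ext n; simp
  unfold LeJ
  rw [this]
  exact hJ.2.2.1 _ Set.finite_empty

/-- The sequence of cylinders of a point. -/
lemma omegaBar_cy (x : Cantor) : OmegaBar fun n => cy n x := by
  refine omegaBar_of_cover (fun n => isClopen_cy n x) (fun n => cy n x) ?_ (fun n => {n})
    (fun n => Set.finite_singleton n) (fun n y hy => ⟨n, hy, rfl⟩)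
  have h1 : ∀ n, mu (cy n x) = (1 / 2) ^ n := by
    intro n; unfold cy; rw [mu_cylF, Finset.card_range]
  rw [tsum_congr h1, ENNReal.tsum_geometric, one_div, ENNReal.one_sub_inv_two, inv_inv]
  simp

lemma NsJ_subset_NJ {J : Set (Set ℕ)} (hJ : IsIdeal J) (c : ℕ → Set Cantor) :
    NsJ J c ⊆ NJ J c := by
  intro x hx hn
  refine hJ.2.2.2 (hJ.1 _ (hJ.2.1 _ hx _ hn) _ ?_)
  intro n _
  by_cases h : x ∈ c n
  · exact Or.inr h
  · exact Or.inl h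

lemma mem_NsJ_cy {J : Set (Set ℕ)} (hJ : IsIdeal J) (x : Cantor) :
    x ∈ NsJ J (fun n => cy n x) := by
  have : {n | x ∉ cy n x} = ∅ := by ext n; simp [self_mem_cy]
  show {n | x ∉ cy n x} ∈ J
  rw [this]
  exact hJ.2.2.1 _ Set.finite_empty

lemma NJ_ne_univ {J : Set (Set ℕ)} (hJ : IsIdeal J) {c : ℕ → Set Cantor} (hc : OmegaBar c) :
    NJ J c ≠ Set.univ := by
  intro h
  have h1 : NJ J c ⊆ {x | {n | x ∈ c n}.Infinite} := fun x hx hfin => hx (hJ.2.2.1 _ hfin)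
  rw [h] at h1
  have h2 : mu Set.univ ≤ 0 := by
    rw [← hc.2]; exact measure_mono h1
  rw [measure_univ] at h2
  exact absurd h2 (by simp)

lemma univ_notMem_calN {J : Set (Set ℕ)} (hJ : IsIdeal J) : Set.univ ∉ calN J := by
  rintro ⟨c, hc, h⟩
  exact NJ_ne_univ hJ hc (Set.univ_subset_iff.1 h)

lemma univ_notMem_calNs {J : Set (Set ℕ)} (hJ : IsIdeal J) : Set.univ ∉ calNs J := by
  rintro ⟨c, hc, h⟩
  exact NJ_ne_univ hJ hc (Set.univ_subset_iff.1 (h.trans (NsJ_subset_NJ hJ c)))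

lemma sUnion_calNs {J : Set (Set ℕ)} (hJ : IsIdeal J) : ⋃₀ calNs J = Set.univ := by
  rw [Set.eq_univ_iff_forall]
  intro x
  exact ⟨NsJ J (fun n => cy n x), ⟨_, omegaBar_cy x, Set.Subset.rfl⟩, mem_NsJ_cy hJ x⟩

lemma sUnion_calN {J : Set (Set ℕ)} (hJ : IsIdeal J) : ⋃₀ calN J = Set.univ := by
  rw [Set.eq_univ_iff_forall]
  intro x
  exact ⟨NJ J (fun n => cy n x), ⟨_, omegaBar_cy x, Set.Subset.rfl⟩,
    NsJ_subset_NJ hJ _ (mem_NsJ_cy hJ x)⟩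

/-- General bound for the additivity. -/
lemma bJ_le_add_of {J : Set (Set ℕ)} (I : Set (Set Cantor)) (N : (ℕ → Set Cantor) → Set Cantor)
    (hI : ∀ A ∈ I, ∃ c, OmegaBar c ∧ A ⊆ N c)
    (hN : ∀ c, OmegaBar c → ∀ A, A ⊆ N c → A ∈ I)
    (hmono : ∀ c d, LeJ J c d → N c ⊆ N d) (hne : ⋃₀ I ∉ I) : bJ J ≤ add I := by
  unfold add
  refine le_csInf ⟨_, I, Set.Subset.rfl, rfl, hne⟩ ?_
  rintro κ ⟨F, hF, rfl, hU⟩
  choose! f hf1 hf2 using hI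
  have h1 : bJ J ≤ #(f '' F) := by
    refine csInf_le' ⟨f '' F, ?_, rfl, ?_⟩
    · rintro _ ⟨A, hA, rfl⟩
      exact hf1 A (hF hA)
    · rintro ⟨d, hd, hb⟩
      refine hU (hN d hd _ (Set.sUnion_subset fun A hA => ?_))
      exact (hf2 A (hF hA)).trans (hmono _ _ (hb _ ⟨A, hA, rfl⟩))
  exact h1.trans Cardinal.mk_image_le

/-- General bound for the cofinality. -/
lemma cof_le_dJ_of {J : Set (Set ℕ)} (hJ : IsIdeal J) (I : Set (Set Cantor))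
    (N : (ℕ → Set Cantor) → Set Cantor)
    (hI : ∀ A ∈ I, ∃ c, OmegaBar c ∧ A ⊆ N c)
    (hN : ∀ c, OmegaBar c → N c ∈ I)
    (hmono : ∀ c d, LeJ J c d → N c ⊆ N d) : cof I ≤ dJ J := by
  unfold dJ
  refine le_csInf ⟨_, {c | OmegaBar c}, fun c hc => hc, rfl, fun c hc => ⟨c, hc, LeJ.refl hJ c⟩⟩ ?_
  rintro κ ⟨F, hF, rfl, hD⟩
  refine le_trans (csInf_le' ⟨N '' F, ?_, rfl, ?_⟩) Cardinal.mk_image_le
  · rintro _ ⟨c, hc, rfl⟩
    exact hN c (hF c hc)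
  · intro A hA
    obtain ⟨c, hc, hAc⟩ := hI A hA
    obtain ⟨d, hd, hcd⟩ := hD c hc
    exact ⟨N d, ⟨d, hd, rfl⟩, hAc.trans (hmono c d hcd)⟩

lemma bJ_le_add {J : Set (Set ℕ)} (hJ : IsIdeal J) : bJ J ≤ add (calN J) :=
  bJ_le_add_of (calN J) (NJ J) (fun _ h => h) (fun c hc A h => ⟨c, hc, h⟩)
    (fun _ _ h => h.NJ hJ) (by rw [sUnion_calN hJ]; exact univ_notMem_calN hJ)

lemma bJ_le_adds {J : Set (Set ℕ)} (hJ : IsIdeal J) : bJ J ≤ add (calNs J) :=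
  bJ_le_add_of (calNs J) (NsJ J) (fun _ h => h) (fun c hc A h => ⟨c, hc, h⟩)
    (fun _ _ h => h.NsJ hJ) (by rw [sUnion_calNs hJ]; exact univ_notMem_calNs hJ)

lemma cof_le_dJ {J : Set (Set ℕ)} (hJ : IsIdeal J) : cof (calN J) ≤ dJ J :=
  cof_le_dJ_of hJ (calN J) (NJ J) (fun _ h => h) (fun c hc => ⟨c, hc, Set.Subset.rfl⟩)
    (fun _ _ h => h.NJ hJ)

lemma cofs_le_dJ {J : Set (Set ℕ)} (hJ : IsIdeal J) : cof (calNs J) ≤ dJ J :=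
  cof_le_dJ_of hJ (calNs J) (NsJ J) (fun _ h => h) (fun c hc => ⟨c, hc, Set.Subset.rfl⟩)
    (fun _ _ h => h.NsJ hJ)

lemma add_le_bJ {J : Set (Set ℕ)} (hJ : IsIdeal J) : add (calN J) ≤ bJ J := by
  obtain ⟨phi, psi, hphi, hpsi, hZ⟩ := thmZ
  unfold bJ
  refine le_csInf ⟨_, {c | OmegaBar c}, fun c hc => hc, rfl, ?_⟩ ?_
  · rintro ⟨d, hd, hb⟩
    have h1 : ⋃₀ calN J ⊆ NJ J d := by
      refine Set.sUnion_subset fun A hA => ?_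
      obtain ⟨c, hc, hAc⟩ := hA
      exact hAc.trans ((hb c hc).NJ hJ)
    rw [sUnion_calN hJ] at h1
    exact NJ_ne_univ hJ hd (Set.univ_subset_iff.1 h1)
  · rintro κ ⟨F, hF, rfl, hU⟩
    refine le_trans (csInf_le' ⟨(fun c => NJ J (phi c)) '' F, ?_, rfl, ?_⟩) Cardinal.mk_image_le
    · rintro _ ⟨c, hc, rfl⟩
      exact ⟨phi c, hphi c (hF c hc), Set.Subset.rfl⟩
    · rintro ⟨d, hd, hb⟩
      refine hU ⟨psi d, hpsi d hd, fun c hc => hZ J hJ c d (hF c hc) hd ?_⟩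
      exact (Set.subset_sUnion_of_mem
        (show NJ J (phi c) ∈ (fun c => NJ J (phi c)) '' F from ⟨c, hc, rfl⟩)).trans hb

lemma dJ_le_cof {J : Set (Set ℕ)} (hJ : IsIdeal J) : dJ J ≤ cof (calN J) := by
  obtain ⟨phi, psi, hphi, hpsi, hZ⟩ := thmZ
  unfold cof
  refine le_csInf ⟨_, calN J, Set.Subset.rfl, rfl, fun A hA => ⟨A, hA, Set.Subset.rfl⟩⟩ ?_
  rintro κ ⟨B, hB, rfl, hcof⟩
  have hB' : ∀ A ∈ B, ∃ d, OmegaBar d ∧ A ⊆ NJ J d := fun A hA => hB hA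
  choose! f hf1 hf2 using hB'
  refine le_trans (csInf_le' ⟨(fun A => psi (f A)) '' B, ?_, rfl, ?_⟩) Cardinal.mk_image_le
  · rintro _ ⟨A, hA, rfl⟩
    exact hpsi _ (hf1 A hA)
  · intro c hc
    obtain ⟨A, hA, hcA⟩ := hcof (NJ J (phi c)) ⟨phi c, hphi c hc, Set.Subset.rfl⟩
    exact ⟨psi (f A), ⟨A, hA, rfl⟩, hZ J hJ c (f A) hc (hf1 A hA) (hcA.trans (hf2 A hA))⟩

theorem add_eq_bJ {J : Set (Set ℕ)} (hJ : IsIdeal J) : add (calN J) = bJ J :=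
  le_antisymm (add_le_bJ hJ) (bJ_le_add hJ)

theorem cof_eq_dJ {J : Set (Set ℕ)} (hJ : IsIdeal J) : cof (calN J) = dJ J :=
  le_antisymm (cof_le_dJ hJ) (dJ_le_cof hJ)

theorem add_le_adds {J : Set (Set ℕ)} (hJ : IsIdeal J) : add (calN J) ≤ add (calNs J) :=
  (add_le_bJ hJ).trans (bJ_le_adds hJ)

theorem cofs_le_cof {J : Set (Set ℕ)} (hJ : IsIdeal J) : cof (calNs J) ≤ cof (calN J) :=
  (cofs_le_dJ hJ).trans (dJ_le_cof hJ)

lemma bJ_mono {J K : Set (Set ℕ)} (hK : IsIdeal K) (hJK : J ⊆ K) : bJ J ≤ bJ K := by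
  unfold bJ
  refine le_csInf ⟨_, {c | OmegaBar c}, fun c hc => hc, rfl, ?_⟩ ?_
  · rintro ⟨d, hd, hb⟩
    have h1 : ⋃₀ calN K ⊆ NJ K d := by
      refine Set.sUnion_subset fun A hA => ?_
      obtain ⟨c, hc, hAc⟩ := hA
      exact hAc.trans ((show LeJ K c d from hb c hc).NJ hK)
    rw [sUnion_calN hK] at h1
    exact NJ_ne_univ hK hd (Set.univ_subset_iff.1 h1)
  · rintro κ ⟨F, hF, rfl, hU⟩
    exact csInf_le' ⟨F, hF, rfl, fun ⟨d, hd, hb⟩ => hU ⟨d, hd, fun c hc => hJK (hb c hc)⟩⟩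

lemma dJ_mono {J K : Set (Set ℕ)} (hJ : IsIdeal J) (hJK : J ⊆ K) : dJ K ≤ dJ J := by
  unfold dJ
  refine le_csInf ⟨_, {c | OmegaBar c}, fun c hc => hc, rfl,
    fun c hc => ⟨c, hc, LeJ.refl hJ c⟩⟩ ?_
  rintro κ ⟨F, hF, rfl, hD⟩
  refine csInf_le' ⟨F, hF, rfl, fun c hc => ?_⟩
  obtain ⟨d, hd, h⟩ := hD c hc
  exact ⟨d, hd, hJK h⟩

theorem add_mono {J K : Set (Set ℕ)} (hJ : IsIdeal J) (hK : IsIdeal K) (hJK : J ⊆ K) :
    add (calN J) ≤ add (calN K) :=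
  (add_le_bJ hJ).trans ((bJ_mono hK hJK).trans (bJ_le_add hK))

theorem cof_anti {J K : Set (Set ℕ)} (hJ : IsIdeal J) (hK : IsIdeal K) (hJK : J ⊆ K) :
    cof (calN K) ≤ cof (calN J) :=
  (cof_le_dJ hK).trans ((dJ_mono hJ hJK).trans (dJ_le_cof hJ))

end Pool.Agent.Nm65.Z72
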